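import Pool.Agent.Helper73.Tor.Sphere

open scoped Quaternion RestrictedProduct Topology
open MeasureTheory Topology

noncomputable section

namespace Pool.Agent.Helper73.Tor

/-- the element `cos θ + sin θ v` -/
def cis (v : ℍ[ℝ]) (θ : ℝ) : ℍ[ℝ] :=
  qmk (Real.cos θ) (Real.sin θ * v.imI) (Real.sin θ * v.imJ) (Real.sin θ * v.imK)

theorem normSq_cis {v : ℍ[ℝ]} (hv : PU v) (θ : ℝ) : Quaternion.normSq (cis v θ) = 1 := by
  rw [Quaternion.normSq_def']
  simp only [cis, re_qmk, imI_qmk, imJ_qmk, imK_qmk]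
  linear_combination (Real.sin θ) ^ 2 * hv.2 + Real.sin_sq_add_cos_sq θ

theorem exists_angle {s t : ℝ} (h : s ^ 2 + t ^ 2 = 1) : ∃ θ, Real.cos θ = s ∧ Real.sin θ = t := by
  let z : ℂ := ⟨s, t⟩
  have hz : ‖z‖ = 1 := by
    rw [Complex.norm_def, Complex.normSq_mk, ← sq, ← sq, h, Real.sqrt_one]
  have h1 := Complex.norm_mul_exp_arg_mul_I z
  rw [hz, Complex.ofReal_one, one_mul] at h1
  refine ⟨z.arg, ?_, ?_⟩
  · have := congrArg Complex.re h1
    rw [Complex.exp_ofReal_mul_I_re] at this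
    exact this
  · have := congrArg Complex.im h1
    rw [Complex.exp_ofReal_mul_I_im] at this
    exact this

theorem inAx_of_cis {K : Subgroup (G1 ℝ)} {v : ℍ[ℝ]} (hv : PU v)
    (h : ∀ (x : G1 ℝ) (θ : ℝ), x.1 = cis v θ → x ∈ K) : InAx K v := by
  refine ⟨hv, fun x s t hx => ?_⟩
  have hN := G1.normSq x
  rw [hx, Quaternion.normSq_def'] at hN
  simp only [re_qmk, imI_qmk, imJ_qmk, imK_qmk] at hN
  obtain ⟨θ, h1, h2⟩ := exists_angle (s := s) (t := t) (by
    linear_combination hN - t ^ 2 * hv.2)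
  apply h x θ
  rw [hx, cis, h1, h2]

/-- conjugation by an element normalising the group -/
theorem InAx.conj_normal {K : Subgroup (G1 ℝ)} {v w : ℍ[ℝ]} (h : InAx K v) {k : G1 ℝ}
    (hk : ∀ x ∈ K, k * x * k⁻¹ ∈ K)
    (hw : PU w) (hkw : k.1 * v = w * k.1) : InAx K w := by
  refine ⟨hw, fun x s t hx => ?_⟩
  have h1 : (k⁻¹ * x * k).1 = qmk s (t * v.imI) (t * v.imJ) (t * v.imK) := by
    rw [G1.val_mul, G1.val_mul, G1.val_inv]
    have e1 : x.1 = (s : ℍ[ℝ]) + t • w := by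
      rw [hx]
      ext <;> simp [hw.1]
    have e2 : qmk s (t * v.imI) (t * v.imJ) (t * v.imK) = (s : ℍ[ℝ]) + t • v := by
      ext <;> simp [h.1.1]
    have e3 : star k.1 * k.1 = 1 := (Unitary.mem_iff.1 k.2).1
    have h5 : ((s : ℍ[ℝ]) + t • w) * k.1 = k.1 * ((s : ℍ[ℝ]) + t • v) := by
      rw [add_mul, mul_add, smul_mul_assoc, ← hkw, mul_smul_comm, Quaternion.coe_commutes]
    rw [e1, e2, mul_assoc, h5, ← mul_assoc, e3, one_mul]
  have h2 := h.2 _ s t h1
  have h3 : x = k * (k⁻¹ * x * k) * k⁻¹ := by group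
  rw [h3]
  exact hk _ h2

theorem eq_smul_of_ip {x y : ℍ[ℝ]} (hx : PU x) (hy : PU y) (h : ip x y ^ 2 = 1) :
    y.imI = ip x y * x.imI ∧ y.imJ = ip x y * x.imJ ∧ y.imK = ip x y * x.imK := by
  have h1 : (y.imI - ip x y * x.imI) ^ 2 + (y.imJ - ip x y * x.imJ) ^ 2 +
      (y.imK - ip x y * x.imK) ^ 2 = 0 := by
    have e : (y.imI - ip x y * x.imI) ^ 2 + (y.imJ - ip x y * x.imJ) ^ 2 +
      (y.imK - ip x y * x.imK) ^ 2 = (y.imI ^ 2 + y.imJ ^ 2 + y.imK ^ 2) -
        2 * ip x y * (x.imI * y.imI + x.imJ * y.imJ + x.imK * y.imK) +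
        ip x y ^ 2 * (x.imI ^ 2 + x.imJ ^ 2 + x.imK ^ 2) := by ring
    rw [e, hx.2, hy.2]
    change 1 - 2 * ip x y * ip x y + ip x y ^ 2 * 1 = 0
    linear_combination -h
  have a1 := sq_nonneg (y.imI - ip x y * x.imI)
  have a2 := sq_nonneg (y.imJ - ip x y * x.imJ)
  have a3 := sq_nonneg (y.imK - ip x y * x.imK)
  refine ⟨?_, ?_, ?_⟩
  · have : (y.imI - ip x y * x.imI) ^ 2 = 0 := by linarith
    have := pow_eq_zero_iff (n := 2) (by norm_num) |>.1 this
    linarith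
  · have : (y.imJ - ip x y * x.imJ) ^ 2 = 0 := by linarith
    have := pow_eq_zero_iff (n := 2) (by norm_num) |>.1 this
    linarith
  · have : (y.imK - ip x y * x.imK) ^ 2 = 0 := by linarith
    have := pow_eq_zero_iff (n := 2) (by norm_num) |>.1 this
    linarith

theorem ip_sq_trans {x y z : ℍ[ℝ]} (hx : PU x) (hy : PU y) (hz : PU z) (h : ip x y ^ 2 = 1)
    (h' : ip x z ^ 2 = 1) : ip y z ^ 2 = 1 := by
  obtain ⟨a1, a2, a3⟩ := eq_smul_of_ip hx hy h
  obtain ⟨b1, b2, b3⟩ := eq_smul_of_ip hx hz h'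
  have : ip y z = ip x y * ip x z * (x.imI ^ 2 + x.imJ ^ 2 + x.imK ^ 2) := by
    have : ip y z = y.imI * z.imI + y.imJ * z.imJ + y.imK * z.imK := rfl
    rw [this, a1, a2, a3, b1, b2, b3]
    ring
  rw [this, hx.2, mul_one, mul_pow, h, h', one_mul]

theorem geom (H : Subgroup (G ℝ)) (hH : IsClosed (H : Set (G ℝ))) (I : Set ℕ) (hI : I.Infinite)
    (a b : ℕ → ℍ[ℝ]) (k : ℕ → ℕ) (hk : ∀ i, i < k i) (ha : ∀ i ∈ I, PU (a i))
    (hb : ∀ i ∈ I, PU (b i))
    (hab : ∀ i ∈ I, ∀ j ∈ I, i ≠ j → ip (a i) (a j) ^ 2 < 1 ∧ ip (b i) (b j) ^ 2 < 1)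
    (hmem : ∀ i ∈ I, ∀ (g : G ℝ) (θ : ℝ), g.1.1 = cis (a i) θ → g.2.1 = cis (b i) (k i * θ) →
      g ∈ H) : H = ⊤ := by
  classical
  -- a sequence in `I` along which `b` converges
  let f : ℕ → ℕ := Nat.nth (· ∈ I)
  have hfI : ∀ n, f n ∈ I := fun n => Nat.nth_mem_of_infinite hI n
  have hfmono : StrictMono f := Nat.nth_strictMono hI
  let B : ℕ → ℝ × ℝ × ℝ := fun n => ((b (f n)).imI, (b (f n)).imJ, (b (f n)).imK)
  have hB : ∀ n, B n ∈ Set.Icc (-1 : ℝ) 1 ×ˢ Set.Icc (-1 : ℝ) 1 ×ˢ Set.Icc (-1 : ℝ) 1 := by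
    intro n
    have h := (hb _ (hfI n)).2
    refine ⟨?_, ?_, ?_⟩ <;> rw [Set.mem_Icc] <;> constructor <;>
      nlinarith [sq_nonneg (b (f n)).imI, sq_nonneg (b (f n)).imJ, sq_nonneg (b (f n)).imK]
  obtain ⟨v, -, φ, hφ, hlim⟩ :=
    (isCompact_Icc.prod (isCompact_Icc.prod isCompact_Icc)).tendsto_subseq hB
  let w : ℍ[ℝ] := qmk 0 v.1 v.2.1 v.2.2
  have l1 : Filter.Tendsto (fun n => (b (f (φ n))).imI) Filter.atTop (𝓝 v.1) :=
    (continuous_fst.tendsto v).comp hlim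
  have l2 : Filter.Tendsto (fun n => (b (f (φ n))).imJ) Filter.atTop (𝓝 v.2.1) :=
    ((continuous_fst.comp continuous_snd).tendsto v).comp hlim
  have l3 : Filter.Tendsto (fun n => (b (f (φ n))).imK) Filter.atTop (𝓝 v.2.2) :=
    ((continuous_snd.comp continuous_snd).tendsto v).comp hlim
  have hw : PU w := by
    refine ⟨rfl, ?_⟩
    have h1 := ((l1.pow 2).add (l2.pow 2)).add (l3.pow 2)
    have h2 : (fun n => (b (f (φ n))).imI ^ 2 + (b (f (φ n))).imJ ^ 2 + (b (f (φ n))).imK ^ 2) =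
        fun _ => (1 : ℝ) := by
      funext n
      exact (hb _ (hfI (φ n))).2
    rw [h2] at h1
    exact (tendsto_nhds_unique h1 tendsto_const_nhds)
  let K2 : Subgroup (G1 ℝ) := H.comap (MonoidHom.inr _ _)
  let K1' : Subgroup (G1 ℝ) := H.comap (MonoidHom.inl _ _)
  have hktop : Filter.Tendsto (fun n => ((k (f (φ n)) : ℕ) : ℝ)) Filter.atTop Filter.atTop := by
    apply tendsto_natCast_atTop_atTop.comp
    apply Filter.tendsto_atTop_mono (fun n => (hk _).le)
    exact (hfmono.comp hφ).tendsto_atTop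
  have hK2 : InAx K2 w := by
    apply inAx_of_cis hw
    intro y θ hy
    -- approximate
    let g : ℕ → G ℝ := fun n =>
      (G1.of _ (normSq_cis (ha _ (hfI (φ n))) (θ / k (f (φ n)))),
        G1.of _ (normSq_cis (hb _ (hfI (φ n))) θ))
    have hg : ∀ n, g n ∈ H := by
      intro n
      apply hmem _ (hfI (φ n)) (g n) (θ / k (f (φ n))) rfl
      have : (k (f (φ n)) : ℝ) ≠ 0 := by
        have := hk (f (φ n))
        exact_mod_cast (by omega : k (f (φ n)) ≠ 0)
      rw [mul_div_cancel₀ _ this]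
      rfl
    have h0 : Filter.Tendsto (fun n => θ / k (f (φ n))) Filter.atTop (𝓝 0) :=
      hktop.const_div_atTop θ
    have hsin : Filter.Tendsto (fun n => Real.sin (θ / k (f (φ n)))) Filter.atTop (𝓝 0) := by
      have := (Real.continuous_sin.tendsto 0).comp h0
      rwa [Real.sin_zero] at this
    have hcos : Filter.Tendsto (fun n => Real.cos (θ / k (f (φ n)))) Filter.atTop (𝓝 1) := by
      have := (Real.continuous_cos.tendsto 0).comp h0
      rwa [Real.cos_zero] at this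
    have hbd : ∀ c : ℕ → ℝ, (∀ n, |c n| ≤ 1) →
        Filter.Tendsto (fun n => Real.sin (θ / k (f (φ n))) * c n) Filter.atTop (𝓝 0) := by
      intro c hc
      apply squeeze_zero_norm' (a := fun n => |Real.sin (θ / k (f (φ n)))|)
      · refine Filter.Eventually.of_forall fun n => ?_
        rw [norm_mul, Real.norm_eq_abs, Real.norm_eq_abs]
        exact mul_le_of_le_one_right (abs_nonneg _) (hc n)
      · have := hsin.abs
        rwa [abs_zero] at this
    have hac : ∀ n, |(a (f (φ n))).imI| ≤ 1 ∧ |(a (f (φ n))).imJ| ≤ 1 ∧ |(a (f (φ n))).imK| ≤ 1 := by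
      intro n
      have h := (ha _ (hfI (φ n))).2
      refine ⟨?_, ?_, ?_⟩ <;> rw [abs_le] <;> constructor <;>
        nlinarith [sq_nonneg (a (f (φ n))).imI, sq_nonneg (a (f (φ n))).imJ,
          sq_nonneg (a (f (φ n))).imK]
    have ht1 : Filter.Tendsto (fun n => (g n).1) Filter.atTop (𝓝 (1 : G1 ℝ)) := by
      rw [G1.isEmbedding_coord.tendsto_nhds_iff, tendsto_pi_nhds]
      intro i
      fin_cases i
      · exact hcos
      · exact hbd _ fun n => (hac n).1
      · exact hbd _ fun n => (hac n).2.1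
      · exact hbd _ fun n => (hac n).2.2
    have ht2 : Filter.Tendsto (fun n => (g n).2) Filter.atTop (𝓝 y) := by
      rw [G1.isEmbedding_coord.tendsto_nhds_iff, tendsto_pi_nhds]
      intro i
      fin_cases i
      · show Filter.Tendsto (fun n => Real.cos θ) _ (𝓝 y.1.re)
        rw [hy]
        exact tendsto_const_nhds
      · show Filter.Tendsto (fun n => Real.sin θ * (b (f (φ n))).imI) _ (𝓝 y.1.imI)
        rw [hy]
        exact l1.const_mul _
      · show Filter.Tendsto (fun n => Real.sin θ * (b (f (φ n))).imJ) _ (𝓝 y.1.imJ)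
        rw [hy]
        exact l2.const_mul _
      · show Filter.Tendsto (fun n => Real.sin θ * (b (f (φ n))).imK) _ (𝓝 y.1.imK)
        rw [hy]
        exact l3.const_mul _
    have ht : Filter.Tendsto g Filter.atTop (𝓝 ((1 : G1 ℝ), y)) := ht1.prodMk_nhds ht2
    exact hH.mem_of_tendsto ht (Filter.Eventually.of_forall hg)
  -- two different indices
  have htwo : ∃ i ∈ I, ip w (b i) ^ 2 < 1 := by
    by_contra hcon
    push Not at hcon
    have h1 : ip w (b (f 0)) ^ 2 = 1 :=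
      le_antisymm (hw.ip_sq_le (hb _ (hfI 0))) (hcon _ (hfI 0))
    have h2 : ip w (b (f 1)) ^ 2 = 1 :=
      le_antisymm (hw.ip_sq_le (hb _ (hfI 1))) (hcon _ (hfI 1))
    have h3 := ip_sq_trans hw (hb _ (hfI 0)) (hb _ (hfI 1)) h1 h2
    have h4 := (hab _ (hfI 0) _ (hfI 1) (hfmono (Nat.lt_succ_self 0)).ne).2
    rw [h3] at h4
    exact lt_irrefl _ h4
  have hK2top : K2 = ⊤ := by
    obtain ⟨i, hi, hlt⟩ := htwo
    have hbi := hb i hi
    set c := ip w (b i) with hc
    have hc' : c = w.imI * (b i).imI + w.imJ * (b i).imJ + w.imK * (b i).imK := rfl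
    -- rotation of `w` about `b i` by ninety degrees
    let w' : ℍ[ℝ] := qmk 0 (c * (b i).imI + ((b i).imJ * w.imK - (b i).imK * w.imJ))
      (c * (b i).imJ + ((b i).imK * w.imI - (b i).imI * w.imK))
      (c * (b i).imK + ((b i).imI * w.imJ - (b i).imJ * w.imI))
    have hcross : ((b i).imJ * w.imK - (b i).imK * w.imJ) ^ 2 +
        ((b i).imK * w.imI - (b i).imI * w.imK) ^ 2 +
        ((b i).imI * w.imJ - (b i).imJ * w.imI) ^ 2 = 1 - c ^ 2 := by
      have : ((b i).imJ * w.imK - (b i).imK * w.imJ) ^ 2 +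
        ((b i).imK * w.imI - (b i).imI * w.imK) ^ 2 +
        ((b i).imI * w.imJ - (b i).imJ * w.imI) ^ 2 = (w.imI ^ 2 + w.imJ ^ 2 + w.imK ^ 2) *
        ((b i).imI ^ 2 + (b i).imJ ^ 2 + (b i).imK ^ 2) -
        (w.imI * (b i).imI + w.imJ * (b i).imJ + w.imK * (b i).imK) ^ 2 := by ring
      rw [this, hw.2, hbi.2, ← hc', one_mul]
    have hw' : PU w' := by
      refine ⟨rfl, ?_⟩
      simp only [w', imI_qmk, imJ_qmk, imK_qmk]
      linear_combination hcross + c ^ 2 * hbi.2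
    have hip : ip w w' = c ^ 2 := by
      simp only [ip, w', imI_qmk, imJ_qmk, imK_qmk]
      linear_combination -c * hc'
    obtain ⟨x, hx⟩ := exists_circ hbi (s := Real.cos (Real.pi / 4)) (t := Real.sin (Real.pi / 4))
      (by rw [add_comm]; exact Real.sin_sq_add_cos_sq _)
    have hkpos : (k i : ℝ) ≠ 0 := by
      have := hk i
      exact_mod_cast (by omega : k i ≠ 0)
    have hxH : (G1.of _ (normSq_cis (ha i hi) (Real.pi / 4 / k i)), x) ∈ H := by
      apply hmem i hi _ (Real.pi / 4 / k i) rfl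
      rw [mul_div_cancel₀ _ hkpos]
      exact hx
    have hnorm : ∀ y ∈ K2, x * y * x⁻¹ ∈ K2 := by
      intro y hy
      have h1 := H.mul_mem (H.mul_mem hxH hy) (H.inv_mem hxH)
      show ((1 : G1 ℝ), x * y * x⁻¹) ∈ H
      convert h1 using 1
      refine Prod.ext ?_ rfl
      show 1 = _ * 1 * _⁻¹
      group
    have hK2' : InAx K2 w' := by
      apply hK2.conj_normal hnorm hw'
      rw [hx, Real.cos_pi_div_four, Real.sin_pi_div_four]
      set r : ℝ := Real.sqrt 2 / 2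
      have e1 := hw.1
      ext
      · simp only [Quaternion.re_mul, w', re_qmk, imI_qmk, imJ_qmk, imK_qmk, e1]
        linear_combination r * hc' + r * c * hbi.2
      · simp only [Quaternion.imI_mul, w', re_qmk, imI_qmk, imJ_qmk, imK_qmk, e1]
        linear_combination (-r * w.imI) * hbi.2 - (r * (b i).imI) * hc'
      · simp only [Quaternion.imJ_mul, w', re_qmk, imI_qmk, imJ_qmk, imK_qmk, e1]
        linear_combination (-r * w.imJ) * hbi.2 - (r * (b i).imJ) * hc'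
      · simp only [Quaternion.imK_mul, w', re_qmk, imI_qmk, imJ_qmk, imK_qmk, e1]
        linear_combination (-r * w.imK) * hbi.2 - (r * (b i).imK) * hc'
    apply eq_top_of_two hK2 hK2'
    rw [hip]
    nlinarith [sq_nonneg c]
  have h2 : ∀ y : G1 ℝ, ((1 : G1 ℝ), y) ∈ H := by
    intro y
    have : y ∈ K2 := by rw [hK2top]; trivial
    exact this
  have hK1 : ∀ i ∈ I, InAx K1' (a i) := by
    intro i hi
    apply inAx_of_cis (ha i hi)
    intro x θ hx
    have h3 := hmem i hi (x, G1.of _ (normSq_cis (hb i hi) (k i * θ))) θ hx rfl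
    have h4 := H.mul_mem h3 (h2 (G1.of _ (normSq_cis (hb i hi) (k i * θ)))⁻¹)
    show (x, (1 : G1 ℝ)) ∈ H
    convert h4 using 1
    refine Prod.ext ?_ ?_
    · exact (mul_one x).symm
    · exact (mul_inv_cancel _).symm
  have hK1top : K1' = ⊤ :=
    eq_top_of_two (hK1 _ (hfI 0)) (hK1 _ (hfI 1))
      (hab _ (hfI 0) _ (hfI 1) (hfmono (Nat.lt_succ_self 0)).ne).1
  rw [eq_top_iff]
  rintro ⟨x, y⟩ -
  have h5 : (x, (1 : G1 ℝ)) ∈ H := by
    have : x ∈ K1' := by rw [hK1top]; trivial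
    exact this
  have h6 := H.mul_mem h5 (h2 y)
  convert h6 using 1
  exact Prod.ext (mul_one x).symm (one_mul y).symm

end Pool.Agent.Helper73.Tor
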