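import Pool.Agent.Helper73.Tor.Torus
import Pool.Agent.Helper73.Tor.Geom

open scoped Quaternion RestrictedProduct Topology
open MeasureTheory Topology

noncomputable section

namespace Pool.Agent.Helper73.Tor

section
variable {R S : Type} [CommRing R] [CommRing S] [Algebra ℚ R] [Algebra ℚ S]

theorem AlgSubgroup.map_mem (H : AlgSubgroup) (f : R →+* S) {g : G R} (hg : g ∈ H.pts R) :
    G.map f g ∈ H.pts S := by
  rw [H.mem_pts] at hg ⊢
  intro p hp
  rw [← hom_aeval_coord, hg p hp, map_zero]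

theorem AlgSubgroup.mem_of_map_mem (H : AlgSubgroup) {f : R →+* S} (hf : Function.Injective f)
    {g : G R} (hg : G.map f g ∈ H.pts S) : g ∈ H.pts R := by
  rw [H.mem_pts] at hg ⊢
  intro p hp
  apply hf
  rw [hom_aeval_coord, hg p hp, map_zero]

omit [Algebra ℚ R] [Algebra ℚ S] in
/-- pairing -/
def G.pair (x : G R) (y : G S) : G (R × S) := (G1.pair x.1 y.1, G1.pair x.2 y.2)

theorem AlgSubgroup.pair_mem (H : AlgSubgroup) {x : G R} {y : G S} (hx : x ∈ H.pts R)
    (hy : y ∈ H.pts S) : G.pair x y ∈ H.pts (R × S) := by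
  rw [H.mem_pts] at hx hy ⊢
  intro p hp
  apply Prod.ext
  · have := hom_aeval_coord (RingHom.fst R S) (G.pair x y) p
    rw [RingHom.coe_fst] at this
    rw [this]
    exact hx p hp
  · have := hom_aeval_coord (RingHom.snd R S) (G.pair x y) p
    rw [RingHom.coe_snd] at this
    rw [this]
    exact hy p hp

end

theorem G1.coord_map_apply {R S : Type} [CommRing R] [CommRing S] (f : R →+* S) (x : G1 R)
    (i : Fin 4) : (G1.map f x).coord i = f (x.coord i) := by
  rw [G1.coord_map]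

theorem ratFinAdele_injective : Function.Injective (algebraMap ℚ FinAdele) := by
  intro a b h
  have h2 : (a : ℚ_[(⟨2, Nat.prime_two⟩ : Pr)]) = b :=
    congrArg (fun x : FinAdele => x ⟨2, Nat.prime_two⟩) h
  exact_mod_cast h2

theorem continuous_coordR : Continuous (coord : G ℝ → Fin 2 × Fin 4 → ℝ) := by
  refine continuous_pi fun ⟨i, j⟩ => ?_
  by_cases hi : i = 0
  · simp only [coord, hi, if_true]
    exact (continuous_apply j).comp (G1.continuous_coord.comp continuous_fst)
  · simp only [coord, hi, if_false]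
    exact (continuous_apply j).comp (G1.continuous_coord.comp continuous_snd)

theorem AlgSubgroup.isClosed_real (H : AlgSubgroup) : IsClosed (H.pts ℝ : Set (G ℝ)) := by
  have : (H.pts ℝ : Set (G ℝ)) = ⋂ p ∈ H.eqs, {g : G ℝ | MvPolynomial.aeval (coord g) p = 0} := by
    ext g
    simp only [SetLike.mem_coe, H.mem_pts, Set.mem_iInter, Set.mem_ofPred_eq]
  rw [this]
  refine isClosed_biInter fun p _ => isClosed_eq ?_ continuous_const
  have h : ∀ g : G ℝ, MvPolynomial.aeval (coord g) p =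
      MvPolynomial.eval (coord g) (MvPolynomial.map (algebraMap ℚ ℝ) p) := by
    intro g
    rw [MvPolynomial.aeval_def, MvPolynomial.eval₂_eq_eval_map]
  simp only [h]
  exact (MvPolynomial.continuous_eval _).comp continuous_coordR

/-- If the adelic torus subset lies in `h[H(𝔸)]`, a rational conjugate of the torus lies
in `H`. -/
theorem exists_conj_mem (T H : AlgSubgroup) (h : G Adele) (hT : T.orbit 1 ⊆ H.orbit h) :
    ∃ γ : G ℚ, ∀ t ∈ T.pts ℝ,
      G.map (algebraMap ℚ ℝ) γ * t * (G.map (algebraMap ℚ ℝ) γ)⁻¹ ∈ H.pts ℝ := by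
  have key : ∀ t ∈ T.pts Adele, ∃ η ∈ H.pts Adele, ∃ γ : G ℚ,
      h * η = t * G.map (algebraMap ℚ Adele) γ := by
    intro t ht
    obtain ⟨η, hη, he⟩ := hT ⟨t, ht, rfl⟩
    obtain ⟨γ, hγ⟩ := QuotientGroup.eq.1 he
    refine ⟨η, hη, γ, ?_⟩
    rw [hγ]
    group
  obtain ⟨η₀, hη₀, γ₀, h₀⟩ := key 1 (T.pts Adele).one_mem
  rw [one_mul] at h₀
  refine ⟨γ₀⁻¹, fun t ht => ?_⟩
  obtain ⟨η, hη, γ, hγ⟩ := key (G.pair t (1 : G FinAdele)) (T.pair_mem ht (T.pts FinAdele).one_mem)
  have h1 : η₀⁻¹ * η = (G.map (algebraMap ℚ Adele) γ₀)⁻¹ * G.pair t (1 : G FinAdele) *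
      G.map (algebraMap ℚ Adele) γ := by
    rw [mul_assoc, ← hγ, ← h₀]
    group
  have h2 : η₀⁻¹ * η ∈ H.pts Adele := (H.pts Adele).mul_mem ((H.pts Adele).inv_mem hη₀) hη
  rw [h1] at h2
  -- the finite part
  have h3 := H.map_mem (RingHom.snd ℝ FinAdele) h2
  rw [map_mul, map_mul, map_inv, G.map_comp, G.map_comp, comp_algebraMap_rat] at h3
  have e1 : G.map (RingHom.snd ℝ FinAdele) (G.pair t (1 : G FinAdele)) = 1 := rfl
  rw [e1, mul_one, ← map_inv, ← map_mul] at h3
  have h4 : γ₀⁻¹ * γ ∈ H.pts ℚ := H.mem_of_map_mem ratFinAdele_injective h3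
  have h5 := H.map_mem (algebraMap ℚ ℝ) h4
  -- the real part
  have h6 := H.map_mem (RingHom.fst ℝ FinAdele) h2
  rw [map_mul, map_mul, map_inv, G.map_comp, G.map_comp, comp_algebraMap_rat] at h6
  have e2 : G.map (RingHom.fst ℝ FinAdele) (G.pair t (1 : G FinAdele)) = t := rfl
  rw [e2] at h6
  have h7 := (H.pts ℝ).mul_mem h6 ((H.pts ℝ).inv_mem h5)
  rw [map_mul, map_inv] at h7
  rw [map_inv]
  convert h7 using 1
  group

/-- A `ℚ`-subgroup with `H(ℝ) = G(ℝ)` is equal to `G`. -/
theorem AlgSubgroup.eq_top_of_real (H : AlgSubgroup) (hH : H.pts ℝ = ⊤) (R : Type) [CommRing R]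
    [Algebra ℚ R] : H.pts R = ⊤ := by
  have hQ : ∀ g : G ℚ, g ∈ H.pts ℚ := fun g =>
    H.mem_of_map_mem (algebraMap ℚ ℝ).injective (by rw [hH]; trivial)
  have h1 : ∀ x : G1 R, ((x, 1) : G R) ∈ H.pts R := by
    intro x
    rw [H.mem_pts]
    intro p hp
    let sub : Fin 2 × Fin 4 → MvPolynomial (Fin 4) ℚ := fun m =>
      if m.1 = 0 then MvPolynomial.X m.2 else MvPolynomial.C ((1 : G1 ℚ).coord m.2)
    let p' : MvPolynomial (Fin 4) ℚ := MvPolynomial.aeval sub p
    have hp' : ∀ {S : Type} [CommRing S] [Algebra ℚ S] (y : G1 S),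
        MvPolynomial.aeval y.coord p' = MvPolynomial.aeval (coord ((y, 1) : G S)) p := by
      intro S _ _ y
      have h1 := hom_aeval
        (MvPolynomial.aeval y.coord : MvPolynomial (Fin 4) ℚ →ₐ[ℚ] S).toRingHom sub p
      refine h1.trans ?_
      congr 2
      funext ⟨i, j⟩
      show MvPolynomial.aeval y.coord (sub (i, j)) = coord ((y, 1) : G S) (i, j)
      by_cases hi : i = 0
      · simp only [sub, coord, hi, if_true, MvPolynomial.aeval_X]
      · simp only [sub, coord, hi, if_false, MvPolynomial.aeval_C]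
        rw [← G1.coord_map_apply, map_one]
    rw [← hp']
    refine zariski false p' (fun y _ => ?_) x (fun h => by simp at h)
    rw [hp']
    exact (H.mem_pts ℚ _).1 (hQ (y, 1)) p hp
  have h2 : ∀ x : G1 R, ((1, x) : G R) ∈ H.pts R := by
    intro x
    rw [H.mem_pts]
    intro p hp
    let sub : Fin 2 × Fin 4 → MvPolynomial (Fin 4) ℚ := fun m =>
      if m.1 = 0 then MvPolynomial.C ((1 : G1 ℚ).coord m.2) else MvPolynomial.X m.2
    let p' : MvPolynomial (Fin 4) ℚ := MvPolynomial.aeval sub p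
    have hp' : ∀ {S : Type} [CommRing S] [Algebra ℚ S] (y : G1 S),
        MvPolynomial.aeval y.coord p' = MvPolynomial.aeval (coord ((1, y) : G S)) p := by
      intro S _ _ y
      have h1 := hom_aeval
        (MvPolynomial.aeval y.coord : MvPolynomial (Fin 4) ℚ →ₐ[ℚ] S).toRingHom sub p
      refine h1.trans ?_
      congr 2
      funext ⟨i, j⟩
      show MvPolynomial.aeval y.coord (sub (i, j)) = coord ((1, y) : G S) (i, j)
      by_cases hi : i = 0
      · simp only [sub, coord, hi, if_true, MvPolynomial.aeval_C]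
        rw [← G1.coord_map_apply, map_one]
      · simp only [sub, coord, hi, if_false, MvPolynomial.aeval_X]
    rw [← hp']
    refine zariski false p' (fun y _ => ?_) x (fun h => by simp at h)
    rw [hp']
    exact (H.mem_pts ℚ _).1 (hQ (1, y)) p hp
  rw [Subgroup.eq_top_iff']
  rintro ⟨x, y⟩
  have := (H.pts R).mul_mem (h1 x) (h2 y)
  simpa using this

end Pool.Agent.Helper73.Tor
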