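import Pool.Agent.Helper73.Tor.Top

open scoped Quaternion RestrictedProduct Topology
open MeasureTheory Topology

noncomputable section

namespace Pool.Agent.Helper73.Tor

/-- the map to the finite adeles -/
abbrev toFin : Adele →+* FinAdele := RingHom.snd ℝ FinAdele
/-- the map to the real numbers -/
abbrev toReal : Adele →+* ℝ := RingHom.fst ℝ FinAdele
/-- the diagonal embedding -/
abbrev diag : G1 ℚ →* G1 Adele := G1.map (algebraMap ℚ Adele)

theorem continuous_toFin : Continuous toFin := continuous_snd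
theorem continuous_toReal : Continuous toReal := continuous_fst

theorem toFin_algebraMap (q : ℚ) : toFin (algebraMap ℚ Adele q) = algebraMap ℚ FinAdele q := rfl
theorem toReal_algebraMap (q : ℚ) : toReal (algebraMap ℚ Adele q) = (q : ℝ) := rfl

theorem toFin_comp : toFin.comp (algebraMap ℚ Adele) = algebraMap ℚ FinAdele := rfl
theorem toReal_comp : toReal.comp (algebraMap ℚ Adele) = algebraMap ℚ ℝ := rfl

theorem algebraMap_adele_injective : Function.Injective (algebraMap ℚ Adele) := by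
  intro a b h
  have := congrArg toReal h
  rw [toReal_algebraMap, toReal_algebraMap] at this
  exact_mod_cast this

instance : SecondCountableTopology (G1 Adele) := G1.isEmbedding_coord.secondCountableTopology

/-- elements with half-integral finite part -/
def K1 : Set (G1 Adele) := {x | 2 * qmap toFin x.1 ∈ QSub Zhat}

/-- elements with integral finite part -/
def V1 : Subgroup (G1 Adele) where
  carrier := {x | qmap toFin x.1 ∈ QSub Zhat}
  mul_mem' {x y} hx hy := by
    rw [Set.mem_ofPred_eq, G1.val_mul, map_mul]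
    exact (QSub Zhat).mul_mem hx hy
  one_mem' := by
    rw [Set.mem_ofPred_eq, G1.val_one, map_one]
    exact (QSub Zhat).one_mem
  inv_mem' {x} hx := by
    rw [Set.mem_ofPred_eq, G1.val_inv, qmap_star]
    exact star_mem_QSub hx

theorem mem_V1 {x : G1 Adele} : x ∈ V1 ↔ qmap toFin x.1 ∈ QSub Zhat := Iff.rfl
theorem mem_K1 {x : G1 Adele} : x ∈ K1 ↔ 2 * qmap toFin x.1 ∈ QSub Zhat := Iff.rfl

theorem isOpen_V1 : IsOpen (V1 : Set (G1 Adele)) := by
  have h : (V1 : Set (G1 Adele)) = {x | (x.1.re).2 ∈ Zhat} ∩ {x | (x.1.imI).2 ∈ Zhat} ∩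
      {x | (x.1.imJ).2 ∈ Zhat} ∩ {x | (x.1.imK).2 ∈ Zhat} := by
    ext x
    simp only [SetLike.mem_coe, mem_V1, mem_QSub, Set.mem_inter_iff, Set.mem_ofPred_eq, and_assoc]
    rfl
  rw [h]
  exact (((isOpen_Zhat.preimage (continuous_snd.comp G1.continuous_re)).inter
    (isOpen_Zhat.preimage (continuous_snd.comp G1.continuous_imI))).inter
    (isOpen_Zhat.preimage (continuous_snd.comp G1.continuous_imJ))).inter
    (isOpen_Zhat.preimage (continuous_snd.comp G1.continuous_imK))

theorem isCompact_half : IsCompact {a : FinAdele | 2 * a ∈ Zhat} := by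
  have h : {a : FinAdele | 2 * a ∈ Zhat} =
      (fun a => algebraMap ℚ FinAdele (1 / 2) * a) '' (Zhat : Set FinAdele) := by
    have e : algebraMap ℚ FinAdele (1 / 2) * 2 = 1 := by
      rw [← map_ofNat (algebraMap ℚ FinAdele) 2, ← map_mul]
      norm_num
    ext a
    constructor
    · intro ha
      refine ⟨2 * a, ha, ?_⟩
      simp only
      rw [← mul_assoc, e, one_mul]
    · rintro ⟨b, hb, rfl⟩
      rw [Set.mem_ofPred_eq]
      simp only
      rw [← mul_assoc, mul_comm (2 : FinAdele), e, one_mul]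
      exact hb
  rw [h]
  exact isCompact_Zhat.image (continuous_const.mul continuous_id)

theorem real_coord_mem (x : G1 ℝ) : x.1.re ∈ Set.Icc (-1 : ℝ) 1 ∧ x.1.imI ∈ Set.Icc (-1 : ℝ) 1 ∧
    x.1.imJ ∈ Set.Icc (-1 : ℝ) 1 ∧ x.1.imK ∈ Set.Icc (-1 : ℝ) 1 := by
  have h := G1.normSq x
  rw [Quaternion.normSq_def'] at h
  simp only [Set.mem_Icc, ← abs_le]
  refine ⟨?_, ?_, ?_, ?_⟩ <;> apply abs_le_one_iff_mul_self_le_one.2 <;> nlinarith [
    sq_nonneg x.1.re, sq_nonneg x.1.imI, sq_nonneg x.1.imJ, sq_nonneg x.1.imK]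

theorem isCompact_K1 : IsCompact K1 := by
  have h : K1 = G1.coord ⁻¹' (Set.pi Set.univ fun _ : Fin 4 =>
      (Set.Icc (-1 : ℝ) 1) ×ˢ {a : FinAdele | 2 * a ∈ Zhat}) := by
    ext x
    have hr := real_coord_mem (G1.map toReal x)
    have h2 : 2 * qmap toFin x.1 = qmap toFin x.1 + qmap toFin x.1 := two_mul _
    rw [mem_K1, mem_QSub, h2]
    simp only [Quaternion.re_add, Quaternion.imI_add, Quaternion.imJ_add, Quaternion.imK_add]
    simp only [← two_mul]
    constructor
    · rintro ⟨h0, h1, h2, h3⟩ i -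
      fin_cases i
      · exact ⟨hr.1, h0⟩
      · exact ⟨hr.2.1, h1⟩
      · exact ⟨hr.2.2.1, h2⟩
      · exact ⟨hr.2.2.2, h3⟩
    · intro h
      exact ⟨(h 0 trivial).2, (h 1 trivial).2, (h 2 trivial).2, (h 3 trivial).2⟩
  rw [h]
  exact G1.isClosedEmbedding_coord.isCompact_preimage
    (isCompact_univ_pi fun _ => isCompact_Icc.prod isCompact_half)

theorem exists_decomp {b : Bool} (x : G1 Adele) (hx : InC b (qmap toFin x.1)) :
    ∃ γ : G1 ℚ, InC b γ.1 ∧ x * diag γ ∈ K1 := by
  obtain ⟨γ, h1, h2⟩ := exists_gamma (b := b) ((G1.map toFin x)⁻¹) (by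
    rw [G1.val_inv]; exact hx.star)
  refine ⟨γ, h1, ?_⟩
  rw [mem_K1]
  have h3 := star_mem_QSub h2
  rw [G1.val_inv, star_mul, star_mul, star_star, star_star] at h3
  have h4 : qmap toFin (x * diag γ).1 = qmap toFin x.1 * qι γ.1 := by
    rw [G1.val_mul, map_mul, G1.val_map, qmap_comp, toFin_comp]
  rw [h4, two_mul]
  rw [G1.val_map] at h3
  have h5 : star (2 : ℍ[FinAdele]) = 2 := star_ofNat 2
  rw [h5, mul_two] at h3
  exact h3

/-- A small neighbourhood of `1`. -/
def U0 : Set (G1 Adele) := {x | x ∈ V1 ∧ |(x.1.re).1 - 1| < 1 ∧ |(x.1.imI).1| < 1 ∧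
  |(x.1.imJ).1| < 1 ∧ |(x.1.imK).1| < 1}

theorem isOpen_U0 : IsOpen U0 := by
  refine isOpen_V1.inter ?_
  refine IsOpen.inter ?_ (IsOpen.inter ?_ (IsOpen.inter ?_ ?_))
  · exact isOpen_lt (((continuous_fst.comp G1.continuous_re).sub continuous_const).abs)
      continuous_const
  · exact isOpen_lt ((continuous_fst.comp G1.continuous_imI).abs) continuous_const
  · exact isOpen_lt ((continuous_fst.comp G1.continuous_imJ).abs) continuous_const
  · exact isOpen_lt ((continuous_fst.comp G1.continuous_imK).abs) continuous_const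

theorem one_mem_U0 : (1 : G1 Adele) ∈ U0 := by
  refine ⟨V1.one_mem, ?_, ?_, ?_, ?_⟩
  · show |(1 : ℝ) - 1| < 1
    norm_num
  · show |(0 : ℝ)| < 1
    norm_num
  · show |(0 : ℝ)| < 1
    norm_num
  · show |(0 : ℝ)| < 1
    norm_num

/-- an integral rational point -/
theorem int_of_diag_mem {γ : G1 ℚ} (h : diag γ ∈ V1) : IsInt γ.1 := by
  rw [mem_V1, G1.val_map, qmap_comp, toFin_comp] at h
  obtain ⟨h0, h1, h2, h3⟩ := h
  obtain ⟨a, ha⟩ := int_of_mem_Zhat h0
  obtain ⟨b, hb⟩ := int_of_mem_Zhat h1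
  obtain ⟨c, hc⟩ := int_of_mem_Zhat h2
  obtain ⟨d, hd⟩ := int_of_mem_Zhat h3
  exact ⟨a, b, c, d, Quaternion.ext _ _ ha hb hc hd⟩

theorem eq_one_of_mem_U0 {γ : G1 ℚ} (h : diag γ ∈ U0) : γ = 1 := by
  obtain ⟨hV, h0, h1, h2, h3⟩ := h
  obtain ⟨a, b, c, d, hγ⟩ := int_of_diag_mem hV
  have e0 : ((diag γ).1.re).1 = (a : ℝ) := by
    show ((γ.1.re : ℚ) : ℝ) = a
    rw [hγ]; simp
  have e1 : ((diag γ).1.imI).1 = (b : ℝ) := by
    show ((γ.1.imI : ℚ) : ℝ) = b
    rw [hγ]; simp
  have e2 : ((diag γ).1.imJ).1 = (c : ℝ) := by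
    show ((γ.1.imJ : ℚ) : ℝ) = c
    rw [hγ]; simp
  have e3 : ((diag γ).1.imK).1 = (d : ℝ) := by
    show ((γ.1.imK : ℚ) : ℝ) = d
    rw [hγ]; simp
  rw [e0] at h0
  rw [e1] at h1
  rw [e2] at h2
  rw [e3] at h3
  have k0 : |a - 1| < 1 := by exact_mod_cast h0
  have k1 : |b| < 1 := by exact_mod_cast h1
  have k2 : |c| < 1 := by exact_mod_cast h2
  have k3 : |d| < 1 := by exact_mod_cast h3
  rw [Int.abs_lt_one_iff] at k0 k1 k2 k3
  apply G1.ext
  rw [hγ, k1, k2, k3, show a = 1 by omega]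
  ext <;> simp

theorem discrete_ratPts : DiscreteTopology ratPts := by
  apply discreteTopology_of_isOpen_singleton_one
  have h : ({1} : Set ratPts) = Subtype.val ⁻¹' (U0 ×ˢ U0) := by
    ext ⟨g, γ, rfl⟩
    constructor
    · intro h
      have h1 : G.map (algebraMap ℚ Adele) γ = 1 := congrArg Subtype.val h
      rw [Set.mem_preimage]
      simp only
      rw [h1]
      exact ⟨one_mem_U0, one_mem_U0⟩
    · rintro ⟨h1, h2⟩
      have e1 := eq_one_of_mem_U0 h1
      have e2 := eq_one_of_mem_U0 h2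
      have e3 : γ = 1 := Prod.ext e1 e2
      rw [Set.mem_singleton_iff]
      apply Subtype.ext
      show G.map (algebraMap ℚ Adele) γ = 1
      rw [e3, map_one]
  rw [h]
  exact (isOpen_U0.prod isOpen_U0).preimage continuous_subtype_val

instance : IsClosed (ratPts : Set (G Adele)) := by
  have := discrete_ratPts
  exact Subgroup.isClosed_of_discrete

instance : T2Space X := inferInstanceAs (T2Space (G Adele ⧸ ratPts))
instance : SecondCountableTopology X :=
  inferInstanceAs (SecondCountableTopology (G Adele ⧸ ratPts))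

theorem continuous_toX : Continuous toX := QuotientGroup.continuous_mk

theorem toX_mul_diag (g : G Adele) (γ : G ℚ) : toX (g * G.map (algebraMap ℚ Adele) γ) = toX g := by
  apply QuotientGroup.eq.2
  rw [mul_inv_rev, inv_mul_cancel_right]
  exact ratPts.inv_mem ⟨γ, rfl⟩

instance : CompactSpace X := by
  constructor
  have h : (Set.univ : Set X) = toX '' (K1 ×ˢ K1) := by
    symm
    rw [Set.eq_univ_iff_forall]
    intro x
    obtain ⟨g, rfl⟩ : ∃ g, toX g = x := QuotientGroup.mk_surjective x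
    obtain ⟨γ1, -, h1⟩ := exists_decomp (b := false) g.1 (fun h => by simp at h)
    obtain ⟨γ2, -, h2⟩ := exists_decomp (b := false) g.2 (fun h => by simp at h)
    exact ⟨g * G.map (algebraMap ℚ Adele) (γ1, γ2), ⟨h1, h2⟩, toX_mul_diag _ _⟩
  rw [h]
  exact (isCompact_K1.prod isCompact_K1).image continuous_toX

end Pool.Agent.Helper73.Tor
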