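import Pool.Agent.Helper73.Tor.IsTorus
import Pool.Agent.Helper73.Tor.Geom
import Pool.Agent.Helper73.Tor.Space

open scoped Quaternion RestrictedProduct Topology
open MeasureTheory Topology

noncomputable section

namespace Pool.Agent.Helper73.Tor

/-- generic quaternion -/
def gq : ℍ[MvPolynomial (Fin 4) ℚ] :=
  qmk (MvPolynomial.X 0) (MvPolynomial.X 1) (MvPolynomial.X 2) (MvPolynomial.X 3)

/-- the ideal of the norm one torus -/
def idl : Ideal (MvPolynomial (Fin 4) ℚ) :=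
  Ideal.span {Quaternion.normSq gq - 1, MvPolynomial.X 2, MvPolynomial.X 3}

/-- the coordinate ring of the norm one torus -/
abbrev CR : Type := MvPolynomial (Fin 4) ℚ ⧸ idl

theorem normSq_univ : Quaternion.normSq (qmap (Ideal.Quotient.mk idl) gq) = 1 := by
  rw [normSq_qmap]
  have h : Ideal.Quotient.mk idl (Quaternion.normSq gq - 1) = 0 :=
    Ideal.Quotient.eq_zero_iff_mem.2 (Ideal.subset_span (by simp))
  rw [map_sub, map_one, sub_eq_zero] at h
  exact h

/-- the universal point -/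
def univPt : Ssub CR :=
  ⟨G1.of _ normSq_univ, fun _ => ⟨Ideal.Quotient.eq_zero_iff_mem.2 (Ideal.subset_span (by simp [gq])),
    Ideal.Quotient.eq_zero_iff_mem.2 (Ideal.subset_span (by simp [gq]))⟩⟩

section
variable {R : Type} [CommRing R] [Algebra ℚ R]

theorem qmap_aeval_gq (s : G1 R) :
    qmap (MvPolynomial.aeval s.coord : MvPolynomial (Fin 4) ℚ →ₐ[ℚ] R).toRingHom gq = s.1 := by
  ext <;> simp [gq] <;> rfl

/-- the homomorphism from the coordinate ring given by a point -/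
def evPt (s : Ssub R) : CR →ₐ[ℚ] R :=
  Ideal.Quotient.liftₐ idl (MvPolynomial.aeval s.1.coord) (by
    intro a ha
    have hle : idl ≤ RingHom.ker (MvPolynomial.aeval s.1.coord : MvPolynomial (Fin 4) ℚ →ₐ[ℚ] R) := by
      unfold idl
      rw [Ideal.span_le]
      rintro x (rfl | rfl | rfl)
      · rw [SetLike.mem_coe, RingHom.mem_ker, map_sub, map_one]
        have h := normSq_qmap
          (MvPolynomial.aeval s.1.coord : MvPolynomial (Fin 4) ℚ →ₐ[ℚ] R).toRingHom gq
        rw [qmap_aeval_gq, G1.normSq] at h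
        rw [sub_eq_zero]
        exact h.symm
      · rw [SetLike.mem_coe, RingHom.mem_ker, MvPolynomial.aeval_X]
        exact (s.2 rfl).1
      · rw [SetLike.mem_coe, RingHom.mem_ker, MvPolynomial.aeval_X]
        exact (s.2 rfl).2
    exact hle ha)

theorem evPt_mk (s : Ssub R) (p : MvPolynomial (Fin 4) ℚ) :
    evPt s (Ideal.Quotient.mk idl p) = MvPolynomial.aeval s.1.coord p := rfl

theorem map_univPt (s : Ssub R) : G1.map ((evPt s : CR →ₐ[ℚ] R) : CR →+* R) univPt.1 = s.1 := by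
  apply G1.ext
  refine Eq.trans ?_ (qmap_aeval_gq s.1)
  rfl

end

theorem abs_eq_one_of_bounded {M : Type*} [Group M] (F : M →* ℝˣ) (C : ℝ)
    (h : ∀ s, |((F s : ℝˣ) : ℝ)| ≤ C) (s : M) : |((F s : ℝˣ) : ℝ)| = 1 := by
  have key : ∀ s, |((F s : ℝˣ) : ℝ)| ≤ 1 := by
    intro s
    by_contra hcon
    push Not at hcon
    obtain ⟨n, hn⟩ := pow_unbounded_of_one_lt C hcon
    have h1 := h (s ^ n)
    rw [map_pow, Units.val_pow_eq_pow_val, abs_pow] at h1
    linarith
  apply le_antisymm (key s)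
  have h1 := key s⁻¹
  have h2 : |((F s : ℝˣ) : ℝ)| * |((F s⁻¹ : ℝˣ) : ℝ)| = 1 := by
    rw [← abs_mul, ← Units.val_mul, ← map_mul, mul_inv_cancel, map_one, Units.val_one, abs_one]
  nlinarith [abs_nonneg ((F s : ℝˣ) : ℝ), abs_nonneg ((F s⁻¹ : ℝˣ) : ℝ)]

theorem exists_sq (s : Ssub ℝ) : ∃ r : Ssub ℝ, r * r = s := by
  have hN := G1.normSq s.1
  rw [Quaternion.normSq_def', (s.2 rfl).1, (s.2 rfl).2] at hN
  obtain ⟨θ, h1, h2⟩ := exists_angle (s := s.1.1.re) (t := s.1.1.imI) (by linear_combination hN)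
  obtain ⟨φ, rfl⟩ : ∃ φ, θ = 2 * φ := ⟨θ / 2, by ring⟩
  have hr : Quaternion.normSq (qmk (Real.cos φ) (Real.sin φ) 0 0) = 1 := by
    rw [Quaternion.normSq_def']
    simp only [re_qmk, imI_qmk, imJ_qmk, imK_qmk]
    linear_combination Real.sin_sq_add_cos_sq φ
  refine ⟨⟨G1.of _ hr, fun _ => ⟨rfl, rfl⟩⟩, ?_⟩
  apply Subtype.ext
  apply G1.ext
  show qmk (Real.cos φ) (Real.sin φ) 0 0 * qmk (Real.cos φ) (Real.sin φ) 0 0 = s.1.1
  refine Quaternion.ext _ _ ?_ ?_ ?_ ?_
  · rw [← h1, Real.cos_two_mul', Quaternion.re_mul]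
    simp only [re_qmk, imI_qmk, imJ_qmk, imK_qmk]
    ring
  · rw [← h2, Real.sin_two_mul, Quaternion.imI_mul]
    simp only [re_qmk, imI_qmk, imJ_qmk, imK_qmk]
    ring
  · rw [(s.2 rfl).1, Quaternion.imJ_mul]
    simp only [re_qmk, imI_qmk, imJ_qmk, imK_qmk]
    ring
  · rw [(s.2 rfl).2, Quaternion.imK_mul]
    simp only [re_qmk, imI_qmk, imJ_qmk, imK_qmk]
    ring

theorem exists_bound (p : MvPolynomial (Fin 4) ℚ) :
    ∃ C : ℝ, ∀ s : G1 ℝ, |MvPolynomial.aeval s.coord p| ≤ C := by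
  have hc : IsCompact (Set.pi Set.univ fun _ : Fin 4 => Set.Icc (-1 : ℝ) 1) :=
    isCompact_univ_pi fun _ => isCompact_Icc
  have hcont : Continuous fun v : Fin 4 → ℝ => MvPolynomial.aeval v p := by
    have : (fun v : Fin 4 → ℝ => MvPolynomial.aeval v p) =
        fun v => MvPolynomial.eval v (MvPolynomial.map (algebraMap ℚ ℝ) p) := by
      funext v
      rw [MvPolynomial.eval_map, MvPolynomial.aeval_def]
    rw [this]
    exact MvPolynomial.continuous_eval _
  obtain ⟨C, hC⟩ := hc.exists_bound_of_continuousOn hcont.continuousOn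
  refine ⟨C, fun s => hC _ ?_⟩
  obtain ⟨h0, h1, h2, h3⟩ := real_coord_mem s
  intro i _
  fin_cases i
  · exact h0
  · exact h1
  · exact h2
  · exact h3

theorem isAnisotropic_torus {δ : ℍ[ℚ]} (hδ : δ ≠ 0) (k : ℕ) : (torus hδ k).IsAnisotropic := by
  intro χ hmul hχ
  -- the value at the universal point
  let tu : (torus hδ k).pts CR := ⟨theta hδ k CR univPt, ⟨univPt, rfl⟩⟩
  obtain ⟨p, hp⟩ := Ideal.Quotient.mk_surjective ((χ CR tu : CRˣ) : CR)
  have key : ∀ (R : Type) [CommRing R] [Algebra ℚ R] (s : Ssub R)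
      (t : (torus hδ k).pts R), (t : G R) = theta hδ k R s →
      ((χ R t : Rˣ) : R) = MvPolynomial.aeval s.1.coord p := by
    intro R _ _ s t ht
    have h1 : (t : G R) = G.map ((evPt s : CR →ₐ[ℚ] R) : CR →+* R) (tu : G CR) := by
      show (t : G R) = G.map ((evPt s : CR →ₐ[ℚ] R) : CR →+* R) (theta hδ k CR univPt)
      rw [map_theta, ht]
      congr 1
      exact Subtype.ext (map_univPt s).symm
    rw [hχ CR R ((evPt s : CR →ₐ[ℚ] R) : CR →+* R) tu t h1]
    show evPt s ((χ CR tu : CRˣ) : CR) = _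
    rw [← hp, evPt_mk]
  -- real points
  have hreal : ∀ s : Ssub ℝ, MvPolynomial.aeval s.1.coord p = 1 := by
    let F : Ssub ℝ →* ℝˣ :=
      (MonoidHom.mk' (fun t : (torus hδ k).pts ℝ => χ ℝ t) (hmul ℝ)).comp
        (theta hδ k ℝ).rangeRestrict
    have hF : ∀ s, ((F s : ℝˣ) : ℝ) = MvPolynomial.aeval s.1.coord p := fun s => key ℝ s _ rfl
    obtain ⟨C, hC⟩ := exists_bound p
    have h1 := abs_eq_one_of_bounded F C (fun s => by rw [hF]; exact hC _)
    intro s
    obtain ⟨r, rfl⟩ := exists_sq s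
    rw [← hF, map_mul, Units.val_mul]
    have h2 := h1 r
    rw [← abs_mul_abs_self, h2, one_mul]
  -- Zariski density
  have hrat : ∀ x : G1 ℚ, InC true x.1 → MvPolynomial.aeval x.coord (p - 1) = 0 := by
    intro x hx
    have h1 := hreal ⟨G1.map (algebraMap ℚ ℝ) x, InC.qmap _ hx⟩
    rw [← G1.hom_aeval_coord] at h1
    have h2 : (MvPolynomial.aeval x.coord p : ℚ) = 1 := by
      have h3 : ((MvPolynomial.aeval x.coord p : ℚ) : ℝ) = 1 := h1
      exact_mod_cast h3
    rw [map_sub, h2, map_one, sub_self]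
  intro R _ _ t
  obtain ⟨s, hs⟩ := t.2
  have h1 := zariski true (p - 1) hrat s.1 s.2
  rw [map_sub, map_one, sub_eq_zero] at h1
  apply Units.ext
  rw [key R s t hs.symm, h1, Units.val_one]

end Pool.Agent.Helper73.Tor
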