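import Pool.Agent.Helper73.Tor.Basic

open scoped Quaternion RestrictedProduct Topology
open MeasureTheory Topology

noncomputable section

namespace Pool.Agent.Helper73.Tor

/-- integral finite adeles -/
def Zhat : Subring FinAdele where
  carrier := {a | ∀ p : Pr, ‖a p‖ ≤ 1}
  mul_mem' {a b} ha hb p := by
    rw [RestrictedProduct.mul_apply, norm_mul]
    exact mul_le_one₀ (ha p) (norm_nonneg _) (hb p)
  one_mem' p := by rw [RestrictedProduct.one_apply]; simp
  add_mem' {a b} ha hb p := by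
    rw [RestrictedProduct.add_apply]
    exact (Padic.nonarchimedean _ _).trans (max_le (ha p) (hb p))
  zero_mem' p := by rw [RestrictedProduct.zero_apply]; simp
  neg_mem' {a} ha p := by
    rw [RestrictedProduct.neg_apply, norm_neg]; exact ha p

theorem mem_Zhat {a : FinAdele} : a ∈ Zhat ↔ ∀ p : Pr, ‖a p‖ ≤ 1 := Iff.rfl

@[simp] theorem algebraMap_finAdele_apply (q : ℚ) (p : Pr) :
    (algebraMap ℚ FinAdele q) p = (q : ℚ_[p]) := rfl

@[simp] theorem natCast_finAdele_apply (n : ℕ) (p : Pr) :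
    (n : FinAdele) p = (n : ℚ_[p]) := rfl

@[simp] theorem intCast_finAdele_apply (n : ℤ) (p : Pr) :
    (n : FinAdele) p = (n : ℚ_[p]) := rfl

theorem algebraMap_finAdele_injective : Function.Injective (algebraMap ℚ FinAdele) := by
  intro a b h
  obtain ⟨p, -⟩ : ∃ p : Pr, True := ⟨⟨2, Nat.prime_two⟩, trivial⟩
  have := congrArg (fun x : FinAdele => x p) h
  simp only [algebraMap_finAdele_apply] at this
  exact_mod_cast this

theorem exists_natCast_mul_mem (a : FinAdele) : ∃ m : ℕ, m ≠ 0 ∧ (m : FinAdele) * a ∈ Zhat := by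
  classical
  have hfin : {p : Pr | ¬ ‖a p‖ ≤ 1}.Finite := a.2
  have h1 : ∀ p : Pr, ∃ n : ℕ, ‖((p : ℕ) : ℚ_[p]) ^ n * a p‖ ≤ 1 := by
    intro p
    have hp : 1 < ((p : ℕ) : ℝ) := by exact_mod_cast p.2.one_lt
    obtain ⟨n, hn⟩ := pow_unbounded_of_one_lt ‖a p‖ hp
    refine ⟨n, ?_⟩
    rw [norm_mul, norm_pow, Padic.norm_p, inv_pow, inv_mul_le_iff₀ (by positivity), mul_one]
    exact hn.le
  choose n hn using h1
  refine ⟨∏ p ∈ hfin.toFinset, (p : ℕ) ^ n p, ?_, ?_⟩
  · exact Finset.prod_ne_zero_iff.2 fun p _ => pow_ne_zero _ p.2.ne_zero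
  · intro p
    rw [RestrictedProduct.mul_apply, natCast_finAdele_apply]
    by_cases hp : p ∈ hfin.toFinset
    · rw [← Finset.prod_erase_mul _ _ hp]
      push_cast
      rw [mul_assoc, norm_mul]
      refine mul_le_one₀ ?_ (norm_nonneg _) (hn p)
      have := Padic.norm_int_le_one (p := p)
        ((∏ q ∈ hfin.toFinset.erase p, (q : ℕ) ^ n q : ℕ) : ℤ)
      push_cast at this
      exact this
    · rw [norm_mul]
      refine mul_le_one₀ ?_ (norm_nonneg _) ?_
      · have := Padic.norm_int_le_one (p := p)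
          ((∏ q ∈ hfin.toFinset, (q : ℕ) ^ n q : ℕ) : ℤ)
        push_cast at this ⊢
        exact this
      · rw [Set.Finite.mem_toFinset, Set.mem_ofPred_eq, not_not] at hp
        exact hp

theorem exists_int_sub_mem {a : FinAdele} (ha : a ∈ Zhat) {M : ℕ} (hM : M ≠ 0) :
    ∃ z : ℤ, algebraMap ℚ FinAdele ((M : ℚ)⁻¹) * (a - z) ∈ Zhat := by
  classical
  let x : ∀ p : Pr, ℤ_[p] := fun p => ⟨a p, ha p⟩
  let g : Pr → ℕ := fun p => (x p).appr (M.factorization p)
  let f : ℕ → ℕ := fun p => if hp : p.Prime then g ⟨p, hp⟩ else 0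
  obtain ⟨k, hk⟩ := Nat.chineseRemainderOfFinset f (fun p => p ^ M.factorization p) M.primeFactors
    (fun p hp => pow_ne_zero _ (Nat.prime_of_mem_primeFactors hp).ne_zero)
    (fun p hp q hq hpq => Nat.Coprime.pow _ _
      ((Nat.coprime_primes (Nat.prime_of_mem_primeFactors hp)
        (Nat.prime_of_mem_primeFactors hq)).2 hpq))
  refine ⟨k, fun p => ?_⟩
  rw [RestrictedProduct.mul_apply, RestrictedProduct.sub_apply, algebraMap_finAdele_apply,
    intCast_finAdele_apply]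
  have hM' : (M : ℚ_[p]) ≠ 0 := by exact_mod_cast hM
  push_cast
  rw [norm_mul, norm_inv, inv_mul_le_iff₀ (by positivity), mul_one]
  by_cases hp : (p : ℕ) ∈ M.primeFactors
  · have h1 := hk p hp
    have h2 : f p = (x p).appr (M.factorization p) := by
      simp only [f, p.2, dif_pos]
      rfl
    have h3 : ‖x p - ((x p).appr (M.factorization p) : ℤ_[p])‖ ≤
        ((p : ℕ) : ℝ) ^ (-(M.factorization p : ℤ)) := by
      rw [PadicInt.norm_le_pow_iff_mem_span_pow]
      exact PadicInt.appr_spec _ _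
    have h4 : ‖((k : ℤ) - (f p : ℤ) : ℚ_[p])‖ ≤ ((p : ℕ) : ℝ) ^ (-(M.factorization p : ℤ)) := by
      have := (Padic.norm_int_le_pow_iff_dvd (p := p) ((k : ℤ) - (f p : ℤ))
        (M.factorization p)).2 (by
          have := (Nat.modEq_iff_dvd.1 h1.symm)
          exact_mod_cast this)
      exact_mod_cast this
    have h5 : ‖(M : ℚ_[p])‖ = ((p : ℕ) : ℝ) ^ (-(M.factorization p : ℤ)) := by
      rw [Padic.norm_eq_zpow_neg_valuation hM', Padic.valuation_natCast, Nat.factorization_def _ p.2]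
    rw [h5]
    have h6 : a p - (k : ℚ_[p]) = (a p - ((x p).appr (M.factorization p) : ℚ_[p])) +
        -((k : ℤ) - (f p : ℤ) : ℚ_[p]) := by
      rw [h2]; push_cast; ring
    rw [h6]
    refine (Padic.nonarchimedean _ _).trans (max_le ?_ ?_)
    · rw [PadicInt.norm_def] at h3
      push_cast at h3
      exact h3
    · rw [norm_neg]; exact h4
  · have h1 : ‖(M : ℚ_[p])‖ = 1 := by
      rw [Padic.norm_natCast_eq_one_iff]
      rw [Nat.mem_primeFactors] at hp
      exact (Nat.Prime.coprime_iff_not_dvd p.2).2 fun h => hp ⟨p.2, h, hM⟩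
    rw [h1]
    have h2 : ‖(k : ℚ_[p])‖ ≤ 1 := by
      have := Padic.norm_int_le_one (p := p) (k : ℤ)
      exact_mod_cast this
    rw [sub_eq_add_neg]
    exact (Padic.nonarchimedean _ _).trans (max_le (ha p) (by rw [norm_neg]; exact h2))

theorem int_of_mem_Zhat {q : ℚ} (h : algebraMap ℚ FinAdele q ∈ Zhat) : ∃ z : ℤ, q = z := by
  have hden : q.den = 1 := by
    by_contra hne
    obtain ⟨p, hdvd⟩ : ∃ p : Pr, (p : ℕ) ∣ q.den := by
      obtain ⟨p, hp, hdvd⟩ := Nat.exists_prime_and_dvd hne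
      exact ⟨⟨p, hp⟩, hdvd⟩
    have hp := p.2
    have h1 := h p
    rw [algebraMap_finAdele_apply] at h1
    have h2 : ¬ ((p : ℕ) : ℤ) ∣ q.num := by
      intro h3
      have h4 : (p : ℕ) ∣ q.num.natAbs := Int.natCast_dvd.1 h3
      have h5 := Nat.dvd_gcd h4 hdvd
      rw [q.reduced] at h5
      exact hp.one_lt.ne' (Nat.dvd_one.1 h5)
    have h3 : ‖((q.num : ℤ) : ℚ_[p])‖ = 1 := by
      rw [Padic.norm_intCast_eq_one_iff]
      exact ((Nat.prime_iff_prime_int.1 hp).coprime_iff_not_dvd.2 h2).symm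
    have h4 : ‖((q.den : ℕ) : ℚ_[p])‖ < 1 := Padic.norm_natCast_lt_one_iff.2 hdvd
    have h5 : (q : ℚ_[p]) * (q.den : ℚ_[p]) = (q.num : ℚ_[p]) := by
      have := Rat.mul_den_eq_num q
      exact_mod_cast congrArg (fun x : ℚ => (x : ℚ_[p])) this
    have h6 := congrArg norm h5
    rw [norm_mul, h3] at h6
    have h7 : ‖(q : ℚ_[p])‖ ≤ 1 := h1
    nlinarith [norm_nonneg (q : ℚ_[p]), norm_nonneg ((q.den : ℕ) : ℚ_[p])]
  exact ⟨q.num, (Rat.coe_int_num_of_den_eq_one hden).symm⟩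

theorem intCast_mem_Zhat (z : ℤ) : algebraMap ℚ FinAdele z ∈ Zhat := by
  intro p
  rw [algebraMap_finAdele_apply]
  push_cast
  exact Padic.norm_int_le_one z

/-- density of `ℚ` in the finite adeles -/
theorem exists_rat_sub_mem (a : FinAdele) {M : ℕ} (hM : M ≠ 0) :
    ∃ q : ℚ, (a = 0 → q = 0) ∧
      algebraMap ℚ FinAdele ((M : ℚ)⁻¹) * (a - algebraMap ℚ FinAdele q) ∈ Zhat := by
  by_cases h0 : a = 0
  · subst h0
    refine ⟨0, fun _ => rfl, ?_⟩
    rw [map_zero, sub_zero, mul_zero]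
    exact Zhat.zero_mem
  obtain ⟨m, hm, ham⟩ := exists_natCast_mul_mem a
  obtain ⟨z, hz⟩ := exists_int_sub_mem ham (mul_ne_zero hm hM)
  refine ⟨(z : ℚ) / m, fun h => absurd h h0, ?_⟩
  convert hz using 1
  have hm' : (m : ℚ) ≠ 0 := by exact_mod_cast hm
  have h1 : algebraMap ℚ FinAdele (((m * M : ℕ) : ℚ)⁻¹) * (m : FinAdele) =
      algebraMap ℚ FinAdele ((M : ℚ)⁻¹) := by
    rw [← map_natCast (algebraMap ℚ FinAdele) m, ← map_mul]
    congr 1
    push_cast
    field_simp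
  have h2 : (z : FinAdele) = (m : FinAdele) * algebraMap ℚ FinAdele ((z : ℚ) / m) := by
    rw [← map_natCast (algebraMap ℚ FinAdele) m, ← map_mul, mul_div_cancel₀ _ hm',
      map_intCast]
  rw [h2, ← h1]
  ring

end Pool.Agent.Helper73.Tor
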