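import Pool.Agent.Helper73.Tor.Alt

open scoped Quaternion RestrictedProduct Topology
open MeasureTheory Topology

noncomputable section

namespace Pool.Agent.Helper73.Tor

/-- the quaternion `i` -/
def qI : ℍ[ℚ] := qmk 0 1 0 0

/-- the quaternion `ε i ε⁻¹` -/
def ax (ε : ℍ[ℚ]) : ℍ[ℚ] := ε * qI * ε⁻¹

theorem ax_re {ε : ℍ[ℚ]} (hε : ε ≠ 0) : (ax ε).re = 0 := by
  have h : ε⁻¹ = (Quaternion.normSq ε)⁻¹ • star ε := rfl
  have h0 : Quaternion.normSq ε ≠ 0 := Quaternion.normSq_ne_zero.2 hε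
  unfold ax
  rw [h, mul_smul_comm, Quaternion.re_smul]
  have : (ε * qI * star ε).re = 0 := by
    simp [qI]
    ring
  rw [this, smul_zero]

theorem normSq_ax {ε : ℍ[ℚ]} (hε : ε ≠ 0) : Quaternion.normSq (ax ε) = 1 := by
  unfold ax
  have h0 : Quaternion.normSq ε ≠ 0 := Quaternion.normSq_ne_zero.2 hε
  rw [map_mul, map_mul, map_inv₀]
  have : Quaternion.normSq qI = 1 := by
    rw [Quaternion.normSq_def']
    simp [qI]
  rw [this, mul_one, mul_inv_cancel₀ h0]

theorem PU_ax {ε : ℍ[ℚ]} (hε : ε ≠ 0) : PU (qR ℝ (ax ε)) := by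
  have h1 := ax_re hε
  have h2 := normSq_ax hε
  rw [Quaternion.normSq_def', h1] at h2
  constructor
  · rw [re_qmap, h1, map_zero]
  · rw [imI_qmap, imJ_qmap, imK_qmap, ← map_pow, ← map_pow, ← map_pow, ← map_add, ← map_add]
    have : (ax ε).imI ^ 2 + (ax ε).imJ ^ 2 + (ax ε).imK ^ 2 = 1 := by linear_combination h2
    rw [this, map_one]

theorem ip_sq_le {x y : ℍ[ℝ]} (hx : PU x) (hy : PU y) : ip x y ^ 2 ≤ 1 := by
  have h : ip x y ^ 2 + (x.imI * y.imJ - x.imJ * y.imI) ^ 2 +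
      (x.imI * y.imK - x.imK * y.imI) ^ 2 + (x.imJ * y.imK - x.imK * y.imJ) ^ 2 =
      (x.imI ^ 2 + x.imJ ^ 2 + x.imK ^ 2) * (y.imI ^ 2 + y.imJ ^ 2 + y.imK ^ 2) := by
    unfold ip; ring
  rw [hx.2, hy.2] at h
  nlinarith [sq_nonneg (x.imI * y.imJ - x.imJ * y.imI), sq_nonneg (x.imI * y.imK - x.imK * y.imI),
    sq_nonneg (x.imJ * y.imK - x.imK * y.imJ)]

/-- A product of two different primes `≡ 3` modulo `4` is not a sum of two rational squares. -/
theorem not_sum_sq {q q' : ℕ} (hq : q.Prime) (hq' : q'.Prime) (h3 : q % 4 = 3) (hne : q ≠ q')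
    (x y : ℚ) : x ^ 2 + y ^ 2 ≠ (q * q' : ℚ) := by
  intro h
  have hx : (x.num : ℚ) = x * x.den := by
    have := Rat.num_div_den x
    field_simp at this ⊢
    linarith [Rat.mul_den_eq_num x]
  have hy : (y.num : ℚ) = y * y.den := by
    linarith [Rat.mul_den_eq_num y]
  set d : ℕ := x.den * y.den with hd
  have hd0 : d ≠ 0 := mul_ne_zero x.den_nz y.den_nz
  have h1 : (q * q' * d ^ 2 : ℕ) = (x.num.natAbs * y.den) ^ 2 + (y.num.natAbs * x.den) ^ 2 := by
    have : ((q * q' * d ^ 2 : ℕ) : ℤ) = (x.num * y.den) ^ 2 + (y.num * x.den) ^ 2 := by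
      have : (((q * q' * d ^ 2 : ℕ) : ℤ) : ℚ) = (((x.num * y.den) ^ 2 + (y.num * x.den) ^ 2 : ℤ) : ℚ) := by
        push_cast
        rw [hx, hy, ← h, hd]
        push_cast
        ring
      exact_mod_cast this
    have h7 : (((x.num.natAbs * y.den) ^ 2 + (y.num.natAbs * x.den) ^ 2 : ℕ) : ℤ) =
        (x.num * y.den) ^ 2 + (y.num * x.den) ^ 2 := by
      push_cast
      rw [mul_pow, mul_pow, sq_abs, sq_abs]
      ring
    rw [← h7] at this
    exact_mod_cast this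
  have h2 := Nat.eq_sq_add_sq_iff.1 ⟨_, _, h1⟩ q (by
    rw [Nat.mem_primeFactors]
    refine ⟨hq, ?_, ?_⟩
    · rw [mul_assoc]; exact dvd_mul_right _ _
    · exact mul_ne_zero (mul_ne_zero hq.ne_zero hq'.ne_zero) (pow_ne_zero _ hd0)) h3
  have : Fact q.Prime := ⟨hq⟩
  have : Fact q'.Prime := ⟨hq'⟩
  rw [padicValNat.mul (mul_ne_zero hq.ne_zero hq'.ne_zero) (pow_ne_zero _ hd0),
    padicValNat.mul hq.ne_zero hq'.ne_zero, padicValNat_self, padicValNat_primes hne,
    padicValNat.pow] at h2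
  rw [Nat.even_iff] at h2
  omega

/-- The axes of different tori are different. -/
theorem ip_ax_lt {ε ε' : ℍ[ℚ]} (hε : ε ≠ 0) (hε' : ε' ≠ 0) {q q' : ℕ} (hq : q.Prime)
    (hq' : q'.Prime) (h3 : q % 4 = 3) (hne : q ≠ q') (hN : Quaternion.normSq ε = q)
    (hN' : Quaternion.normSq ε' = q') : ip (qR ℝ (ax ε)) (qR ℝ (ax ε')) ^ 2 < 1 := by
  refine lt_of_le_of_ne (ip_sq_le (PU_ax hε) (PU_ax hε')) fun h => ?_
  obtain ⟨h1, h2, h3'⟩ := eq_smul_of_ip (PU_ax hε) (PU_ax hε') h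
  have hr : (ax ε').re = 0 := ax_re hε'
  have hr' : (ax ε).re = 0 := ax_re hε
  -- `ε'' = ε⁻¹ ε'`
  set ε'' := ε⁻¹ * ε' with hε''
  have hn : Quaternion.normSq ε'' = (q : ℚ)⁻¹ * q' := by
    rw [hε'', map_mul, map_inv₀, hN, hN']
  have hq0 : (q : ℚ) ≠ 0 := Nat.cast_ne_zero.2 hq.ne_zero
  have hcases : ax ε' = ax ε ∨ ax ε' = -ax ε := by
    have h4 : ip (qR ℝ (ax ε)) (qR ℝ (ax ε')) * ip (qR ℝ (ax ε)) (qR ℝ (ax ε')) = 1 := by
      rw [← sq]; exact h
    rcases mul_self_eq_one_iff.1 h4 with h0 | h0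
    · left
      rw [h0] at h1 h2 h3'
      simp only [one_mul] at h1 h2 h3'
      refine Quaternion.ext _ _ (hr.trans hr'.symm) ?_ ?_ ?_
      · exact (algebraMap ℚ ℝ).injective h1
      · exact (algebraMap ℚ ℝ).injective h2
      · exact (algebraMap ℚ ℝ).injective h3'
    · right
      rw [h0] at h1 h2 h3'
      simp only [neg_mul, one_mul] at h1 h2 h3'
      refine Quaternion.ext _ _ ?_ ?_ ?_ ?_
      · rw [hr, Quaternion.re_neg, hr', neg_zero]
      · rw [Quaternion.imI_neg]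
        apply (algebraMap ℚ ℝ).injective
        rw [map_neg]; exact h1
      · rw [Quaternion.imJ_neg]
        apply (algebraMap ℚ ℝ).injective
        rw [map_neg]; exact h2
      · rw [Quaternion.imK_neg]
        apply (algebraMap ℚ ℝ).injective
        rw [map_neg]; exact h3'
  have hsq : ∃ x y : ℚ, Quaternion.normSq ε'' = x ^ 2 + y ^ 2 := by
    rcases hcases with h0 | h0
    · have hc : ε'' * qI = qI * ε'' := by
        have : ε * (ε'' * qI) * ε'⁻¹ = ε * (qI * ε'') * ε'⁻¹ := by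
          rw [hε'']
          have e1 : ε * (ε⁻¹ * ε' * qI) * ε'⁻¹ = ε * ε⁻¹ * (ε' * qI * ε'⁻¹) := by
            simp only [mul_assoc]
          have e2 : ε * (qI * (ε⁻¹ * ε')) * ε'⁻¹ = ε * qI * ε⁻¹ * (ε' * ε'⁻¹) := by
            simp only [mul_assoc]
          rw [e1, e2, mul_inv_cancel₀ hε, mul_inv_cancel₀ hε', one_mul, mul_one]
          exact h0
        have h5 := mul_right_cancel₀ (inv_ne_zero hε') this
        exact mul_left_cancel₀ hε h5
      have hJ := congrArg QuaternionAlgebra.imJ hc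
      have hK := congrArg QuaternionAlgebra.imK hc
      simp [qI] at hJ hK
      have e1 : ε''.imK = 0 := by linarith
      have e2 : ε''.imJ = 0 := by linarith
      refine ⟨ε''.re, ε''.imI, ?_⟩
      rw [Quaternion.normSq_def', e1, e2]
      ring
    · have hc : ε'' * qI = -(qI * ε'') := by
        have : ε * (ε'' * qI) * ε'⁻¹ = ε * (-(qI * ε'')) * ε'⁻¹ := by
          rw [hε'']
          have e1 : ε * (ε⁻¹ * ε' * qI) * ε'⁻¹ = ε * ε⁻¹ * (ε' * qI * ε'⁻¹) := by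
            simp only [mul_assoc]
          have e2 : ε * (-(qI * (ε⁻¹ * ε'))) * ε'⁻¹ = -(ε * qI * ε⁻¹ * (ε' * ε'⁻¹)) := by
            simp only [mul_assoc, mul_neg, neg_mul]
          rw [e1, e2, mul_inv_cancel₀ hε, mul_inv_cancel₀ hε', one_mul, mul_one]
          exact h0
        have h5 := mul_right_cancel₀ (inv_ne_zero hε') this
        exact mul_left_cancel₀ hε h5
      have hI := congrArg QuaternionAlgebra.imI hc
      have hR := congrArg QuaternionAlgebra.re hc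
      simp [qI] at hI hR
      have e1 : ε''.re = 0 := by linarith
      have e2 : ε''.imI = 0 := by linarith
      refine ⟨ε''.imJ, ε''.imK, ?_⟩
      rw [Quaternion.normSq_def', e1, e2]
      ring
  obtain ⟨x, y, hxy⟩ := hsq
  refine not_sum_sq hq hq' h3 hne (q * x) (q * y) ?_
  rw [hn] at hxy
  have : (q * x : ℚ) ^ 2 + (q * y) ^ 2 = q ^ 2 * (x ^ 2 + y ^ 2) := by ring
  rw [this, ← hxy]
  field_simp

end Pool.Agent.Helper73.Tor
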