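import Pool.Agent.Helper73.Tor.Defs

open scoped Quaternion RestrictedProduct Topology
open MeasureTheory Topology

noncomputable section

namespace Pool.Agent.Helper73.Tor

section
variable {R S : Type} [CommRing R] [CommRing S]

theorem G1.ext {x y : G1 R} (h : x.1 = y.1) : x = y := Subtype.ext h

@[simp] theorem G1.val_mul (x y : G1 R) : (x * y).1 = x.1 * y.1 := rfl
@[simp] theorem G1.val_one : (1 : G1 R).1 = 1 := rfl
@[simp] theorem G1.val_inv (x : G1 R) : (x⁻¹).1 = star x.1 := rfl
theorem G1.val_pow (x : G1 R) (n : ℕ) : (x ^ n).1 = x.1 ^ n := by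
  induction n with
  | zero => simp
  | succ n ih => rw [pow_succ, pow_succ, G1.val_mul, ih]

@[simp] theorem G1.val_map (f : R →+* S) (x : G1 R) : (G1.map f x).1 = qmap f x.1 := rfl

theorem mem_unitary_iff (x : ℍ[R]) : x ∈ unitary ℍ[R] ↔ Quaternion.normSq x = 1 := by
  rw [Unitary.mem_iff, Quaternion.star_mul_self, Quaternion.self_mul_star, and_self,
    ← Quaternion.coe_one, Quaternion.coe_inj]

theorem G1.normSq (x : G1 R) : Quaternion.normSq x.1 = 1 := (mem_unitary_iff _).1 x.2

/-- constructor -/
def G1.of (x : ℍ[R]) (h : Quaternion.normSq x = 1) : G1 R := ⟨x, (mem_unitary_iff x).2 h⟩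

@[simp] theorem G1.val_of (x : ℍ[R]) (h : Quaternion.normSq x = 1) : (G1.of x h).1 = x := rfl

theorem G1.coord_injective : Function.Injective (G1.coord : G1 R → Fin 4 → R) := by
  intro x y h
  apply G1.ext
  have h0 := congrFun h 0
  have h1 := congrFun h 1
  have h2 := congrFun h 2
  have h3 := congrFun h 3
  simp [G1.coord] at h0 h1 h2 h3
  exact Quaternion.ext _ _ h0 h1 h2 h3

theorem G1.map_injective {f : R →+* S} (hf : Function.Injective f) :
    Function.Injective (G1.map f) := by
  intro x y h
  have h' := congrArg (fun z : G1 S => z.1) h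
  simp only [G1.val_map] at h'
  apply G1.ext
  have h0 := congrArg QuaternionAlgebra.re h'
  have h1 := congrArg QuaternionAlgebra.imI h'
  have h2 := congrArg QuaternionAlgebra.imJ h'
  have h3 := congrArg QuaternionAlgebra.imK h'
  simp only [re_qmap, imI_qmap, imJ_qmap, imK_qmap] at h0 h1 h2 h3
  exact Quaternion.ext _ _ (hf h0) (hf h1) (hf h2) (hf h3)

theorem qmap_comp {T : Type} [CommRing T] (g : S →+* T) (f : R →+* S) (x : ℍ[R]) :
    qmap g (qmap f x) = qmap (g.comp f) x := rfl

theorem G1.map_comp {T : Type} [CommRing T] (g : S →+* T) (f : R →+* S) (x : G1 R) :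
    G1.map g (G1.map f x) = G1.map (g.comp f) x := rfl

theorem G.map_comp {T : Type} [CommRing T] (g : S →+* T) (f : R →+* S) (x : G R) :
    G.map g (G.map f x) = G.map (g.comp f) x := rfl

theorem qmap_id (x : ℍ[R]) : qmap (RingHom.id R) x = x := rfl

theorem G1.map_id (x : G1 R) : G1.map (RingHom.id R) x = x := rfl
theorem G.map_id (x : G R) : G.map (RingHom.id R) x = x := rfl

theorem G.map_injective {f : R →+* S} (hf : Function.Injective f) :
    Function.Injective (G.map f) := by
  rintro ⟨x, y⟩ ⟨x', y'⟩ h
  have h1 := congrArg Prod.fst h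
  have h2 := congrArg Prod.snd h
  exact Prod.ext (G1.map_injective hf h1) (G1.map_injective hf h2)

@[simp] theorem G.map_fst (f : R →+* S) (x : G R) : (G.map f x).1 = G1.map f x.1 := rfl
@[simp] theorem G.map_snd (f : R →+* S) (x : G R) : (G.map f x).2 = G1.map f x.2 := rfl

/-- pairing -/
def qpair (x : ℍ[R]) (y : ℍ[S]) : ℍ[R × S] :=
  qmk (x.re, y.re) (x.imI, y.imI) (x.imJ, y.imJ) (x.imK, y.imK)

theorem normSq_qpair (x : ℍ[R]) (y : ℍ[S]) :
    Quaternion.normSq (qpair x y) = (Quaternion.normSq x, Quaternion.normSq y) := by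
  simp only [Quaternion.normSq_def', qpair, re_qmk, imI_qmk, imJ_qmk, imK_qmk]
  rfl

def G1.pair (x : G1 R) (y : G1 S) : G1 (R × S) :=
  G1.of (qpair x.1 y.1) (by rw [normSq_qpair, G1.normSq, G1.normSq]; rfl)

@[simp] theorem G1.map_fst_pair (x : G1 R) (y : G1 S) :
    G1.map (RingHom.fst R S) (G1.pair x y) = x := rfl

@[simp] theorem G1.map_snd_pair (x : G1 R) (y : G1 S) :
    G1.map (RingHom.snd R S) (G1.pair x y) = y := rfl

theorem G1.pair_map (x : G1 (R × S)) :
    G1.pair (G1.map (RingHom.fst R S) x) (G1.map (RingHom.snd R S) x) = x := rfl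

theorem G1.pair_mul (x x' : G1 R) (y y' : G1 S) :
    G1.pair (x * x') (y * y') = G1.pair x y * G1.pair x' y' := by
  rw [← G1.pair_map (G1.pair x y * G1.pair x' y')]
  simp only [map_mul, G1.map_fst_pair, G1.map_snd_pair]

end

section top
variable {R S : Type} [CommRing R] [TopologicalSpace R] [CommRing S] [TopologicalSpace S]

theorem G1.isEmbedding_coord : IsEmbedding (G1.coord : G1 R → Fin 4 → R) :=
  ⟨⟨rfl⟩, G1.coord_injective⟩

theorem G1.continuous_coord : Continuous (G1.coord : G1 R → Fin 4 → R) :=
  G1.isEmbedding_coord.continuous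

theorem G1.continuous_re : Continuous (fun x : G1 R => x.1.re) :=
  (continuous_apply 0).comp G1.continuous_coord
theorem G1.continuous_imI : Continuous (fun x : G1 R => x.1.imI) :=
  (continuous_apply 1).comp G1.continuous_coord
theorem G1.continuous_imJ : Continuous (fun x : G1 R => x.1.imJ) :=
  (continuous_apply 2).comp G1.continuous_coord
theorem G1.continuous_imK : Continuous (fun x : G1 R => x.1.imK) :=
  (continuous_apply 3).comp G1.continuous_coord

theorem G1.continuous_rng {Y : Type*} [TopologicalSpace Y] {f : Y → G1 R}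
    (h0 : Continuous fun y => (f y).1.re) (h1 : Continuous fun y => (f y).1.imI)
    (h2 : Continuous fun y => (f y).1.imJ) (h3 : Continuous fun y => (f y).1.imK) :
    Continuous f := by
  rw [G1.isEmbedding_coord.continuous_iff]
  refine continuous_pi fun i => ?_
  fin_cases i
  · exact h0
  · exact h1
  · exact h2
  · exact h3

instance [IsTopologicalRing R] : IsTopologicalGroup (G1 R) where
  continuous_mul := by
    have a0 := (G1.continuous_re (R := R)).comp (continuous_fst (Y := G1 R))
    have a1 := (G1.continuous_imI (R := R)).comp (continuous_fst (Y := G1 R))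
    have a2 := (G1.continuous_imJ (R := R)).comp (continuous_fst (Y := G1 R))
    have a3 := (G1.continuous_imK (R := R)).comp (continuous_fst (Y := G1 R))
    have b0 := (G1.continuous_re (R := R)).comp (continuous_snd (X := G1 R))
    have b1 := (G1.continuous_imI (R := R)).comp (continuous_snd (X := G1 R))
    have b2 := (G1.continuous_imJ (R := R)).comp (continuous_snd (X := G1 R))
    have b3 := (G1.continuous_imK (R := R)).comp (continuous_snd (X := G1 R))
    apply G1.continuous_rng
    · simp only [G1.val_mul, Quaternion.re_mul]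
      exact (((a0.mul b0).sub (a1.mul b1)).sub (a2.mul b2)).sub (a3.mul b3)
    · simp only [G1.val_mul, Quaternion.imI_mul]
      exact (((a0.mul b1).add (a1.mul b0)).add (a2.mul b3)).sub (a3.mul b2)
    · simp only [G1.val_mul, Quaternion.imJ_mul]
      exact (((a0.mul b2).sub (a1.mul b3)).add (a2.mul b0)).add (a3.mul b1)
    · simp only [G1.val_mul, Quaternion.imK_mul]
      exact (((a0.mul b3).add (a1.mul b2)).sub (a2.mul b1)).add (a3.mul b0)
  continuous_inv := by
    apply G1.continuous_rng
    · simpa using G1.continuous_re (R := R)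
    · exact (G1.continuous_imI (R := R)).neg
    · exact (G1.continuous_imJ (R := R)).neg
    · exact (G1.continuous_imK (R := R)).neg

theorem G1.continuous_map {f : R →+* S} (hf : Continuous f) : Continuous (G1.map f) := by
  apply G1.continuous_rng
  · exact hf.comp G1.continuous_re
  · exact hf.comp G1.continuous_imI
  · exact hf.comp G1.continuous_imJ
  · exact hf.comp G1.continuous_imK

theorem G.continuous_map {f : R →+* S} (hf : Continuous f) : Continuous (G.map f) :=
  (G1.continuous_map hf).prodMap (G1.continuous_map hf)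

instance [T2Space R] : T2Space (G1 R) := G1.isEmbedding_coord.t2Space

omit [TopologicalSpace R] in
theorem G1.range_coord : Set.range (G1.coord : G1 R → Fin 4 → R) =
    {v | v 0 ^ 2 + v 1 ^ 2 + v 2 ^ 2 + v 3 ^ 2 = 1} := by
  ext v
  constructor
  · rintro ⟨x, rfl⟩
    have := G1.normSq x
    rw [Quaternion.normSq_def'] at this
    exact this
  · intro h
    refine ⟨G1.of (qmk (v 0) (v 1) (v 2) (v 3)) (by rw [Quaternion.normSq_def']; exact h), ?_⟩
    funext i
    fin_cases i <;> rfl

theorem G1.isClosedEmbedding_coord [IsTopologicalRing R] [T2Space R] :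
    IsClosedEmbedding (G1.coord : G1 R → Fin 4 → R) := by
  refine ⟨G1.isEmbedding_coord, ?_⟩
  rw [G1.range_coord]
  exact isClosed_eq (by fun_prop) continuous_const

theorem G1.continuous_pair : Continuous (fun x : G1 R × G1 S => G1.pair x.1 x.2) := by
  apply G1.continuous_rng
  · exact (G1.continuous_re.comp continuous_fst).prodMk (G1.continuous_re.comp continuous_snd)
  · exact (G1.continuous_imI.comp continuous_fst).prodMk (G1.continuous_imI.comp continuous_snd)
  · exact (G1.continuous_imJ.comp continuous_fst).prodMk (G1.continuous_imJ.comp continuous_snd)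
  · exact (G1.continuous_imK.comp continuous_fst).prodMk (G1.continuous_imK.comp continuous_snd)

end top

end Pool.Agent.Helper73.Tor
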