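import Pool.Agent.Helper73.Tor.Euclid

open scoped Quaternion RestrictedProduct Topology
open MeasureTheory Topology

noncomputable section

namespace Pool.Agent.Helper73.Tor

theorem InC.inv {b : Bool} {x : ℍ[ℚ]} (hx : InC b x) : InC b x⁻¹ := by
  intro h
  obtain ⟨h1, h2⟩ := hx h
  rw [show x⁻¹ = (Quaternion.normSq x)⁻¹ • Star.star x from rfl]
  simp [h1, h2]

theorem IsInt.two_mul {q : ℍ[ℚ]} (h : IsInt q) : IsInt (2 * q) := by
  obtain ⟨a, b, c, d, rfl⟩ := h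
  refine ⟨2 * a, 2 * b, 2 * c, 2 * d, ?_⟩
  rw [_root_.two_mul]
  ext <;> simp <;> ring

theorem exists_delta (b : Bool) {n : ℕ} (hn : n ∣ 4) :
    ∃ δ : ℍ[ℚ], InC b δ ∧ IsInt δ ∧ Quaternion.normSq δ = n := by
  have h4 : n ∈ Nat.divisors 4 := by simp [hn]
  have h5 : Nat.divisors 4 = {1, 2, 4} := by decide
  rw [h5] at h4
  simp only [Finset.mem_insert, Finset.mem_singleton] at h4
  rcases h4 with rfl | rfl | rfl
  · exact ⟨qmk 1 0 0 0, fun _ => ⟨rfl, rfl⟩, ⟨1, 0, 0, 0, by simp⟩, by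
      simp [Quaternion.normSq_def']⟩
  · exact ⟨qmk 1 1 0 0, fun _ => ⟨rfl, rfl⟩, ⟨1, 1, 0, 0, by simp⟩, by
      simp [Quaternion.normSq_def']; norm_num⟩
  · exact ⟨qmk 2 0 0 0, fun _ => ⟨rfl, rfl⟩, ⟨2, 0, 0, 0, by simp⟩, by
      simp [Quaternion.normSq_def']; norm_num⟩

theorem exists_gamma {b : Bool} (x : G1 FinAdele) (hx : InC b x.1) :
    ∃ γ : G1 ℚ, InC b γ.1 ∧ 2 * (star (qι γ.1) * x.1) ∈ QSub Zhat := by
  classical
  set L : Set ℍ[ℚ] := {α | InC b α ∧ star x.1 * qι α ∈ QSub Zhat} with hL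
  have hns : Quaternion.normSq (star x.1) = 1 := by rw [Quaternion.normSq_star, G1.normSq]
  have hnat : ∀ α ∈ L, ∃ n : ℕ, Quaternion.normSq α = n := by
    rintro α ⟨-, h⟩
    have h1 := normSq_mem_of_QSub h
    rw [map_mul, hns, one_mul, normSq_qmap] at h1
    obtain ⟨z, hz⟩ := int_of_mem_Zhat h1
    have h2 : (0 : ℚ) ≤ z := by rw [← hz]; exact Quaternion.normSq_nonneg
    have h3 : 0 ≤ z := by exact_mod_cast h2
    obtain ⟨n, rfl⟩ := Int.eq_ofNat_of_zero_le h3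
    exact ⟨n, by rw [hz]; simp⟩
  have hex : ∃ n : ℕ, ∃ α ∈ L, α ≠ 0 ∧ Quaternion.normSq α = n := by
    obtain ⟨m, hm, h⟩ := exists_natCast_mul_mem_QSub (star x.1)
    have h1 : ((m : ℕ) : ℍ[ℚ]) ∈ L := by
      refine ⟨fun _ => ⟨rfl, rfl⟩, ?_⟩
      rw [map_natCast, ← Nat.cast_comm]
      exact h
    obtain ⟨n, hn⟩ := hnat _ h1
    refine ⟨n, _, h1, fun h0 => hm ?_, hn⟩
    have h2 := congrArg QuaternionAlgebra.re h0
    rw [Quaternion.re_natCast] at h2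
    exact_mod_cast h2
  obtain ⟨α, hαL, hα0, hαn⟩ := Nat.find_spec hex
  have hmin : ∀ β ∈ L, β ≠ 0 → Quaternion.normSq α ≤ Quaternion.normSq β := by
    intro β hβ hβ0
    obtain ⟨m, hm⟩ := hnat β hβ
    rw [hαn, hm]
    exact_mod_cast Nat.find_min' hex ⟨β, hβ, hβ0, hm⟩
  set n := Nat.find hex with hn
  have key : ∀ β ∈ L, ∃ q' : ℍ[ℚ], InC b q' ∧ IsInt q' ∧ 2 * β = α * q' := by
    intro β hβ
    obtain ⟨q, hq1, hq2, h⟩ := exists_round (α⁻¹ * β) (hαL.1.inv.mul hβ.1)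
    rcases h with h | ⟨q', h1, h2, h3⟩
    · have h1 : β - α * q ∈ L := by
        refine ⟨hβ.1.sub (hαL.1.mul hq1), ?_⟩
        rw [map_sub, map_mul, mul_sub, ← mul_assoc]
        exact (QSub Zhat).sub_mem hβ.2 ((QSub Zhat).mul_mem hαL.2 hq2.mem)
      have h2 : β - α * q = 0 := by
        by_contra h3
        have h4 := hmin _ h1 h3
        have h5 : β - α * q = α * (α⁻¹ * β - q) := by
          rw [mul_sub, mul_inv_cancel_left₀ hα0]
        rw [h5, map_mul] at h4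
        have h6 : 0 < Quaternion.normSq α :=
          lt_of_le_of_ne Quaternion.normSq_nonneg (Quaternion.normSq_ne_zero.2 hα0).symm
        nlinarith
      refine ⟨2 * q, ?_, hq2.two_mul, ?_⟩
      · rw [two_mul]; exact hq1.add hq1
      · rw [sub_eq_zero.1 h2, two_mul, two_mul, mul_add]
    · refine ⟨q', h1, h2, ?_⟩
      rw [← h3, two_mul, two_mul, mul_add, mul_inv_cancel_left₀ hα0]
  obtain ⟨m1, hm1, k1⟩ := exists_natCast_mul_mem_QSub (star x.1)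
  obtain ⟨m2, hm2, k2⟩ := exists_natCast_mul_mem_QSub (qι α⁻¹)
  obtain ⟨y, hy, e, he, hye⟩ := exists_rat_approx x.1 hx (mul_ne_zero hm1 hm2)
  have hnc : ∀ m : ℕ, (m : ℍ[FinAdele]) ∈ QSub Zhat := fun m => natCast_mem _ m
  have hxx : star x.1 * x.1 = 1 := (Unitary.mem_iff.1 x.2).1
  have hyL : y ∈ L := by
    refine ⟨hy, ?_⟩
    have h1 : star x.1 * qι y = 1 - ((m2 : ℍ[FinAdele]) * ((m1 : ℍ[FinAdele]) * star x.1)) * e := by
      have h2 : qι y = x.1 - ((m1 * m2 : ℕ) : ℍ[FinAdele]) * e := by rw [← hye]; abel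
      rw [h2, mul_sub, hxx, ← mul_assoc, ← Nat.cast_comm]
      push_cast
      rw [Nat.cast_comm m1 (m2 : ℍ[FinAdele]), mul_assoc (m2 : ℍ[FinAdele])]
    rw [h1]
    exact (QSub Zhat).sub_mem (QSub Zhat).one_mem
      ((QSub Zhat).mul_mem ((QSub Zhat).mul_mem (hnc m2) k1) he)
  obtain ⟨q', hq1, hq2, hq3⟩ := key y hyL
  have hw : 2 * (qι α⁻¹ * x.1) ∈ QSub Zhat := by
    have h2 : x.1 = qι y + ((m1 * m2 : ℕ) : ℍ[FinAdele]) * e := by rw [← hye]; abel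
    have h3 : 2 * (qι α⁻¹ * x.1) = qι q' +
        2 * (((m1 : ℍ[FinAdele]) * ((m2 : ℍ[FinAdele]) * qι α⁻¹)) * e) := by
      rw [h2, mul_add, mul_add]
      congr 1
      · rw [← map_mul, ← map_ofNat qι 2, ← map_mul]
        congr 1
        rw [two_mul, ← mul_add, ← two_mul, hq3, inv_mul_cancel_left₀ hα0]
      · rw [← mul_assoc (qι α⁻¹), ← Nat.cast_comm]
        push_cast
        rw [mul_assoc (m1 : ℍ[FinAdele])]
    rw [h3]
    exact (QSub Zhat).add_mem hq2.mem ((QSub Zhat).mul_mem (by exact_mod_cast hnc 2)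
      ((QSub Zhat).mul_mem ((QSub Zhat).mul_mem (hnc m1) k2) he))
  have hn0 : (n : ℚ) ≠ 0 := by rw [← hαn]; exact Quaternion.normSq_ne_zero.2 hα0
  have hdvd : n ∣ 4 := by
    have h1 := normSq_mem_of_QSub hw
    have h2 : Quaternion.normSq (2 : ℍ[FinAdele]) = algebraMap ℚ FinAdele 4 := by
      have e1 : (2 : ℍ[FinAdele]) = qι 2 := (map_ofNat qι 2).symm
      have e2 : Quaternion.normSq (2 : ℍ[ℚ]) = 4 := by
        have := Quaternion.normSq_natCast (R := ℚ) 2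
        norm_num at this
        exact this
      rw [e1, normSq_qmap, e2]
    rw [map_mul, map_mul, G1.normSq, mul_one, normSq_qmap, h2, ← map_mul, Quaternion.normSq_inv,
      hαn] at h1
    obtain ⟨z, hz⟩ := int_of_mem_Zhat h1
    have h3 : (4 : ℚ) = z * n := by rw [← hz]; field_simp
    have h4 : (4 : ℤ) = z * n := by exact_mod_cast h3
    have h5 : (n : ℤ) ∣ 4 := ⟨z, by rw [h4]; ring⟩
    exact_mod_cast h5
  obtain ⟨δ, hδ1, hδ2, hδ3⟩ := exists_delta b hdvd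
  have hδ0 : δ ≠ 0 := by
    rw [← Quaternion.normSq_ne_zero, hδ3]; exact hn0
  refine ⟨G1.of (α * δ⁻¹) ?_, ?_, ?_⟩
  · rw [map_mul, Quaternion.normSq_inv, hαn, hδ3, mul_inv_cancel₀ hn0]
  · exact hαL.1.mul hδ1.inv
  · rw [G1.val_of, ← qmap_star]
    have h1 : star (α * δ⁻¹) = δ * α⁻¹ := by
      have e1 : α⁻¹ = (Quaternion.normSq α)⁻¹ • star α := rfl
      have e2 : δ⁻¹ = (Quaternion.normSq δ)⁻¹ • star δ := rfl
      rw [e1, e2, star_mul, star_smul, star_star, hαn, hδ3]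
      simp
    have h2 : 2 * (qι (δ * α⁻¹) * x.1) = qι δ * (2 * (qι α⁻¹ * x.1)) := by
      rw [map_mul, two_mul, two_mul, mul_add, mul_assoc]
    rw [h1, h2]
    exact (QSub Zhat).mul_mem hδ2.mem hw

end Pool.Agent.Helper73.Tor
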