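import Pool.Agent.Helper73.Tor.Space

open scoped Quaternion RestrictedProduct Topology
open MeasureTheory Topology

noncomputable section

namespace Pool.Agent.Helper73.Tor

theorem exists_weakLimit (μ : ℕ → Measure X) (hμ : ∀ i, IsProbabilityMeasure (μ i)) :
    ∃ ν : Measure X, IsProbabilityMeasure ν ∧ IsWeakLimit μ ν := by
  let P : ℕ → ProbabilityMeasure X := fun i => ⟨μ i, hμ i⟩
  obtain ⟨ν, -, φ, hφ, hlim⟩ := isCompact_univ.isSeqCompact (x := P) (fun _ => trivial)
  refine ⟨(ν : Measure X), inferInstance, φ, hφ, fun f hf _ => ?_⟩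
  rw [ProbabilityMeasure.tendsto_iff_forall_integral_tendsto] at hlim
  exact hlim (BoundedContinuousFunction.mkOfCompact ⟨f, hf⟩)

/-- Testing a weak limit on a clopen set of full measure. -/
theorem measure_clopen_of_weakLimit {μ : ℕ → Measure X} {ν : Measure X} (hν : IsWeakLimit μ ν) {Z : Set X}
    (hZ : IsClopen Z) (h1 : ∀ i, μ i Z = 1) : ν Z = 1 := by
  obtain ⟨φ, -, h⟩ := hν
  have hc : Continuous (Z.indicator (fun _ => (1 : ℝ))) :=
    IsClopen.continuous_indicator hZ continuous_const
  have h2 := h _ hc (HasCompactSupport.of_compactSpace _)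
  have h3 : ∀ m : Measure X, ∫ x, Z.indicator (fun _ => (1 : ℝ)) x ∂m = m.real Z := by
    intro m
    rw [integral_indicator_const _ hZ.isOpen.measurableSet, smul_eq_mul, mul_one]
  simp only [h3] at h2
  have h4 : (fun n => (μ (φ n)).real Z) = fun _ => (1 : ℝ) := by
    funext n
    rw [Measure.real, h1, ENNReal.toReal_one]
  rw [h4] at h2
  have h5 := tendsto_nhds_unique h2 tendsto_const_nhds
  rw [Measure.real, ENNReal.toReal_eq_one_iff] at h5
  exact h5

end Pool.Agent.Helper73.Tor
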