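import Pool.Agent.Helper73.Tor.Red
import Pool.Agent.Helper73.Tor.Limit

open scoped Quaternion RestrictedProduct Topology
open MeasureTheory Topology

noncomputable section

namespace Pool.Agent.Helper73.Tor

/-- the prime `3` -/
def three : Pr := ⟨3, Nat.prime_three⟩

/-- reduction modulo `3` of the integral elements -/
abbrev redV : V1 →* G1 (ZMod ((three : ℕ) ^ 1)) := (G1.map (red three 1)).comp toZ

/-- congruence subgroup -/
def V3 : Subgroup (G1 Adele) := (redV.ker).map V1.subtype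

theorem mem_V3 {x : G1 Adele} : x ∈ V3 ↔ ∃ h : x ∈ V1, redV ⟨x, h⟩ = 1 := by
  constructor
  · rintro ⟨⟨y, hy⟩, h1, rfl⟩
    exact ⟨hy, h1⟩
  · rintro ⟨h, h1⟩
    exact ⟨⟨x, h⟩, h1, rfl⟩

theorem redV_eq_one_iff {x : V1} : redV x = 1 ↔ red three 1 ((toZ x).1.re - 1) = 0 ∧
    red three 1 (toZ x).1.imI = 0 ∧ red three 1 (toZ x).1.imJ = 0 ∧
    red three 1 (toZ x).1.imK = 0 := by
  constructor
  · intro h
    have h' := congrArg (fun z : G1 _ => z.1) h
    refine ⟨?_, congrArg QuaternionAlgebra.imI h', congrArg QuaternionAlgebra.imJ h',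
      congrArg QuaternionAlgebra.imK h'⟩
    rw [map_sub, map_one, sub_eq_zero]
    exact congrArg QuaternionAlgebra.re h'
  · rintro ⟨h0, h1, h2, h3⟩
    rw [map_sub, map_one, sub_eq_zero] at h0
    apply G1.ext
    exact Quaternion.ext _ _ h0 h1 h2 h3

theorem mem_V3_of {x : G1 Adele} {e : ℍ[FinAdele]} (he : e ∈ QSub Zhat)
    (hx : qmap toFin x.1 = 1 + 3 * e) : x ∈ V3 := by
  have h3 : (3 : ℍ[FinAdele]) ∈ QSub Zhat := by exact_mod_cast natCast_mem (QSub Zhat) 3
  have hxV : x ∈ V1 := by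
    rw [mem_V1, hx]
    exact (QSub Zhat).add_mem (QSub Zhat).one_mem ((QSub Zhat).mul_mem h3 he)
  refine mem_V3.2 ⟨hxV, ?_⟩
  let e' : ℍ[Zhat] := qmk ⟨e.re, he.1⟩ ⟨e.imI, he.2.1⟩ ⟨e.imJ, he.2.2.1⟩ ⟨e.imK, he.2.2.2⟩
  have h4 : (toZ ⟨x, hxV⟩).1 = 1 + 3 * e' := by
    apply qmap_subtype_injective
    rw [qmap_toZ, map_add, map_mul, map_one, map_ofNat]
    exact hx
  apply G1.ext
  show qmap (red three 1) (toZ ⟨x, hxV⟩).1 = 1
  rw [h4, map_add, map_mul, map_one, map_ofNat]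
  have h5 : (3 : ℍ[ZMod ((three : ℕ) ^ 1)]) = 0 := by
    have h6 : ((3 : ℕ) : ZMod ((three : ℕ) ^ 1)) = 0 := by
      have : ((three : ℕ) ^ 1) = 3 := rfl
      rw [this]
      exact ZMod.natCast_self 3
    have h7 : (3 : ℍ[ZMod ((three : ℕ) ^ 1)]) = ((3 : ℕ) : ℍ[ZMod ((three : ℕ) ^ 1)]) :=
      (Nat.cast_ofNat).symm
    rw [h7, ← Quaternion.coe_natCast, h6, Quaternion.coe_zero]
  rw [h5, zero_mul, add_zero]

theorem isOpen_V3 : IsOpen (V3 : Set (G1 Adele)) := by
  let U : Set (G1 Adele) := {x | x ∈ V1 ∧ ‖(x.1.re).2 three - 1‖ < ((three : ℕ) : ℝ) ^ (-1 : ℤ) ∧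
    ‖(x.1.imI).2 three‖ < ((three : ℕ) : ℝ) ^ (-1 : ℤ) ∧
    ‖(x.1.imJ).2 three‖ < ((three : ℕ) : ℝ) ^ (-1 : ℤ) ∧
    ‖(x.1.imK).2 three‖ < ((three : ℕ) : ℝ) ^ (-1 : ℤ)}
  have hev : Continuous (fun a : Adele => a.2 three) :=
    (RestrictedProduct.continuous_eval three).comp continuous_snd
  have hU : IsOpen U := by
    refine isOpen_V1.inter (IsOpen.inter ?_ (IsOpen.inter ?_ (IsOpen.inter ?_ ?_)))
    · exact isOpen_lt ((hev.comp G1.continuous_re).sub continuous_const).norm continuous_const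
    · exact isOpen_lt (hev.comp G1.continuous_imI).norm continuous_const
    · exact isOpen_lt (hev.comp G1.continuous_imJ).norm continuous_const
    · exact isOpen_lt (hev.comp G1.continuous_imK).norm continuous_const
  have h3 : (0 : ℝ) < ((three : ℕ) : ℝ) ^ (-1 : ℤ) := by
    have : (0 : ℝ) < ((three : ℕ) : ℝ) := by exact_mod_cast three.2.pos
    positivity
  have h1 : (1 : G1 Adele) ∈ U := by
    refine ⟨V1.one_mem, ?_, ?_, ?_, ?_⟩
    · show ‖(1 : ℚ_[three]) - 1‖ < _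
      rw [sub_self, norm_zero]; exact h3
    · show ‖(0 : ℚ_[three])‖ < _
      rw [norm_zero]; exact h3
    · show ‖(0 : ℚ_[three])‖ < _
      rw [norm_zero]; exact h3
    · show ‖(0 : ℚ_[three])‖ < _
      rw [norm_zero]; exact h3
  have hsub : U ⊆ V3 := by
    rintro x ⟨hx, a0, a1, a2, a3⟩
    refine mem_V3.2 ⟨hx, redV_eq_one_iff.2 ⟨?_, ?_, ?_, ?_⟩⟩
    · rw [red_eq_zero_iff]; exact a0.le
    · rw [red_eq_zero_iff]; exact a1.le
    · rw [red_eq_zero_iff]; exact a2.le
    · rw [red_eq_zero_iff]; exact a3.le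
  exact Subgroup.isOpen_of_mem_nhds V3 (g := 1)
    (Filter.mem_of_superset (hU.mem_nhds h1) hsub)

/-- the set `V3 G1(ℚ)` -/
def W : Set (G1 Adele) := {x | ∃ γ : G1 ℚ, x * diag γ ∈ V3}

theorem isClopen_W : IsClopen W := by
  constructor
  · rw [← isOpen_compl_iff, isOpen_iff_mem_nhds]
    intro x hx
    have hopen : IsOpen {y : G1 Adele | y * x⁻¹ ∈ V3} :=
      isOpen_V3.preimage (continuous_id.mul continuous_const)
    refine Filter.mem_of_superset (hopen.mem_nhds ?_) ?_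
    · rw [Set.mem_ofPred_eq, mul_inv_cancel]; exact V3.one_mem
    · rintro y hy ⟨γ, hγ⟩
      apply hx
      refine ⟨γ, ?_⟩
      have : x * diag γ = (y * x⁻¹)⁻¹ * (y * diag γ) := by group
      rw [this]
      exact V3.mul_mem (V3.inv_mem hy) hγ
  · have : W = ⋃ γ : G1 ℚ, (fun x => x * diag γ) ⁻¹' (V3 : Set (G1 Adele)) := by
      ext x
      simp [W]
    rw [this]
    exact isOpen_iUnion fun γ => isOpen_V3.preimage (continuous_id.mul continuous_const)

/-- the corresponding subset of `X` -/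
def Z : Set X := {x | ∃ g : G Adele, toX g = x ∧ g.2 ∈ W}

theorem toX_mem_Z {g : G Adele} : toX g ∈ Z ↔ g.2 ∈ W := by
  constructor
  · rintro ⟨g', h1, γ, h2⟩
    have h3 := QuotientGroup.eq.1 h1
    obtain ⟨δ, hδ⟩ := h3
    refine ⟨δ.2⁻¹ * γ, ?_⟩
    have h4 : g.2 = g'.2 * diag δ.2 := by
      have h5 := congrArg Prod.snd hδ
      have h6 : diag δ.2 = (g'.2)⁻¹ * g.2 := h5
      rw [h6]
      group
    rw [h4, map_mul, map_inv]
    have : g'.2 * diag δ.2 * ((diag δ.2)⁻¹ * diag γ) = g'.2 * diag γ := by group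
    rw [this]
    exact h2
  · intro h
    exact ⟨g, rfl, h⟩

theorem isClopen_Z : IsClopen Z := by
  have h : toX ⁻¹' Z = Prod.snd ⁻¹' W := by
    ext g
    exact toX_mem_Z
  have hq : IsQuotientMap toX := QuotientGroup.isQuotientMap_mk ratPts
  rw [← hq.isClopen_preimage, h]
  exact isClopen_W.preimage continuous_snd

/-- the idempotent of the place `3`, divided by `2` -/
def halfThree : FinAdele :=
  ⟨fun p => if p = three then (1 / 2 : ℚ_[p]) else 0, by
    rw [Filter.eventually_cofinite]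
    refine (Set.finite_singleton three).subset ?_
    intro p hp
    by_contra h
    apply hp
    have : p ≠ three := h
    simp only [this, if_false]
    exact Subring.zero_mem _⟩

theorem halfThree_three : halfThree three = (1 / 2 : ℚ_[three]) := by
  show (if three = three then (1 / 2 : ℚ_[three]) else 0) = _
  rw [if_pos rfl]

theorem halfThree_ne {p : Pr} (h : p ≠ three) : halfThree p = 0 := by
  show (if p = three then (1 / 2 : ℚ_[p]) else 0) = _
  rw [if_neg h]

theorem norm_half_three : ‖(1 / 2 : ℚ_[three])‖ = 1 := by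
  have h : ‖((2 : ℕ) : ℚ_[three])‖ = 1 := by
    rw [Padic.norm_natCast_eq_one_iff]
    show Nat.Coprime 3 2
    norm_num
  rw [norm_div, norm_one]
  push_cast at h
  rw [h, div_one]

theorem halfThree_mem : halfThree ∈ Zhat := by
  intro p
  by_cases h : p = three
  · subst h
    rw [halfThree_three, norm_half_three]
  · rw [halfThree_ne h, norm_zero]
    exact zero_le_one

theorem normSq_special :
    Quaternion.normSq (qmk (1 - halfThree) halfThree halfThree halfThree) = 1 := by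
  rw [Quaternion.normSq_def']
  simp only [re_qmk, imI_qmk, imJ_qmk, imK_qmk]
  have h : 4 * halfThree ^ 2 = 2 * halfThree := by
    apply RestrictedProduct.ext
    intro p
    show (4 : ℚ_[p]) * (halfThree p) ^ 2 = 2 * halfThree p
    by_cases h : p = three
    · subst h
      rw [halfThree_three]
      norm_num
    · rw [halfThree_ne h]
      ring
  linear_combination h

/-- the special element -/
def spec : G1 Adele := G1.pair 1 (G1.of _ normSq_special)

theorem spec_mem_V1 : spec ∈ V1 := by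
  rw [mem_V1]
  exact ⟨Zhat.sub_mem Zhat.one_mem halfThree_mem, halfThree_mem, halfThree_mem, halfThree_mem⟩

theorem spec_spec {v v' : G1 Adele} (hv : v ∈ V3) (hv' : v' ∈ V3) (γ : G1 ℚ) :
    v * spec * v' ≠ diag γ := by
  intro h
  obtain ⟨h1, h2⟩ := mem_V3.1 hv
  obtain ⟨h1', h2'⟩ := mem_V3.1 hv'
  have hγV : diag γ ∈ V1 := by
    rw [← h]
    exact V1.mul_mem (V1.mul_mem h1 spec_mem_V1) h1'
  obtain ⟨a, b, c, d, hγ⟩ := int_of_diag_mem hγV
  have h3 : redV ⟨diag γ, hγV⟩ = redV ⟨spec, spec_mem_V1⟩ := by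
    have : (⟨diag γ, hγV⟩ : V1) = ⟨v, h1⟩ * ⟨spec, spec_mem_V1⟩ * ⟨v', h1'⟩ := Subtype.ext h.symm
    rw [this, map_mul, map_mul, h2, h2', one_mul, mul_one]
  have h3' := congrArg (fun z : G1 _ => z.1) h3
  have e0 : red three 1 (toZ ⟨diag γ, hγV⟩).1.re = red three 1 (toZ ⟨spec, spec_mem_V1⟩).1.re :=
    congrArg QuaternionAlgebra.re h3'
  have e1 : red three 1 (toZ ⟨diag γ, hγV⟩).1.imI = red three 1 (toZ ⟨spec, spec_mem_V1⟩).1.imI :=
    congrArg QuaternionAlgebra.imI h3'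
  have h33 : ((three : ℕ) : ℝ) ^ (-(1 : ℕ) : ℤ) < 1 := by
    show ((3 : ℕ) : ℝ) ^ (-(1 : ℕ) : ℤ) < 1
    norm_num
  have n0 : red three 1 (toZ ⟨spec, spec_mem_V1⟩).1.re ≠ 0 := by
    intro h0
    rw [red_eq_zero_iff] at h0
    have h4 : ‖(1 : ℚ_[three]) - halfThree three‖ ≤ _ := h0
    rw [halfThree_three, show (1 : ℚ_[three]) - 1 / 2 = 1 / 2 by norm_num, norm_half_three] at h4
    linarith
  have n1 : red three 1 (toZ ⟨spec, spec_mem_V1⟩).1.imI ≠ 0 := by
    intro h0
    rw [red_eq_zero_iff] at h0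
    have h4 : ‖halfThree three‖ ≤ _ := h0
    rw [halfThree_three, norm_half_three] at h4
    linarith
  have ha : a ≠ 0 := by
    rintro rfl
    apply n0
    rw [← e0]
    have : (toZ ⟨diag γ, hγV⟩).1.re = 0 := by
      apply Subtype.ext
      show algebraMap ℚ FinAdele γ.1.re = 0
      rw [hγ, re_qmk, Int.cast_zero, map_zero]
    rw [this, map_zero]
  have hb : b ≠ 0 := by
    rintro rfl
    apply n1
    rw [← e1]
    have : (toZ ⟨diag γ, hγV⟩).1.imI = 0 := by
      apply Subtype.ext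
      show algebraMap ℚ FinAdele γ.1.imI = 0
      rw [hγ, imI_qmk, Int.cast_zero, map_zero]
    rw [this, map_zero]
  have hN := G1.normSq γ
  rw [hγ, Quaternion.normSq_def'] at hN
  simp only [re_qmk, imI_qmk, imJ_qmk, imK_qmk] at hN
  have hN' : a ^ 2 + b ^ 2 + c ^ 2 + d ^ 2 = 1 := by exact_mod_cast hN
  have ha2 : 0 < a ^ 2 := by positivity
  have hb2 : 0 < b ^ 2 := by positivity
  nlinarith [sq_nonneg c, sq_nonneg d]

/-- No measure for which `Z` has full measure one is invariant. -/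
theorem not_invariant {ν : Measure X} (h1 : ν Set.univ = 1) (hZ : ν Z = 1) :
    ∃ x : G Adele, ν.map (fun y => x • y) ≠ ν := by
  refine ⟨((1 : G1 Adele), spec), fun h => ?_⟩
  have hcont : Continuous (fun y : X => ((1 : G1 Adele), spec) • y) := by
    have : Continuous (fun y : G Adele ⧸ ratPts => ((1 : G1 Adele), spec) • y) :=
      continuous_const_smul _
    exact this
  have h2 : ν ((fun y : X => ((1 : G1 Adele), spec) • y) ⁻¹' Z) = 1 := by
    rw [← Measure.map_apply hcont.measurable isClopen_Z.isOpen.measurableSet, h, hZ]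
  have hdisj : Disjoint Z ((fun y : X => ((1 : G1 Adele), spec) • y) ⁻¹' Z) := by
    rw [Set.disjoint_left]
    rintro x ⟨g, rfl, γ, hγ⟩ hx
    have hx' : toX (((1 : G1 Adele), spec) * g) ∈ Z := hx
    rw [toX_mem_Z] at hx'
    obtain ⟨γ', hγ'⟩ := hx'
    have h3 : spec * g.2 * diag γ' ∈ V3 := hγ'
    apply spec_spec (V3.inv_mem h3) hγ (γ'⁻¹ * γ)
    rw [map_mul, map_inv]
    group
  have h3 : ν (Z ∪ ((fun y : X => ((1 : G1 Adele), spec) • y) ⁻¹' Z)) ≤ ν Set.univ :=
    measure_mono (Set.subset_univ _)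
  rw [measure_union hdisj (hcont.measurable isClopen_Z.isOpen.measurableSet), hZ, h2, h1] at h3
  norm_num at h3

end Pool.Agent.Helper73.Tor
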