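import Mathlib

/-!
Adelic torus orbits in the group `G = SL_1(ℍ) × SL_1(ℍ)` over `ℚ`, where `ℍ` is the algebra of
Hamilton quaternions.
-/

open scoped Quaternion RestrictedProduct Topology
open MeasureTheory

noncomputable section

namespace Pool.Agent.Helper73.Tor

/-! ### The group -/

/-- The points over a commutative ring `R` of `SL_1(ℍ)`, the group of quaternions of reduced norm
one: `unitary ℍ[R]` consists of the `x : ℍ[R]` with `star x * x = 1` and `x * star x = 1`, and
`star x * x = x * star x` is the reduced norm of `x`. -/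
def G1 (R : Type) [CommRing R] : Type := unitary ℍ[R]

instance (R : Type) [CommRing R] : Group (G1 R) := Unitary.instGroupSubtypeMemSubmonoidUnitary

/-- The coordinates of a quaternion with respect to the basis `1, i, j, k`. -/
def G1.coord {R : Type} [CommRing R] (x : G1 R) : Fin 4 → R :=
  ![x.1.re, x.1.imI, x.1.imJ, x.1.imK]

/-- For a topological ring `R` the group `G1 R` has the subspace topology of `R ^ 4`. -/
instance (R : Type) [CommRing R] [TopologicalSpace R] : TopologicalSpace (G1 R) :=
  TopologicalSpace.induced G1.coord inferInstance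

/-- The points over `R` of the algebraic group `G = SL_1(ℍ) × SL_1(ℍ)` over `ℚ`. -/
abbrev G (R : Type) [CommRing R] : Type := G1 R × G1 R

/-- The eight coordinates of a point of `G`. -/
def coord {R : Type} [CommRing R] (g : G R) : Fin 2 × Fin 4 → R :=
  fun m => if m.1 = 0 then g.1.coord m.2 else g.2.coord m.2

/-- The quaternion `a + b i + c j + d k`. -/
def qmk {R : Type} [CommRing R] (a b c d : R) : ℍ[R] := ⟨a, b, c, d⟩

section qmk
variable {R : Type} [CommRing R] (a b c d : R)
@[simp] theorem re_qmk : (qmk a b c d).re = a := rfl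
@[simp] theorem imI_qmk : (qmk a b c d).imI = b := rfl
@[simp] theorem imJ_qmk : (qmk a b c d).imJ = c := rfl
@[simp] theorem imK_qmk : (qmk a b c d).imK = d := rfl
end qmk

/-- A ring homomorphism, applied to the coordinates of a quaternion. -/
def qmap {R S : Type} [CommRing R] [CommRing S] (f : R →+* S) : ℍ[R] →+* ℍ[S] where
  toFun x := qmk (f x.re) (f x.imI) (f x.imJ) (f x.imK)
  map_one' := by ext <;> simp
  map_mul' x y := by ext <;> simp
  map_zero' := by ext <;> simp
  map_add' x y := by ext <;> simp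

section qmap
variable {R S : Type} [CommRing R] [CommRing S] (f : R →+* S) (x : ℍ[R])
@[simp] theorem re_qmap : (qmap f x).re = f x.re := rfl
@[simp] theorem imI_qmap : (qmap f x).imI = f x.imI := rfl
@[simp] theorem imJ_qmap : (qmap f x).imJ = f x.imJ := rfl
@[simp] theorem imK_qmap : (qmap f x).imK = f x.imK := rfl
theorem qmap_star : qmap f (star x) = star (qmap f x) := by ext <;> simp
end qmap

/-- A ring homomorphism `R → S` induces a homomorphism `G1 R → G1 S`. -/
def G1.map {R S : Type} [CommRing R] [CommRing S] (f : R →+* S) : G1 R →* G1 S where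
  toFun x := ⟨qmap f x.1, by
    rw [Unitary.mem_iff, ← qmap_star, ← map_mul, ← map_mul, (Unitary.mem_iff.1 x.2).1,
      (Unitary.mem_iff.1 x.2).2, map_one]
    exact ⟨rfl, rfl⟩⟩
  map_one' := Subtype.ext (map_one (qmap f))
  map_mul' x y := Subtype.ext (map_mul (qmap f) x.1 y.1)

/-- A ring homomorphism `R → S` induces a homomorphism `G R → G S`. -/
def G.map {R S : Type} [CommRing R] [CommRing S] (f : R →+* S) : G R →* G S :=
  (G1.map f).prodMap (G1.map f)

/-! ### Algebraic subgroups and tori over `ℚ` -/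

/-- A `ℚ`-subgroup `H` of `G`: for every commutative `ℚ`-algebra `R` a subgroup `H.pts R` of
`G R`, these subgroups being the sets of zeros of one set of polynomials in the coordinates, with
coefficients in `ℚ`. -/
structure AlgSubgroup where
  eqs : Set (MvPolynomial (Fin 2 × Fin 4) ℚ)
  pts : ∀ (R : Type) [CommRing R] [Algebra ℚ R], Subgroup (G R)
  mem_pts : ∀ (R : Type) [CommRing R] [Algebra ℚ R] (g : G R),
    g ∈ pts R ↔ ∀ p ∈ eqs, MvPolynomial.aeval (coord g) p = 0

/-- The group `T(R)`. -/
abbrev AlgSubgroup.Pts (T : AlgSubgroup) (R : Type) [CommRing R] [Algebra ℚ R] : Type := T.pts R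

instance instGroupPts (T : AlgSubgroup) (R : Type) [CommRing R] [Algebra ℚ R] :
    Group (T.Pts R) := (T.pts R).toGroup

/-- `H` is a proper subgroup: `H ≠ G`. -/
def AlgSubgroup.IsProper (H : AlgSubgroup) : Prop :=
  ∃ (R : Type) (_ : CommRing R) (_ : Algebra ℚ R), H.pts R ≠ ⊤

/-- `T` is a torus: over the algebraic closure `K` of `ℚ` it becomes isomorphic to a power
`(G_m) ^ n` of the multiplicative group. That is, for all commutative `K`-algebras `R` there are
injective homomorphisms `φ R : (Rˣ) ^ n → G(R)` with image `T(R)`, compatible with homomorphisms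
of `K`-algebras. -/
def AlgSubgroup.IsTorus (T : AlgSubgroup) : Prop :=
  ∃ (n : ℕ) (φ : ∀ (R : Type) [CommRing R] [Algebra ℚ R] [Algebra (AlgebraicClosure ℚ) R],
    (Fin n → Rˣ) → G R),
    (∀ (R : Type) [CommRing R] [Algebra ℚ R] [Algebra (AlgebraicClosure ℚ) R],
      (∀ z w : Fin n → Rˣ, φ R (z * w) = φ R z * φ R w) ∧ Function.Injective (φ R) ∧
        ∀ g : G R, g ∈ T.pts R ↔ ∃ z, φ R z = g) ∧
    ∀ (R S : Type) [CommRing R] [Algebra ℚ R] [Algebra (AlgebraicClosure ℚ) R]
      [CommRing S] [Algebra ℚ S] [Algebra (AlgebraicClosure ℚ) S]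
      (f : R →ₐ[AlgebraicClosure ℚ] S) (z : Fin n → Rˣ) (w : Fin n → Sˣ),
      (∀ i, (w i : S) = f (z i)) → φ S w = G.map f.toRingHom (φ R z)

/-- `T` is anisotropic over `ℚ`: every homomorphism of algebraic groups over `ℚ` from `T` to
the multiplicative group is trivial. (Such a homomorphism consists of homomorphisms
`χ R : T(R) → Rˣ` compatible with homomorphisms of `ℚ`-algebras, which are the same as
homomorphisms of rings.) -/
def AlgSubgroup.IsAnisotropic (T : AlgSubgroup) : Prop :=
  ∀ χ : ∀ (R : Type) [CommRing R] [Algebra ℚ R], T.Pts R → Rˣ,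
    (∀ (R : Type) [CommRing R] [Algebra ℚ R] (s t : T.Pts R), χ R (s * t) = χ R s * χ R t) →
    (∀ (R S : Type) [CommRing R] [Algebra ℚ R] [CommRing S] [Algebra ℚ S] (f : R →+* S)
      (s : T.Pts R) (t : T.Pts S), t.val = G.map f s.val → (χ S t : S) = f (χ R s)) →
    ∀ (R : Type) [CommRing R] [Algebra ℚ R] (t : T.Pts R), χ R t = 1

/-! ### Adeles -/

/-- The set of prime numbers. -/
abbrev Pr : Type := {p : ℕ // p.Prime}

instance (p : Pr) : Fact (p : ℕ).Prime := ⟨p.2⟩

/-- The ring of finite adeles of `ℚ`: the restricted product of the fields `ℚ_p` with respect to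
the subrings `ℤ_p`. -/
abbrev FinAdele : Type := Πʳ p : Pr, [ℚ_[p], PadicInt.subring p]

instance instCommRingFinAdele : CommRing FinAdele := inferInstance
instance instTopologicalSpaceFinAdele : TopologicalSpace FinAdele := inferInstance

/-- The adele ring of `ℚ`. -/
abbrev Adele : Type := ℝ × FinAdele

/-- A rational number as a finite adele. -/
def ratFin (q : ℚ) : FinAdele := ⟨fun p => (q : ℚ_[p]), by
  have h : {p : Pr | ¬ ((q : ℚ_[p]) ∈ PadicInt.subring p)} ⊆
      (fun p : Pr => (p : ℕ)) ⁻¹' (q.den.primeFactors : Set ℕ) := by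
    intro p hp
    rw [Set.mem_preimage, Finset.mem_coe, Nat.mem_primeFactors]
    refine ⟨p.2, ?_, q.den_nz⟩
    by_contra h
    exact hp (Padic.norm_rat_le_one h)
  rw [Filter.eventually_cofinite]
  exact ((Finset.finite_toSet _).preimage (fun a _ b _ h => Subtype.ext h)).subset h⟩

/-- The embedding of `ℚ` in the finite adeles. -/
def ratFinAdele : ℚ →+* FinAdele where
  toFun := ratFin
  map_one' := by ext p; exact Rat.cast_one
  map_mul' x y := by ext p; exact Rat.cast_mul x y
  map_zero' := by ext p; exact Rat.cast_zero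
  map_add' x y := by ext p; exact Rat.cast_add x y

instance instAlgebraFinAdele : Algebra ℚ FinAdele := ratFinAdele.toAlgebra

instance instCommRingAdele : CommRing Adele := inferInstance
instance instTopologicalSpaceAdele : TopologicalSpace Adele := inferInstance
instance instAlgebraAdele : Algebra ℚ Adele := inferInstance

/-- The image of `G(ℚ)` in `G(𝔸)`. -/
def ratPts : Subgroup (G Adele) := (G.map (algebraMap ℚ Adele)).range

/-- The space `X = G(𝔸) / G(ℚ)`, with the quotient topology and its Borel sets. -/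
def X : Type := G Adele ⧸ ratPts

instance : TopologicalSpace X := QuotientGroup.instTopologicalSpace ratPts

instance : MeasurableSpace X := borel X

instance : BorelSpace X := ⟨rfl⟩

/-- The class `g G(ℚ)` of `g`. -/
def toX (g : G Adele) : X := (QuotientGroup.mk g : G Adele ⧸ ratPts)

/-- The action of `G(𝔸)` on `X` by left multiplication. -/
instance instMulActionX : MulAction (G Adele) X := MulAction.quotient (G Adele) ratPts

/-- The adelic subset `g[H(𝔸)] = {g h G(ℚ) : h ∈ H(𝔸)}` of `X`. -/
def AlgSubgroup.orbit (H : AlgSubgroup) (g : G Adele) : Set X :=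
  {x | ∃ h ∈ H.pts Adele, x = toX (g * h)}

/-! ### Measures -/

/-- The subgroup `T(ℚ)` of `T(𝔸)`. -/
def AlgSubgroup.ratPts (T : AlgSubgroup) : Subgroup (T.Pts Adele) :=
  ((T.pts ℚ).map (G.map (algebraMap ℚ Adele))).subgroupOf (T.pts Adele)

/-- The topology of `T(𝔸)` as a subspace of `G(𝔸)`. -/
instance instTopologicalSpacePts (T : AlgSubgroup) : TopologicalSpace (T.Pts Adele) :=
  TopologicalSpace.induced Subtype.val inferInstance

/-- The space `T(𝔸) / T(ℚ)`, with the quotient topology and its Borel sets. -/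
def AlgSubgroup.Quot (T : AlgSubgroup) : Type := T.Pts Adele ⧸ T.ratPts

instance (T : AlgSubgroup) : TopologicalSpace T.Quot :=
  QuotientGroup.instTopologicalSpace T.ratPts

instance (T : AlgSubgroup) : MeasurableSpace T.Quot := borel T.Quot

instance (T : AlgSubgroup) : BorelSpace T.Quot := ⟨rfl⟩

instance instMulActionQuot (T : AlgSubgroup) : MulAction (T.Pts Adele) T.Quot :=
  MulAction.quotient (T.Pts Adele) T.ratPts

/-- The map `t T(ℚ) ↦ g t G(ℚ)` from `T(𝔸) / T(ℚ)` to `X`. -/
def AlgSubgroup.orbitMap (T : AlgSubgroup) (g : G Adele) (q : T.Quot) : X :=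
  Quotient.liftOn' q (fun t : T.Pts Adele => toX (g * t.val)) (by
    intro s t hst
    rw [QuotientGroup.leftRel_apply] at hst
    obtain ⟨r, -, hr⟩ := hst
    refine QuotientGroup.eq.2 ⟨r, ?_⟩
    rw [hr]
    show ((s : G Adele))⁻¹ * t = (g * s)⁻¹ * (g * t)
    group)

/-- `μ` is the uniform measure on `g[T(𝔸)]`: the push-forward, under `t T(ℚ) ↦ g t G(ℚ)`, of the
probability measure on `T(𝔸) / T(ℚ)` which is invariant under `T(𝔸)`. -/
def IsUniform (T : AlgSubgroup) (g : G Adele) (μ : Measure X) : Prop :=
  ∃ ν : Measure T.Quot, IsProbabilityMeasure ν ∧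
    (∀ t : T.Pts Adele, ν.map (fun q => t • q) = ν) ∧ μ = ν.map (T.orbitMap g)

/-- `ν` is a weak-* limit of the sequence `μ`: the limit of a subsequence, tested against compactly
supported continuous functions. -/
def IsWeakLimit (μ : ℕ → Measure X) (ν : Measure X) : Prop :=
  ∃ φ : ℕ → ℕ, StrictMono φ ∧ ∀ f : X → ℝ, Continuous f → HasCompactSupport f →
    Filter.Tendsto (fun n => ∫ x, f x ∂(μ (φ n))) Filter.atTop (𝓝 (∫ x, f x ∂ν))

end Pool.Agent.Helper73.Tor
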