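import Pool.Agent.Helper73.Tor.Arith

open scoped Quaternion RestrictedProduct Topology
open MeasureTheory Topology

noncomputable section

namespace Pool.Agent.Helper73.Tor

/-- quaternions with coordinates in a subring -/
def QSub {R : Type} [CommRing R] (A : Subring R) : Subring ℍ[R] where
  carrier := {x | x.re ∈ A ∧ x.imI ∈ A ∧ x.imJ ∈ A ∧ x.imK ∈ A}
  mul_mem' {x y} := by
    rintro ⟨a0, a1, a2, a3⟩ ⟨b0, b1, b2, b3⟩
    refine ⟨?_, ?_, ?_, ?_⟩
    · rw [Quaternion.re_mul]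
      exact A.sub_mem (A.sub_mem (A.sub_mem (A.mul_mem a0 b0) (A.mul_mem a1 b1)) (A.mul_mem a2 b2))
        (A.mul_mem a3 b3)
    · rw [Quaternion.imI_mul]
      exact A.sub_mem (A.add_mem (A.add_mem (A.mul_mem a0 b1) (A.mul_mem a1 b0)) (A.mul_mem a2 b3))
        (A.mul_mem a3 b2)
    · rw [Quaternion.imJ_mul]
      exact A.add_mem (A.add_mem (A.sub_mem (A.mul_mem a0 b2) (A.mul_mem a1 b3)) (A.mul_mem a2 b0))
        (A.mul_mem a3 b1)
    · rw [Quaternion.imK_mul]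
      exact A.add_mem (A.sub_mem (A.add_mem (A.mul_mem a0 b3) (A.mul_mem a1 b2)) (A.mul_mem a2 b1))
        (A.mul_mem a3 b0)
  one_mem' := by simp [A.one_mem, A.zero_mem]
  add_mem' {x y} := by
    rintro ⟨a0, a1, a2, a3⟩ ⟨b0, b1, b2, b3⟩
    exact ⟨A.add_mem a0 b0, A.add_mem a1 b1, A.add_mem a2 b2, A.add_mem a3 b3⟩
  zero_mem' := by simp [A.zero_mem]
  neg_mem' {x} := by
    rintro ⟨a0, a1, a2, a3⟩
    exact ⟨A.neg_mem a0, A.neg_mem a1, A.neg_mem a2, A.neg_mem a3⟩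

theorem mem_QSub {R : Type} [CommRing R] {A : Subring R} {x : ℍ[R]} :
    x ∈ QSub A ↔ x.re ∈ A ∧ x.imI ∈ A ∧ x.imJ ∈ A ∧ x.imK ∈ A := Iff.rfl

theorem star_mem_QSub {R : Type} [CommRing R] {A : Subring R} {x : ℍ[R]} (h : x ∈ QSub A) :
    star x ∈ QSub A := by
  obtain ⟨a0, a1, a2, a3⟩ := h
  exact ⟨by simpa using a0, A.neg_mem a1, A.neg_mem a2, A.neg_mem a3⟩

theorem normSq_mem_of_QSub {R : Type} [CommRing R] {A : Subring R} {x : ℍ[R]} (h : x ∈ QSub A) :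
    Quaternion.normSq x ∈ A := by
  obtain ⟨a0, a1, a2, a3⟩ := h
  rw [Quaternion.normSq_def']
  exact A.add_mem (A.add_mem (A.add_mem (A.pow_mem a0 2) (A.pow_mem a1 2)) (A.pow_mem a2 2))
    (A.pow_mem a3 2)

theorem normSq_qmap {R S : Type} [CommRing R] [CommRing S] (f : R →+* S) (x : ℍ[R]) :
    Quaternion.normSq (qmap f x) = f (Quaternion.normSq x) := by
  simp [Quaternion.normSq_def']

/-- either no condition or `x ∈ R[i]` -/
def InC {R : Type} [CommRing R] (b : Bool) (x : ℍ[R]) : Prop := b = true → x.imJ = 0 ∧ x.imK = 0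

section InC
variable {R S : Type} [CommRing R] [CommRing S] {b : Bool} {x y : ℍ[R]}

theorem InC.mul (hx : InC b x) (hy : InC b y) : InC b (x * y) := by
  intro h
  obtain ⟨h1, h2⟩ := hx h
  obtain ⟨h3, h4⟩ := hy h
  simp [h1, h2, h3, h4]

theorem InC.star (hx : InC b x) : InC b (Star.star x) := by
  intro h
  obtain ⟨h1, h2⟩ := hx h
  simp [h1, h2]

theorem InC.sub (hx : InC b x) (hy : InC b y) : InC b (x - y) := by
  intro h
  obtain ⟨h1, h2⟩ := hx h
  obtain ⟨h3, h4⟩ := hy h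
  simp [h1, h2, h3, h4]

theorem InC.add (hx : InC b x) (hy : InC b y) : InC b (x + y) := by
  intro h
  obtain ⟨h1, h2⟩ := hx h
  obtain ⟨h3, h4⟩ := hy h
  simp [h1, h2, h3, h4]

theorem InC.qmap (f : R →+* S) (hx : InC b x) : InC b (qmap f x) := by
  intro h
  obtain ⟨h1, h2⟩ := hx h
  simp [h1, h2]

theorem InC.coe (a : R) : InC b (a : ℍ[R]) := fun _ => ⟨rfl, rfl⟩

end InC

/-- embedding of rational quaternions -/
abbrev qι : ℍ[ℚ] →+* ℍ[FinAdele] := qmap (algebraMap ℚ FinAdele)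

theorem exists_natCast_mul_mem_QSub (y : ℍ[FinAdele]) :
    ∃ m : ℕ, m ≠ 0 ∧ (m : ℍ[FinAdele]) * y ∈ QSub Zhat := by
  obtain ⟨m0, h0, k0⟩ := exists_natCast_mul_mem y.re
  obtain ⟨m1, h1, k1⟩ := exists_natCast_mul_mem y.imI
  obtain ⟨m2, h2, k2⟩ := exists_natCast_mul_mem y.imJ
  obtain ⟨m3, h3, k3⟩ := exists_natCast_mul_mem y.imK
  have hn : ∀ n : ℕ, (n : FinAdele) ∈ Zhat := fun n => natCast_mem _ _
  refine ⟨m0 * m1 * m2 * m3, by positivity, ?_⟩
  rw [mem_QSub]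
  simp only [Quaternion.re_mul, Quaternion.imI_mul, Quaternion.imJ_mul, Quaternion.imK_mul,
    Quaternion.re_natCast, Quaternion.imI_natCast, Quaternion.imJ_natCast, Quaternion.imK_natCast]
  push_cast
  refine ⟨?_, ?_, ?_, ?_⟩
  · have := Zhat.mul_mem (Zhat.mul_mem (Zhat.mul_mem (hn m1) (hn m2)) (hn m3)) k0
    convert this using 1; ring
  · have := Zhat.mul_mem (Zhat.mul_mem (Zhat.mul_mem (hn m0) (hn m2)) (hn m3)) k1
    convert this using 1; ring
  · have := Zhat.mul_mem (Zhat.mul_mem (Zhat.mul_mem (hn m0) (hn m1)) (hn m3)) k2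
    convert this using 1; ring
  · have := Zhat.mul_mem (Zhat.mul_mem (Zhat.mul_mem (hn m0) (hn m1)) (hn m2)) k3
    convert this using 1; ring

/-- density -/
theorem exists_rat_approx {b : Bool} (x : ℍ[FinAdele]) (hx : InC b x) {M : ℕ} (hM : M ≠ 0) :
    ∃ y : ℍ[ℚ], InC b y ∧ ∃ e ∈ QSub Zhat, x - qι y = (M : ℍ[FinAdele]) * e := by
  obtain ⟨q0, z0, k0⟩ := exists_rat_sub_mem x.re hM
  obtain ⟨q1, z1, k1⟩ := exists_rat_sub_mem x.imI hM
  obtain ⟨q2, z2, k2⟩ := exists_rat_sub_mem x.imJ hM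
  obtain ⟨q3, z3, k3⟩ := exists_rat_sub_mem x.imK hM
  refine ⟨qmk q0 q1 q2 q3, fun h => ⟨z2 (hx h).1, z3 (hx h).2⟩,
    algebraMap ℚ FinAdele ((M : ℚ)⁻¹) • (x - qι (qmk q0 q1 q2 q3)), ?_, ?_⟩
  · rw [mem_QSub]
    exact ⟨k0, k1, k2, k3⟩
  · have hM' : (M : ℚ) ≠ 0 := by exact_mod_cast hM
    rw [← Quaternion.coe_natCast, Quaternion.coe_mul_eq_smul, smul_smul,
      ← map_natCast (algebraMap ℚ FinAdele) M, ← map_mul, mul_inv_cancel₀ hM', map_one, one_smul]

/-- integral rational quaternions -/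
def IsInt (q : ℍ[ℚ]) : Prop := ∃ a b c d : ℤ, q = qmk (a : ℚ) b c d

theorem IsInt.mem {q : ℍ[ℚ]} (h : IsInt q) : qι q ∈ QSub Zhat := by
  obtain ⟨a, b, c, d, rfl⟩ := h
  exact ⟨intCast_mem_Zhat a, intCast_mem_Zhat b, intCast_mem_Zhat c, intCast_mem_Zhat d⟩

theorem exists_round {b : Bool} (g : ℍ[ℚ]) (hg : InC b g) :
    ∃ q : ℍ[ℚ], InC b q ∧ IsInt q ∧ (Quaternion.normSq (g - q) < 1 ∨
      ∃ q' : ℍ[ℚ], InC b q' ∧ IsInt q' ∧ 2 * g = q') := by
  refine ⟨qmk (round g.re : ℚ) (round g.imI : ℚ) (round g.imJ : ℚ) (round g.imK : ℚ), ?_,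
    ⟨_, _, _, _, rfl⟩, ?_⟩
  · intro h
    obtain ⟨h1, h2⟩ := hg h
    simp [h1, h2]
  · have key : ∀ x : ℚ, (x - round x) ^ 2 ≤ 1 / 4 := by
      intro x
      have h := abs_sub_round x
      rw [← sq_abs]
      nlinarith [abs_nonneg (x - round x)]
    have key2 : ∀ x : ℚ, (x - round x) ^ 2 = 1 / 4 → ∃ z : ℤ, 2 * x = z := by
      intro x hx
      have h1 : (x - round x - 1 / 2) * (x - round x + 1 / 2) = 0 := by ring_nf; ring_nf at hx; linarith
      rcases mul_eq_zero.1 h1 with h | h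
      · refine ⟨2 * round x + 1, ?_⟩
        push_cast
        linarith
      · refine ⟨2 * round x - 1, ?_⟩
        push_cast
        linarith
    by_cases hlt : Quaternion.normSq (g - qmk (round g.re : ℚ) (round g.imI : ℚ) (round g.imJ : ℚ)
        (round g.imK : ℚ)) < 1
    · exact Or.inl hlt
    · right
      rw [Quaternion.normSq_def'] at hlt
      simp only [Quaternion.re_sub, Quaternion.imI_sub, Quaternion.imJ_sub, Quaternion.imK_sub,
        re_qmk, imI_qmk, imJ_qmk, imK_qmk, not_lt] at hlt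
      have a0 := key g.re
      have a1 := key g.imI
      have a2 := key g.imJ
      have a3 := key g.imK
      obtain ⟨z0, h0⟩ := key2 g.re (by linarith)
      obtain ⟨z1, h1⟩ := key2 g.imI (by linarith)
      obtain ⟨z2, h2⟩ := key2 g.imJ (by linarith)
      obtain ⟨z3, h3⟩ := key2 g.imK (by linarith)
      have h2g : 2 * g = qmk (z0 : ℚ) z1 z2 z3 := by
        rw [two_mul]
        ext
        · simp only [Quaternion.re_add, re_qmk]; linarith
        · simp only [Quaternion.imI_add, imI_qmk]; linarith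
        · simp only [Quaternion.imJ_add, imJ_qmk]; linarith
        · simp only [Quaternion.imK_add, imK_qmk]; linarith
      refine ⟨2 * g, ?_, ⟨z0, z1, z2, z3, h2g⟩, rfl⟩
      rw [two_mul]
      exact hg.add hg

end Pool.Agent.Helper73.Tor
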