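import Pool.Agent.Helper73.Tor.Torus

open scoped Quaternion RestrictedProduct Topology
open MeasureTheory Topology

noncomputable section

namespace Pool.Agent.Helper73.Tor

section
variable {R : Type} [CommRing R] [Algebra ℚ R] (j : R) (hj : j ^ 2 = -1)

theorem half_mul_two : algebraMap ℚ R (1 / 2) * 2 = 1 := by
  rw [← map_ofNat (algebraMap ℚ R) 2, ← map_mul]
  norm_num

include hj in
theorem normSq_ez (z : Rˣ) :
    Quaternion.normSq (qmk (algebraMap ℚ R (1 / 2) * (z + ↑z⁻¹))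
      (-(algebraMap ℚ R (1 / 2)) * j * (z - ↑z⁻¹)) 0 0) = 1 := by
  rw [Quaternion.normSq_def']
  simp only [re_qmk, imI_qmk, imJ_qmk, imK_qmk]
  have h2 := half_mul_two (R := R)
  have hz : (z : R) * ↑z⁻¹ = 1 := Units.mul_inv z
  set c := algebraMap ℚ R (1 / 2)
  linear_combination (c ^ 2 * (z - ↑z⁻¹) ^ 2) * hj + (4 * c ^ 2) * hz + (2 * c + 1) * h2

/-- The isomorphism between `Rˣ` and the norm one elements of `R[i]`, when `-1` is a square. -/
def ez : Rˣ ≃* Ssub R where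
  toFun z := ⟨G1.of _ (normSq_ez j hj z), fun _ => ⟨rfl, rfl⟩⟩
  invFun s := ⟨s.1.1.re + j * s.1.1.imI, s.1.1.re - j * s.1.1.imI, by
    have h := G1.normSq s.1
    rw [Quaternion.normSq_def', (s.2 rfl).1, (s.2 rfl).2] at h
    linear_combination h - s.1.1.imI ^ 2 * hj, by
    have h := G1.normSq s.1
    rw [Quaternion.normSq_def', (s.2 rfl).1, (s.2 rfl).2] at h
    linear_combination h - s.1.1.imI ^ 2 * hj⟩
  left_inv z := by
    have h2 := half_mul_two (R := R)
    apply Units.ext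
    show algebraMap ℚ R (1 / 2) * (z + ↑z⁻¹) + j * (-(algebraMap ℚ R (1 / 2)) * j * (z - ↑z⁻¹)) = z
    set c := algebraMap ℚ R (1 / 2)
    linear_combination (-(c * (z - ↑z⁻¹))) * hj + (z : R) * h2
  right_inv s := by
    have h2 := half_mul_two (R := R)
    apply Subtype.ext
    apply G1.ext
    refine Quaternion.ext _ _ ?_ ?_ ?_ ?_
    · show algebraMap ℚ R (1 / 2) * ((s.1.1.re + j * s.1.1.imI) + (s.1.1.re - j * s.1.1.imI)) =
        s.1.1.re
      linear_combination s.1.1.re * h2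
    · show -(algebraMap ℚ R (1 / 2)) * j *
        ((s.1.1.re + j * s.1.1.imI) - (s.1.1.re - j * s.1.1.imI)) = s.1.1.imI
      linear_combination s.1.1.imI * h2 - (algebraMap ℚ R (1 / 2) * 2 * s.1.1.imI) * hj
    · exact (s.2 rfl).1.symm
    · exact (s.2 rfl).2.symm
  map_mul' z w := by
    have h2 := half_mul_two (R := R)
    apply Subtype.ext
    apply G1.ext
    rw [Subgroup.coe_mul, G1.val_mul]
    simp only [G1.val_of]
    set c := algebraMap ℚ R (1 / 2)
    rw [mul_inv]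
    refine Quaternion.ext _ _ ?_ ?_ ?_ ?_
    · simp only [Quaternion.re_mul, re_qmk, imI_qmk, imJ_qmk, imK_qmk, Units.val_mul]
      linear_combination (-(c * (z * w + ↑z⁻¹ * ↑w⁻¹))) * h2 +
        (c ^ 2 * (z - ↑z⁻¹) * (w - ↑w⁻¹)) * hj
    · simp only [Quaternion.imI_mul, re_qmk, imI_qmk, imJ_qmk, imK_qmk, Units.val_mul]
      linear_combination (c * j * (z * w - ↑z⁻¹ * ↑w⁻¹)) * h2
    · simp
    · simp

end

theorem isTorus_torus {δ : ℍ[ℚ]} (hδ : δ ≠ 0) (k : ℕ) : (torus hδ k).IsTorus := by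
  obtain ⟨i0, hi0⟩ := IsAlgClosed.exists_pow_nat_eq (-1 : AlgebraicClosure ℚ) (n := 2) (by norm_num)
  have hj : ∀ (R : Type) [CommRing R] [Algebra (AlgebraicClosure ℚ) R],
      (algebraMap (AlgebraicClosure ℚ) R i0) ^ 2 = -1 := by
    intro R _ _
    rw [← map_pow, hi0, map_neg, map_one]
  refine ⟨1, fun R _ _ _ z => theta hδ k R (ez (algebraMap (AlgebraicClosure ℚ) R i0) (hj R) (z 0)),
    ?_, ?_⟩
  · intro R _ _ _
    refine ⟨fun z w => ?_, ?_, ?_⟩
    · show theta hδ k R (ez _ (hj R) ((z * w) 0)) =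
        theta hδ k R (ez _ (hj R) (z 0)) * theta hδ k R (ez _ (hj R) (w 0))
      rw [Pi.mul_apply, map_mul, map_mul]
    · intro z w h
      have h1 := (ez (algebraMap (AlgebraicClosure ℚ) R i0) (hj R)).injective
        (theta_injective hδ k h)
      funext i
      rw [Subsingleton.elim i 0, h1]
    · intro g
      constructor
      · rintro ⟨s, rfl⟩
        obtain ⟨u, rfl⟩ := (ez (algebraMap (AlgebraicClosure ℚ) R i0) (hj R)).surjective s
        exact ⟨fun _ => u, rfl⟩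
      · rintro ⟨z, rfl⟩
        exact ⟨_, rfl⟩
  intro R S _ _ _ _ _ _ f z w hw
  have hw' : w 0 = Units.map (f : R →* S) (z 0) := Units.ext (hw 0)
  show theta hδ k S (ez _ (hj S) (w 0)) =
    G.map (f : R →+* S) (theta hδ k R (ez _ (hj R) (z 0)))
  rw [map_theta, hw']
  congr 1
  apply Subtype.ext
  apply G1.ext
  have hf : ∀ q : ℚ, (f : R →+* S) (algebraMap ℚ R q) = algebraMap ℚ S q :=
    hom_algebraMap_rat (f : R →+* S)
  have hf2 : (f : R →+* S) (algebraMap (AlgebraicClosure ℚ) R i0) =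
    algebraMap (AlgebraicClosure ℚ) S i0 := f.commutes i0
  have hz : (f : R →+* S) ((z 0)⁻¹ : Rˣ) = ((Units.map (f : R →* S) (z 0))⁻¹ : Sˣ) := by
    rw [← map_inv]; rfl
  have hz' : (f : R →+* S) (z 0 : Rˣ) = (Units.map (f : R →* S) (z 0) : Sˣ) := rfl
  refine Quaternion.ext _ _ ?_ ?_ ?_ ?_
  · show _ = (f : R →+* S) (algebraMap ℚ R (1 / 2) * (((z 0 : Rˣ) : R) + ((z 0)⁻¹ : Rˣ)))
    rw [map_mul, map_add, hf, hz, hz']
    rfl
  · show _ = (f : R →+* S) (-(algebraMap ℚ R (1 / 2)) * (algebraMap (AlgebraicClosure ℚ) R i0) *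
      (((z 0 : Rˣ) : R) - ((z 0)⁻¹ : Rˣ)))
    rw [map_mul, map_mul, map_neg, map_sub, hf, hf2, hz, hz']
    rfl
  · exact (map_zero (f : R →+* S)).symm
  · exact (map_zero (f : R →+* S)).symm

end Pool.Agent.Helper73.Tor
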