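import Pool.Agent.Helper73.Tor.Meas

open scoped Quaternion RestrictedProduct Topology
open MeasureTheory Topology

noncomputable section

namespace Pool.Agent.Helper73.Tor

variable {δ : ℍ[ℚ]} (hδ : δ ≠ 0) (k : ℕ)

theorem KS_le_Ssub {x : G1 Adele} (h : x ∈ KS) : x ∈ Ssub Adele := (Subgroup.mem_inf.1 h).1
theorem KS_le_V1 {x : G1 Adele} (h : x ∈ KS) : x ∈ V1 := (Subgroup.mem_inf.1 h).2

/-- the map to `T(𝔸)` -/
def thetaKS (u : KS) : (torus hδ k).pts Adele :=
  ⟨theta hδ k Adele ⟨u.1, KS_le_Ssub u.2⟩, ⟨⟨u.1, KS_le_Ssub u.2⟩, rfl⟩⟩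

theorem continuous_thetaKS : Continuous (thetaKS hδ k) := by
  have h1 : Continuous (fun u : KS => conj hδ Adele u.1) :=
    (continuous_conj hδ).comp continuous_subtype_val
  exact Continuous.subtype_mk (h1.prodMk (h1.pow k)) _

/-- class in `T(𝔸) / T(ℚ)` -/
def toQuot (T : AlgSubgroup) (t : T.pts Adele) : T.Quot :=
  (QuotientGroup.mk t : T.pts Adele ⧸ T.ratPts)

theorem continuous_toQuot (T : AlgSubgroup) : Continuous (toQuot T) := QuotientGroup.continuous_mk

theorem smul_toQuot (T : AlgSubgroup) (s t : T.pts Adele) : s • toQuot T t = toQuot T (s * t) := rfl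

theorem orbitMap_toQuot (T : AlgSubgroup) (g : G Adele) (t : T.pts Adele) :
    T.orbitMap g (toQuot T t) = toX (g * t) := rfl

theorem continuous_orbitMap (T : AlgSubgroup) (g : G Adele) : Continuous (T.orbitMap g) := by
  have hq : IsQuotientMap (toQuot T) := QuotientGroup.isQuotientMap_mk T.ratPts
  rw [hq.continuous_iff]
  exact continuous_toX.comp (continuous_const.mul continuous_subtype_val)

theorem continuous_smul_quot (T : AlgSubgroup) (t : T.pts Adele) :
    Continuous (fun q : T.Quot => t • q) := by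
  have hq : IsQuotientMap (toQuot T) := QuotientGroup.isQuotientMap_mk T.ratPts
  rw [hq.continuous_iff]
  exact (continuous_toQuot T).comp (continuous_const.mul continuous_id)

/-- the invariant measure -/
def nuT : Measure (torus hδ k).Quot := haarKS.map (fun u => toQuot _ (thetaKS hδ k u))

theorem measurable_class : Measurable (fun u : KS => toQuot _ (thetaKS hδ k u)) :=
  ((continuous_toQuot _).comp (continuous_thetaKS hδ k)).measurable

instance : IsProbabilityMeasure (nuT hδ k) :=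
  Measure.isProbabilityMeasure_map (measurable_class hδ k).aemeasurable

theorem nuT_invariant (t : (torus hδ k).pts Adele) :
    (nuT hδ k).map (fun q => t • q) = nuT hδ k := by
  obtain ⟨s, hs⟩ := t.2
  obtain ⟨γ, hγ, hK⟩ := exists_decomp_S s.2
  let u : KS := ⟨s.1 * diag γ, hK⟩
  unfold nuT
  rw [Measure.map_map (continuous_smul_quot _ t).measurable (measurable_class hδ k)]
  have h1 : (fun q => t • q) ∘ (fun v : KS => toQuot _ (thetaKS hδ k v)) =
      (fun v : KS => toQuot _ (thetaKS hδ k v)) ∘ (fun v => u * v) := by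
    funext v
    show t • toQuot _ (thetaKS hδ k v) = toQuot _ (thetaKS hδ k (u * v))
    rw [smul_toQuot]
    refine QuotientGroup.eq.2 ?_
    refine ⟨theta hδ k ℚ ⟨γ, hγ⟩, ⟨⟨γ, hγ⟩, rfl⟩, ?_⟩
    rw [map_theta]
    have h2 : ((t * thetaKS hδ k v)⁻¹ * thetaKS hδ k (u * v) : (torus hδ k).pts Adele) =
        (⟨theta hδ k Adele ⟨diag γ, map_mem_Ssub _ hγ⟩, ⟨_, rfl⟩⟩ : (torus hδ k).pts Adele) := by
      rw [inv_mul_eq_iff_eq_mul]
      apply Subtype.ext
      show theta hδ k Adele ⟨(u * v : KS).1, _⟩ = (t : G Adele) * theta hδ k Adele ⟨v.1, _⟩ *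
        theta hδ k Adele ⟨diag γ, _⟩
      rw [← hs, ← map_mul, ← map_mul]
      congr 1
      apply Subtype.ext
      show s.1 * diag γ * v.1 = s.1 * v.1 * diag γ
      rw [mul_assoc, mul_assoc,
        (Ssub_commute (map_mem_Ssub (algebraMap ℚ Adele) hγ) (KS_le_Ssub v.2)).eq]
    rw [h2]
    rfl
  rw [h1, ← Measure.map_map (measurable_class hδ k) (measurable_const_mul u),
    map_mul_left_eq_self]

/-- the uniform measure -/
def muT : Measure X := (nuT hδ k).map ((torus hδ k).orbitMap 1)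

instance : IsProbabilityMeasure (muT hδ k) :=
  Measure.isProbabilityMeasure_map (continuous_orbitMap _ _).measurable.aemeasurable

theorem isUniform_muT : IsUniform (torus hδ k) 1 (muT hδ k) :=
  ⟨nuT hδ k, inferInstance, nuT_invariant hδ k, rfl⟩

theorem muT_Z (hk : ∀ u ∈ KS, conj hδ Adele (u ^ k) ∈ V3) : muT hδ k Z = 1 := by
  unfold muT
  rw [Measure.map_apply (continuous_orbitMap _ _).measurable isClopen_Z.isOpen.measurableSet]
  unfold nuT
  rw [Measure.map_apply (measurable_class hδ k)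
    ((continuous_orbitMap _ _).measurable isClopen_Z.isOpen.measurableSet)]
  have : (fun u : KS => toQuot _ (thetaKS hδ k u)) ⁻¹' ((torus hδ k).orbitMap 1 ⁻¹' Z) =
      Set.univ := by
    rw [Set.eq_univ_iff_forall]
    intro u
    show (torus hδ k).orbitMap 1 (toQuot _ (thetaKS hδ k u)) ∈ Z
    rw [orbitMap_toQuot, toX_mem_Z]
    refine ⟨1, ?_⟩
    rw [map_one, mul_one]
    show 1 * (conj hδ Adele u.1) ^ k ∈ V3
    rw [one_mul, ← map_pow]
    exact hk u.1 u.2
  rw [this, measure_univ]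

/-- killing of the class group -/
theorem conj_pow_mem {q : ℕ} (hq : Quaternion.normSq δ = q) (hint : IsInt δ)
    (hk : ∀ u ∈ V1, ∃ e ∈ QSub Zhat, qmap toFin (u ^ k).1 = 1 + ((3 * q : ℕ) : ℍ[FinAdele]) * e) :
    ∀ u ∈ KS, conj hδ Adele (u ^ k) ∈ V3 := by
  intro u hu
  obtain ⟨e, he, h⟩ := hk u (KS_le_V1 hu)
  have h1 : qmap toFin (conj hδ Adele (u ^ k)).1 = 1 + 3 * (qι δ * e * star (qι δ)) := by
    rw [val_conj, map_mul, map_mul, qmap_comp, qmap_comp, toFin_comp, h]
    have h2 : qι δ * qι δ⁻¹ = 1 := by rw [← map_mul, mul_inv_cancel₀ hδ, map_one]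
    have h3 : ((q : ℕ) : ℍ[FinAdele]) * qι δ⁻¹ = star (qι δ) := by
      have e1 : δ⁻¹ = (Quaternion.normSq δ)⁻¹ • star δ := rfl
      have hq0 : (q : ℚ) ≠ 0 := by rw [← hq]; exact Quaternion.normSq_ne_zero.2 hδ
      rw [← map_natCast qι q, ← map_mul, ← qmap_star]
      congr 1
      rw [e1, hq, ← Quaternion.coe_natCast, Quaternion.coe_mul_eq_smul, smul_smul,
        mul_inv_cancel₀ hq0, one_smul]
    push_cast
    have h4 : qι δ * (1 + 3 * (q : ℍ[FinAdele]) * e) * qι δ⁻¹ =
        qι δ * qι δ⁻¹ + 3 * (qι δ * e * ((q : ℍ[FinAdele]) * qι δ⁻¹)) := by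
      have c1 : qι δ * (3 * (q : ℍ[FinAdele]) * e) * qι δ⁻¹ =
          3 * (qι δ * e * ((q : ℍ[FinAdele]) * qι δ⁻¹)) := by
        have c2 : (q : ℍ[FinAdele]) * e = e * q := Nat.cast_comm q e
        have c3 : (3 : ℍ[FinAdele]) * (qι δ) = qι δ * 3 := by
          have := Nat.cast_comm 3 (qι δ)
          exact_mod_cast this
        calc qι δ * (3 * (q : ℍ[FinAdele]) * e) * qι δ⁻¹
            = (qι δ * 3) * ((q : ℍ[FinAdele]) * e) * qι δ⁻¹ := by noncomm_ring
          _ = (3 * qι δ) * (e * q) * qι δ⁻¹ := by rw [c2, c3]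
          _ = 3 * (qι δ * e * ((q : ℍ[FinAdele]) * qι δ⁻¹)) := by simp only [mul_assoc]
      rw [mul_add, add_mul, mul_one, c1]
    rw [h4, h2, h3]
  exact mem_V3_of ((QSub Zhat).mul_mem ((QSub Zhat).mul_mem hint.mem he)
    (star_mem_QSub hint.mem)) h1

end Pool.Agent.Helper73.Tor
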