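import Pool.Agent.Helper73.Tor.Axes
import Pool.Agent.Helper73.Tor.Unif
import Pool.Agent.Helper73.Tor.IsTorus
import Pool.Agent.Helper73.Tor.Aniso

open scoped Quaternion RestrictedProduct Topology
open MeasureTheory Topology

noncomputable section

namespace Pool.Agent.Helper73.Tor

theorem cis_mul {v : ℍ[ℝ]} (hv : PU v) (θ φ : ℝ) : cis v θ * cis v φ = cis v (θ + φ) := by
  obtain ⟨h0, h1⟩ := hv
  ext
  · simp only [cis, Quaternion.re_mul, re_qmk, imI_qmk, imJ_qmk, imK_qmk, Real.cos_add]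
    linear_combination (-(Real.sin θ * Real.sin φ)) * h1
  · simp only [cis, Quaternion.imI_mul, re_qmk, imI_qmk, imJ_qmk, imK_qmk, Real.sin_add]
    ring
  · simp only [cis, Quaternion.imJ_mul, re_qmk, imI_qmk, imJ_qmk, imK_qmk, Real.sin_add]
    ring
  · simp only [cis, Quaternion.imK_mul, re_qmk, imI_qmk, imJ_qmk, imK_qmk, Real.sin_add]
    ring

theorem cis_zero (v : ℍ[ℝ]) : cis v 0 = 1 := by
  ext <;> simp [cis]

theorem cis_pow {v : ℍ[ℝ]} (hv : PU v) (θ : ℝ) (k : ℕ) : cis v θ ^ k = cis v (k * θ) := by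
  induction k with
  | zero => simp [cis_zero]
  | succ k ih =>
    rw [pow_succ, ih, cis_mul hv]
    congr 1
    push_cast
    ring

theorem qR_mul (x y : ℍ[ℚ]) : qR ℝ (x * y) = qR ℝ x * qR ℝ y := map_mul _ _ _

theorem PU_qI : PU (qR ℝ qI) := by
  constructor <;> simp [qI]

theorem conj_cis {ε : ℍ[ℚ]} (hε : ε ≠ 0) (θ : ℝ) :
    qR ℝ ε * cis (qR ℝ qI) θ * qR ℝ ε⁻¹ = cis (qR ℝ (ax ε)) θ := by
  have h : ∀ v : ℍ[ℝ], v.re = 0 → cis v θ = ((Real.cos θ : ℝ) : ℍ[ℝ]) + Real.sin θ • v := by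
    intro v hv
    ext <;> simp [cis, hv]
  have e : qR ℝ ε * qR ℝ ε⁻¹ = 1 := by rw [← map_mul, mul_inv_cancel₀ hε, map_one]
  rw [h _ PU_qI.1, h _ (PU_ax hε).1, mul_add, add_mul, mul_smul_comm, smul_mul_assoc, ax, qR_mul,
    qR_mul, ← Quaternion.coe_commutes, mul_assoc _ (qR ℝ ε), e, mul_one]

/-- Consequence of the inclusion of an orbit of the torus in an orbit of `H`. -/
theorem exists_axes {δ : ℍ[ℚ]} (hδ : δ ≠ 0) (k : ℕ) (H : AlgSubgroup) (h : G Adele)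
    (hT : (torus hδ k).orbit 1 ⊆ H.orbit h) :
    ∃ ε ε' : ℍ[ℚ], ε ≠ 0 ∧ ε' ≠ 0 ∧ Quaternion.normSq ε = Quaternion.normSq δ ∧
      Quaternion.normSq ε' = Quaternion.normSq δ ∧
      ∀ (g : G ℝ) (θ : ℝ), g.1.1 = cis (qR ℝ (ax ε)) θ → g.2.1 = cis (qR ℝ (ax ε')) (k * θ) →
        g ∈ H.pts ℝ := by
  obtain ⟨γ, hγ⟩ := exists_conj_mem _ H h hT
  have hne : ∀ x : G1 ℚ, x.1 ≠ 0 := by
    intro x hx
    have := G1.normSq x
    rw [hx, map_zero] at this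
    exact zero_ne_one this
  have hns : ∀ x : G1 ℚ, Quaternion.normSq (x.1 * δ) = Quaternion.normSq δ := by
    intro x
    rw [map_mul, G1.normSq, one_mul]
  have hinv : ∀ x : G1 ℚ, (x.1)⁻¹ = star x.1 := by
    intro x
    have h1 : (x.1)⁻¹ = (Quaternion.normSq x.1)⁻¹ • star x.1 := rfl
    rw [h1, G1.normSq, inv_one, one_smul]
  refine ⟨γ.1.1 * δ, γ.2.1 * δ, mul_ne_zero (hne _) hδ, mul_ne_zero (hne _) hδ, hns _, hns _, ?_⟩
  intro g θ hg1 hg2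
  let s : Ssub ℝ := ⟨G1.of (cis (qR ℝ qI) θ) (normSq_cis PU_qI θ), fun _ => by
    simp [cis, qI]⟩
  have hs := hγ (theta hδ k ℝ s) ⟨s, rfl⟩
  have key : ∀ (x : G1 ℚ) (y : G1 ℝ) (φ : ℝ), y.1 = cis (qR ℝ qI) φ →
      (G1.map (algebraMap ℚ ℝ) x * conj hδ ℝ y * (G1.map (algebraMap ℚ ℝ) x)⁻¹).1 =
        cis (qR ℝ (ax (x.1 * δ))) φ := by
    intro x y φ hy
    rw [← conj_cis (mul_ne_zero (hne x) hδ), ← map_inv, G1.val_mul, G1.val_mul, val_conj,
      G1.val_map, G1.val_map, G1.val_inv, mul_inv_rev, hinv, qR_mul, qR_mul, hy]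
    simp only [mul_assoc]
  convert hs using 1
  refine Prod.ext ?_ ?_
  · apply G1.ext
    rw [hg1]
    exact (key γ.1 s.1 θ rfl).symm
  · apply G1.ext
    rw [hg2]
    have h3 : (s.1 ^ k).1 = cis (qR ℝ qI) (k * θ) := by
      rw [G1.val_pow]
      exact cis_pow PU_qI θ k
    have := key γ.2 (s.1 ^ k) _ h3
    rw [← this, map_pow]
    rfl

/-- Alternative (2) fails. -/
theorem finite_orbit (δ : ℕ → ℍ[ℚ]) (hδ : ∀ i, δ i ≠ 0) (q k : ℕ → ℕ) (hq : ∀ i, (q i).Prime)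
    (hq3 : ∀ i, q i % 4 = 3) (hinj : Function.Injective q)
    (hN : ∀ i, Quaternion.normSq (δ i) = q i) (hk : ∀ i, i < k i) (h : ℕ → G Adele)
    (H : AlgSubgroup) (hH : H.IsProper) :
    {i | (torus (hδ i) (k i)).orbit 1 ⊆ H.orbit (h i)}.Finite := by
  classical
  by_contra hinf
  set I := {i | (torus (hδ i) (k i)).orbit 1 ⊆ H.orbit (h i)} with hI
  have hex : ∀ i, ∃ ε ε' : ℍ[ℚ], i ∈ I → ε ≠ 0 ∧ ε' ≠ 0 ∧ Quaternion.normSq ε = q i ∧
      Quaternion.normSq ε' = q i ∧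
      ∀ (g : G ℝ) (θ : ℝ), g.1.1 = cis (qR ℝ (ax ε)) θ → g.2.1 = cis (qR ℝ (ax ε')) (k i * θ) →
        g ∈ H.pts ℝ := by
    intro i
    by_cases hi : i ∈ I
    · obtain ⟨ε, ε', h1, h2, h3, h4, h5⟩ := exists_axes (hδ i) (k i) H (h i) hi
      rw [hN i] at h3 h4
      exact ⟨ε, ε', fun _ => ⟨h1, h2, h3, h4, h5⟩⟩
    · exact ⟨0, 0, fun h => absurd h hi⟩
  choose ε ε' hε using hex
  obtain ⟨R, _, _, hR⟩ := hH
  refine hR (H.eq_top_of_real ?_ R)
  refine geom (H.pts ℝ) H.isClosed_real I hinf (fun i => qR ℝ (ax (ε i)))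
    (fun i => qR ℝ (ax (ε' i))) k hk ?_ ?_ ?_ ?_
  · intro i hi
    exact PU_ax (hε i hi).1
  · intro i hi
    exact PU_ax (hε i hi).2.1
  · intro i hi j hj hij
    obtain ⟨a1, a2, a3, a4, -⟩ := hε i hi
    obtain ⟨b1, b2, b3, b4, -⟩ := hε j hj
    have hne : q i ≠ q j := fun h => hij (hinj h)
    exact ⟨ip_ax_lt a1 b1 (hq i) (hq j) (hq3 i) hne a3 b3,
      ip_ax_lt a2 b2 (hq i) (hq j) (hq3 i) hne a4 b4⟩
  · intro i hi
    exact (hε i hi).2.2.2.2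

/-- existence of the data -/
theorem exists_data : ∃ (δ : ℕ → ℍ[ℚ]) (_ : ∀ i, δ i ≠ 0) (q k : ℕ → ℕ), (∀ i, (q i).Prime) ∧
    (∀ i, q i % 4 = 3) ∧ Function.Injective q ∧ (∀ i, Quaternion.normSq (δ i) = q i) ∧
    (∀ i, IsInt (δ i)) ∧ (∀ i, i < k i) ∧ ∀ i, ∀ u ∈ V1, ∃ e ∈ QSub Zhat,
      qmap toFin (u ^ k i).1 = 1 + ((3 * q i : ℕ) : ℍ[FinAdele]) * e := by
  have hinf : {p : ℕ | p.Prime ∧ p ≡ 3 [MOD 4]}.Infinite :=
    Nat.infinite_setOfPred_prime_and_modEq (by norm_num) (by norm_num)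
  let f := hinf.natEmbedding
  let q : ℕ → ℕ := fun i => f i
  have hq : ∀ i, (q i).Prime := fun i => (f i).2.1
  have hq3 : ∀ i, q i % 4 = 3 := fun i => (f i).2.2
  have hinj : Function.Injective q := fun i j h => f.injective (Subtype.ext h)
  have hδ : ∀ i, ∃ δ : ℍ[ℚ], Quaternion.normSq δ = q i ∧ IsInt δ := by
    intro i
    obtain ⟨a, b, c, d, h⟩ := Nat.sum_four_squares (q i)
    refine ⟨qmk a b c d, ?_, a, b, c, d, by push_cast; rfl⟩
    rw [Quaternion.normSq_def', re_qmk, imI_qmk, imJ_qmk, imK_qmk]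
    exact_mod_cast h
  choose δ hN hint using hδ
  have hK := fun i => exists_pow_congr (M := 3 * q i) (mul_ne_zero (by norm_num) (hq i).ne_zero)
  choose K₀ hK0 hK using hK
  have hne : ∀ i, δ i ≠ 0 := by
    intro i h0
    have := hN i
    rw [h0, map_zero] at this
    exact (hq i).ne_zero (by exact_mod_cast this.symm)
  refine ⟨δ, hne, q, fun i => K₀ i * (i + 1), hq, hq3, hinj, hN, hint, ?_, ?_⟩
  · intro i
    have := hK0 i
    nlinarith
  · intro i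
    exact hK i _ (dvd_mul_right _ _)

/-- The counterexample. -/
theorem counterexample : ∃ (T : ℕ → AlgSubgroup) (μ : ℕ → Measure X),
    (∀ i, (T i).IsTorus ∧ (T i).IsAnisotropic ∧ IsProbabilityMeasure (μ i) ∧
      IsUniform (T i) 1 (μ i)) ∧
    (∃ ν : Measure X, IsProbabilityMeasure ν ∧ IsWeakLimit μ ν) ∧
    (∀ ν : Measure X, IsWeakLimit μ ν → ∃ x : G Adele, ν.map (fun y => x • y) ≠ ν) ∧
    ∀ (h : ℕ → G Adele) (H : AlgSubgroup), H.IsProper →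
      {i | (T i).orbit 1 ⊆ H.orbit (h i)}.Finite := by
  obtain ⟨δ, hδ, q, k, hq, hq3, hinj, hN, hint, hk, hK⟩ := exists_data
  refine ⟨fun i => torus (hδ i) (k i), fun i => muT (hδ i) (k i), ?_, ?_, ?_, ?_⟩
  · intro i
    exact ⟨isTorus_torus _ _, isAnisotropic_torus _ _, inferInstance, isUniform_muT _ _⟩
  · exact exists_weakLimit _ (fun i => inferInstance)
  · intro ν hν
    apply not_invariant
    · exact measure_clopen_of_weakLimit hν isClopen_univ (fun i => measure_univ)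
    · exact measure_clopen_of_weakLimit hν isClopen_Z
        (fun i => muT_Z _ _ (conj_pow_mem (hδ i) (k i) (hN i) (hint i) (hK i)))
  · intro h H hH
    exact finite_orbit δ hδ q k hq hq3 hinj hN hk h H hH

end Pool.Agent.Helper73.Tor
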