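import Pool.Agent.Helper73.Tor.Clopen

open scoped Quaternion RestrictedProduct Topology
open MeasureTheory Topology

noncomputable section

namespace Pool.Agent.Helper73.Tor

/-- the prime `2` -/
def two : Pr := ⟨2, Nat.prime_two⟩

theorem norm_le_one_of_two {a b : ℚ_[two]} (h : a ^ 2 + b ^ 2 = 1) (ha : ‖2 * a‖ ≤ 1)
    (hb : ‖2 * b‖ ≤ 1) : ‖a‖ ≤ 1 := by
  let A : ℤ_[two] := ⟨2 * a, ha⟩
  let B : ℤ_[two] := ⟨2 * b, hb⟩
  have h1 : A ^ 2 + B ^ 2 = 4 := by
    apply Subtype.ext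
    show (2 * a) ^ 2 + (2 * b) ^ 2 = (4 : ℚ_[two])
    linear_combination 4 * h
  have h2 := congrArg (PadicInt.toZModPow (p := two) 2) h1
  rw [map_add, map_pow, map_pow, map_ofNat] at h2
  have key : ∀ x y : ZMod 4, x ^ 2 + y ^ 2 = 4 → 2 * x = 0 := by decide
  have h3 : 2 * PadicInt.toZModPow (p := two) 2 A = 0 := key _ _ h2
  rw [← map_ofNat (PadicInt.toZModPow (p := two) 2) 2, ← map_mul, ← RingHom.mem_ker,
    PadicInt.ker_toZModPow, ← PadicInt.norm_le_pow_iff_mem_span_pow] at h3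
  have h4 : ‖(2 : ℚ_[two]) * (2 * a)‖ ≤ ((two : ℕ) : ℝ) ^ (-(2 : ℕ) : ℤ) := h3
  have h5 : ‖(2 : ℚ_[two])‖ = 1 / 2 := by
    have := Padic.norm_p (p := two)
    have e : ((two : ℕ) : ℚ_[two]) = 2 := by
      show ((2 : ℕ) : ℚ_[two]) = 2
      norm_num
    rw [e] at this
    rw [this]
    show ((2 : ℕ) : ℝ)⁻¹ = 1 / 2
    norm_num
  rw [norm_mul, norm_mul, h5] at h4
  have h6 : ((two : ℕ) : ℝ) ^ (-(2 : ℕ) : ℤ) = 1 / 4 := by
    show ((2 : ℕ) : ℝ) ^ (-(2 : ℕ) : ℤ) = 1 / 4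
    norm_num
  rw [h6] at h4
  linarith

theorem mem_Zhat_of_half {a b : FinAdele} (h : a ^ 2 + b ^ 2 = 1) (ha : 2 * a ∈ Zhat)
    (hb : 2 * b ∈ Zhat) : a ∈ Zhat := by
  intro p
  have h' : (a p) ^ 2 + (b p) ^ 2 = 1 := congrArg (fun x : FinAdele => x p) h
  have ha' : ‖(2 : ℚ_[p]) * a p‖ ≤ 1 := ha p
  have hb' : ‖(2 : ℚ_[p]) * b p‖ ≤ 1 := hb p
  by_cases hp : p = two
  · subst hp
    exact norm_le_one_of_two h' ha' hb'
  · have h2 : ‖((2 : ℕ) : ℚ_[p])‖ = 1 := by
      rw [Padic.norm_natCast_eq_one_iff]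
      refine (Nat.coprime_primes p.2 Nat.prime_two).2 fun h => hp (Subtype.ext h)
    push_cast at h2
    rw [norm_mul, h2, one_mul] at ha'
    exact ha'

/-- the compact group `S(ℝ) × S(Ẑ)` -/
def KS : Subgroup (G1 Adele) := Ssub Adele ⊓ V1

theorem mem_KS_of {x : G1 Adele} (h1 : x ∈ Ssub Adele) (h2 : x ∈ K1) : x ∈ KS := by
  refine Subgroup.mem_inf.2 ⟨h1, ?_⟩
  obtain ⟨h3, h4⟩ := h1 rfl
  rw [mem_K1] at h2
  obtain ⟨k0, k1, k2, k3⟩ := h2
  have hN := G1.normSq (G1.map toFin x)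
  rw [Quaternion.normSq_def'] at hN
  have e2 : (G1.map toFin x).1.imJ = 0 := by
    show toFin x.1.imJ = 0
    rw [h3, map_zero]
  have e3 : (G1.map toFin x).1.imK = 0 := by
    show toFin x.1.imK = 0
    rw [h4, map_zero]
  change (G1.map toFin x).1.re ^ 2 + (G1.map toFin x).1.imI ^ 2 + (G1.map toFin x).1.imJ ^ 2 +
    (G1.map toFin x).1.imK ^ 2 = 1 at hN
  have hN' : (toFin x.1.re) ^ 2 + (toFin x.1.imI) ^ 2 = 1 := by
    rw [e2, e3] at hN
    have hN2 : (toFin x.1.re) ^ 2 + (toFin x.1.imI) ^ 2 + 0 ^ 2 + 0 ^ 2 = 1 := hN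
    linear_combination hN2
  have j0 : 2 * toFin x.1.re ∈ Zhat := by
    have : (2 * qmap toFin x.1).re = 2 * toFin x.1.re := by
      rw [two_mul, two_mul]; rfl
    rw [← this]; exact k0
  have j1 : 2 * toFin x.1.imI ∈ Zhat := by
    have : (2 * qmap toFin x.1).imI = 2 * toFin x.1.imI := by
      rw [two_mul, two_mul]; rfl
    rw [← this]; exact k1
  rw [mem_V1]
  refine ⟨mem_Zhat_of_half hN' j0 j1, mem_Zhat_of_half (by rw [add_comm]; exact hN') j1 j0, ?_, ?_⟩
  · show toFin x.1.imJ ∈ Zhat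
    rw [h3, map_zero]; exact Zhat.zero_mem
  · show toFin x.1.imK ∈ Zhat
    rw [h4, map_zero]; exact Zhat.zero_mem

theorem exists_decomp_S {x : G1 Adele} (hx : x ∈ Ssub Adele) :
    ∃ γ : G1 ℚ, γ ∈ Ssub ℚ ∧ x * diag γ ∈ KS := by
  obtain ⟨γ, h1, h2⟩ := exists_decomp (b := true) x (InC.qmap toFin hx)
  exact ⟨γ, h1, mem_KS_of ((Ssub Adele).mul_mem hx (map_mem_Ssub _ h1)) h2⟩

theorem V1_subset_K1 : (V1 : Set (G1 Adele)) ⊆ K1 := by
  intro x hx
  rw [mem_K1, two_mul]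
  exact (QSub Zhat).add_mem hx hx

theorem isCompact_KS : IsCompact (KS : Set (G1 Adele)) := by
  have h1 : IsClosed (V1 : Set (G1 Adele)) := Subgroup.isClosed_of_isOpen V1 isOpen_V1
  have h2 : IsClosed (Ssub Adele : Set (G1 Adele)) := by
    have : (Ssub Adele : Set (G1 Adele)) = {x | x.1.imJ = 0} ∩ {x | x.1.imK = 0} := by
      ext x
      constructor
      · intro h
        exact h rfl
      · intro h _
        exact h
    rw [this]
    exact (isClosed_eq G1.continuous_imJ continuous_const).inter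
      (isClosed_eq G1.continuous_imK continuous_const)
  exact isCompact_K1.of_isClosed_subset (h2.inter h1)
    (Set.inter_subset_right.trans V1_subset_K1)

instance : CompactSpace KS := isCompact_iff_compactSpace.1 isCompact_KS

instance : MeasurableSpace KS := borel KS
instance : BorelSpace KS := ⟨rfl⟩

/-- the Haar probability measure of `KS` -/
def haarKS : Measure KS := Measure.haarMeasure ⊤

instance : IsProbabilityMeasure haarKS := ⟨by
  have := Measure.haarMeasure_self (K₀ := (⊤ : TopologicalSpace.PositiveCompacts KS))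
  exact this⟩

instance : Measure.IsMulLeftInvariant haarKS :=
  inferInstanceAs (Measure.IsMulLeftInvariant (Measure.haarMeasure ⊤))

theorem continuous_conj {δ : ℍ[ℚ]} (hδ : δ ≠ 0) : Continuous (conj hδ Adele) := by
  have c0 := G1.continuous_re (R := Adele)
  have c1 := G1.continuous_imI (R := Adele)
  have c2 := G1.continuous_imJ (R := Adele)
  have c3 := G1.continuous_imK (R := Adele)
  apply G1.continuous_rng
  · simp only [val_conj, Quaternion.re_mul, Quaternion.imI_mul, Quaternion.imJ_mul,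
      Quaternion.imK_mul]
    fun_prop
  · simp only [val_conj, Quaternion.re_mul, Quaternion.imI_mul, Quaternion.imJ_mul,
      Quaternion.imK_mul]
    fun_prop
  · simp only [val_conj, Quaternion.re_mul, Quaternion.imI_mul, Quaternion.imJ_mul,
      Quaternion.imK_mul]
    fun_prop
  · simp only [val_conj, Quaternion.re_mul, Quaternion.imI_mul, Quaternion.imJ_mul,
      Quaternion.imK_mul]
    fun_prop

end Pool.Agent.Helper73.Tor
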