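import Pool.Agent.Helper73.Tor.Zariski

open scoped Quaternion RestrictedProduct Topology
open MeasureTheory Topology

noncomputable section

namespace Pool.Agent.Helper73.Tor

/-- the points with values in `R[i]` -/
def Ssub (R : Type) [CommRing R] : Subgroup (G1 R) where
  carrier := {x | InC true x.1}
  mul_mem' hx hy := InC.mul hx hy
  one_mem' := fun _ => ⟨rfl, rfl⟩
  inv_mem' hx := InC.star hx

theorem mem_Ssub {R : Type} [CommRing R] {x : G1 R} : x ∈ Ssub R ↔ InC true x.1 := Iff.rfl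

theorem Ssub_commute {R : Type} [CommRing R] {x y : G1 R} (hx : x ∈ Ssub R) (hy : y ∈ Ssub R) :
    Commute x y := by
  obtain ⟨h1, h2⟩ := hx rfl
  obtain ⟨h3, h4⟩ := hy rfl
  apply G1.ext
  show x.1 * y.1 = y.1 * x.1
  ext
  · simp [h1, h2, h3, h4]; ring
  · simp [h1, h2, h3, h4]; ring
  · simp [h1, h2, h3, h4]
  · simp [h1, h2, h3, h4]

theorem map_mem_Ssub {R S : Type} [CommRing R] [CommRing S] (f : R →+* S) {x : G1 R}
    (hx : x ∈ Ssub R) : G1.map f x ∈ Ssub S := InC.qmap f hx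

section conj

/-- the image in `ℍ[R]` of a rational quaternion -/
abbrev qR (R : Type) [CommRing R] [Algebra ℚ R] (δ : ℍ[ℚ]) : ℍ[R] := qmap (algebraMap ℚ R) δ

theorem normSq_conj {δ : ℍ[ℚ]} (hδ : δ ≠ 0) {R : Type} [CommRing R] [Algebra ℚ R] (x : G1 R) :
    Quaternion.normSq (qR R δ * x.1 * qR R δ⁻¹) = 1 := by
  rw [map_mul, map_mul, G1.normSq, mul_one, ← map_mul, ← map_mul, mul_inv_cancel₀ hδ, map_one,
    map_one]

/-- Conjugation by a nonzero rational quaternion. -/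
def conj {δ : ℍ[ℚ]} (hδ : δ ≠ 0) (R : Type) [CommRing R] [Algebra ℚ R] : G1 R →* G1 R where
  toFun x := G1.of (qR R δ * x.1 * qR R δ⁻¹) (normSq_conj hδ x)
  map_one' := by
    apply G1.ext
    simp only [G1.val_of, G1.val_one, mul_one]
    rw [← map_mul, mul_inv_cancel₀ hδ, map_one]
  map_mul' x y := by
    apply G1.ext
    simp only [G1.val_of, G1.val_mul]
    have h : qR R δ⁻¹ * qR R δ = 1 := by rw [← map_mul, inv_mul_cancel₀ hδ, map_one]
    calc qR R δ * (x.1 * y.1) * qR R δ⁻¹ = qR R δ * x.1 * 1 * y.1 * qR R δ⁻¹ := by noncomm_ring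
      _ = qR R δ * x.1 * qR R δ⁻¹ * (qR R δ * y.1 * qR R δ⁻¹) := by rw [← h]; noncomm_ring

variable {δ : ℍ[ℚ]} (hδ : δ ≠ 0) {R S : Type} [CommRing R] [Algebra ℚ R] [CommRing S] [Algebra ℚ S]

theorem val_conj (x : G1 R) : (conj hδ R x).1 = qR R δ * x.1 * qR R δ⁻¹ := rfl

theorem conj_inv_conj (x : G1 R) : conj (inv_ne_zero hδ) R (conj hδ R x) = x := by
  apply G1.ext
  rw [val_conj, val_conj, inv_inv]
  have h : qR R δ⁻¹ * qR R δ = 1 := by rw [← map_mul, inv_mul_cancel₀ hδ, map_one]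
  calc qR R δ⁻¹ * (qR R δ * x.1 * qR R δ⁻¹) * qR R δ
      = (qR R δ⁻¹ * qR R δ) * x.1 * (qR R δ⁻¹ * qR R δ) := by noncomm_ring
    _ = x.1 := by rw [h, one_mul, mul_one]

theorem conj_conj_inv (x : G1 R) : conj hδ R (conj (inv_ne_zero hδ) R x) = x := by
  apply G1.ext
  rw [val_conj, val_conj, inv_inv]
  have h : qR R δ * qR R δ⁻¹ = 1 := by rw [← map_mul, mul_inv_cancel₀ hδ, map_one]
  calc qR R δ * (qR R δ⁻¹ * x.1 * qR R δ) * qR R δ⁻¹
      = (qR R δ * qR R δ⁻¹) * x.1 * (qR R δ * qR R δ⁻¹) := by noncomm_ring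
    _ = x.1 := by rw [h, one_mul, mul_one]

theorem conj_injective : Function.Injective (conj hδ R) := by
  intro x y h
  rw [← conj_inv_conj hδ x, h, conj_inv_conj]

theorem qmap_qR (f : R →+* S) (q : ℍ[ℚ]) : qmap f (qR R q) = qR S q := by
  rw [qmap_comp, comp_algebraMap_rat]

theorem map_conj (f : R →+* S) (x : G1 R) : G1.map f (conj hδ R x) = conj hδ S (G1.map f x) := by
  apply G1.ext
  rw [G1.val_map, val_conj, val_conj, map_mul, map_mul, qmap_qR, qmap_qR, G1.val_map]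

/-- the parametrisation `s ↦ (δ s δ⁻¹, (δ s δ⁻¹) ^ k)` -/
def theta (k : ℕ) (R : Type) [CommRing R] [Algebra ℚ R] : Ssub R →* G R where
  toFun s := (conj hδ R s, conj hδ R s ^ k)
  map_one' := by simp
  map_mul' s t := by
    refine Prod.ext ?_ ?_
    · simp
    · simp only [Subgroup.coe_mul, map_mul, Prod.snd_mul]
      exact ((Ssub_commute s.2 t.2).map (conj hδ R)).mul_pow k

theorem theta_apply (k : ℕ) (s : Ssub R) : theta hδ k R s = (conj hδ R s, conj hδ R s ^ k) := rfl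

theorem theta_injective (k : ℕ) : Function.Injective (theta hδ k R) := by
  intro s t h
  exact Subtype.ext (conj_injective hδ (congrArg Prod.fst h))

theorem map_theta (k : ℕ) (f : R →+* S) (s : Ssub R) :
    G.map f (theta hδ k R s) = theta hδ k S ⟨G1.map f s, map_mem_Ssub f s.2⟩ := by
  refine Prod.ext ?_ ?_
  · simp only [theta_apply, G.map_fst, map_conj]
  · simp only [theta_apply, G.map_snd, map_pow, map_conj]

/-- polynomials -/
abbrev P8 : Type := MvPolynomial (Fin 2 × Fin 4) ℚ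

/-- generic quaternions -/
def genq (m : Fin 2) : ℍ[P8] :=
  qmk (MvPolynomial.X (m, 0)) (MvPolynomial.X (m, 1)) (MvPolynomial.X (m, 2))
    (MvPolynomial.X (m, 3))

/-- the torus `{(δ s δ⁻¹, (δ s δ⁻¹) ^ k)}` -/
def torus (k : ℕ) : AlgSubgroup where
  eqs := {(qR P8 δ⁻¹ * genq 0 * qR P8 δ).imJ, (qR P8 δ⁻¹ * genq 0 * qR P8 δ).imK,
    (genq 1 - genq 0 ^ k).re, (genq 1 - genq 0 ^ k).imI, (genq 1 - genq 0 ^ k).imJ,
    (genq 1 - genq 0 ^ k).imK}
  pts R := (theta hδ k R).range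
  mem_pts R _ _ g := by
    let e : P8 →+* R := (MvPolynomial.aeval (coord g) : P8 →ₐ[ℚ] R).toRingHom
    have he : ∀ p, MvPolynomial.aeval (coord g) p = e p := fun p => rfl
    have h0 : qmap e (genq 0) = g.1.1 := by
      ext <;> simp [genq, e] <;> rfl
    have h1 : qmap e (genq 1) = g.2.1 := by
      ext <;> simp [genq, e] <;> rfl
    have h2 : qmap e (qR P8 δ⁻¹ * genq 0 * qR P8 δ) = (conj (inv_ne_zero hδ) R g.1).1 := by
      rw [map_mul, map_mul, qmap_qR, qmap_qR, h0, val_conj, inv_inv]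
    have h3 : qmap e (genq 1 - genq 0 ^ k) = g.2.1 - (g.1 ^ k).1 := by
      rw [map_sub, map_pow, h0, h1, G1.val_pow]
    simp only [Set.mem_insert_iff, Set.mem_singleton_iff, forall_eq_or_imp, forall_eq, he]
    rw [← re_qmap e, ← imI_qmap e, ← imJ_qmap e, ← imJ_qmap e, ← imK_qmap e, ← imK_qmap e, h2, h3]
    constructor
    · rintro ⟨s, rfl⟩
      rw [theta_apply]
      simp only
      rw [conj_inv_conj]
      obtain ⟨h4, h5⟩ := s.2 rfl
      refine ⟨h4, h5, ?_, ?_, ?_, ?_⟩ <;> simp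
    · rintro ⟨h4, h5, h6, h7, h8, h9⟩
      have h10 : g.2 = g.1 ^ k := by
        apply G1.ext
        rw [← sub_eq_zero]
        exact Quaternion.ext _ _ h6 h7 h8 h9
      refine ⟨⟨conj (inv_ne_zero hδ) R g.1, fun _ => ⟨h4, h5⟩⟩, ?_⟩
      rw [theta_apply]
      refine Prod.ext ?_ ?_
      · exact conj_conj_inv hδ g.1
      · simp only
        rw [conj_conj_inv hδ g.1, h10]

theorem torus_pts (k : ℕ) : (torus hδ k).pts R = (theta hδ k R).range := rfl

end conj

end Pool.Agent.Helper73.Tor
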