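import Pool.Agent.Helper73.Tor.Space
import Pool.Agent.Helper73.Tor.Torus

open scoped Quaternion RestrictedProduct Topology
open MeasureTheory Topology

noncomputable section

namespace Pool.Agent.Helper73.Tor

/-- component at `p` -/
def evalZ (p : Pr) : Zhat →+* ℤ_[p] where
  toFun a := ⟨a.1 p, a.2 p⟩
  map_one' := rfl
  map_mul' _ _ := rfl
  map_zero' := rfl
  map_add' _ _ := rfl

/-- reduction -/
def red (p : Pr) (n : ℕ) : Zhat →+* ZMod ((p : ℕ) ^ n) :=
  (PadicInt.toZModPow n).comp (evalZ p)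

theorem red_eq_zero_iff {p : Pr} {n : ℕ} {a : Zhat} :
    red p n a = 0 ↔ ‖(a : FinAdele) p‖ ≤ ((p : ℕ) : ℝ) ^ (-n : ℤ) := by
  have h1 : red p n a = 0 ↔ evalZ p a ∈ RingHom.ker (PadicInt.toZModPow (p := p) n) :=
    (RingHom.mem_ker).symm
  rw [h1, PadicInt.ker_toZModPow, ← PadicInt.norm_le_pow_iff_mem_span_pow]
  rfl

/-- the integral finite part -/
def toZq (x : G1 Adele) (h : x ∈ V1) : ℍ[Zhat] :=
  qmk ⟨(x.1.re).2, h.1⟩ ⟨(x.1.imI).2, h.2.1⟩ ⟨(x.1.imJ).2, h.2.2.1⟩ ⟨(x.1.imK).2, h.2.2.2⟩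

theorem qmap_subtype_injective : Function.Injective (qmap Zhat.subtype) := by
  intro x y h
  have h0 := congrArg QuaternionAlgebra.re h
  have h1 := congrArg QuaternionAlgebra.imI h
  have h2 := congrArg QuaternionAlgebra.imJ h
  have h3 := congrArg QuaternionAlgebra.imK h
  exact Quaternion.ext _ _ (Subtype.ext h0) (Subtype.ext h1) (Subtype.ext h2) (Subtype.ext h3)

theorem qmap_toZq (x : G1 Adele) (h : x ∈ V1) : qmap Zhat.subtype (toZq x h) = qmap toFin x.1 := rfl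

theorem normSq_toZq (x : G1 Adele) (h : x ∈ V1) : Quaternion.normSq (toZq x h) = 1 := by
  apply Subtype.ext
  have h1 := normSq_qmap Zhat.subtype (toZq x h)
  rw [qmap_toZq, normSq_qmap, G1.normSq, map_one] at h1
  exact h1.symm

/-- the integral finite part -/
def toZ : V1 →* G1 Zhat where
  toFun x := G1.of (toZq x.1 x.2) (normSq_toZq x.1 x.2)
  map_one' := rfl
  map_mul' x y := by
    apply G1.ext
    apply qmap_subtype_injective
    rw [G1.val_mul, map_mul]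
    simp only [G1.val_of, qmap_toZq]
    rw [Subgroup.coe_mul, G1.val_mul, map_mul]

theorem qmap_toZ (x : V1) : qmap Zhat.subtype (toZ x).1 = qmap toFin x.1.1 := rfl

instance (m : ℕ) [NeZero m] : Finite (G1 (ZMod m)) := Finite.of_injective _ G1.coord_injective

theorem exists_pow_congr {M : ℕ} (hM : M ≠ 0) : ∃ K₀ : ℕ, 0 < K₀ ∧ ∀ k, K₀ ∣ k →
    ∀ u ∈ V1, ∃ e ∈ QSub Zhat, qmap toFin (u ^ k).1 = 1 + (M : ℍ[FinAdele]) * e := by
  classical
  let c : ℕ → ℕ := fun p => Nat.card (G1 (ZMod (p ^ M.factorization p)))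
  have hc : ∀ p ∈ M.primeFactors, 0 < c p := by
    intro p hp
    have hp' := Nat.prime_of_mem_primeFactors hp
    have : NeZero (p ^ M.factorization p) := ⟨pow_ne_zero _ hp'.ne_zero⟩
    exact Nat.card_pos
  refine ⟨∏ p ∈ M.primeFactors, c p, Finset.prod_pos hc, fun k hk u hu => ?_⟩
  have hMQ : (M : ℚ) ≠ 0 := by exact_mod_cast hM
  -- the coordinates of `u ^ k - 1`
  set y : ℍ[FinAdele] := qmap toFin (u ^ k).1 - 1 with hy
  have hyV : (u ^ k) ∈ V1 := V1.pow_mem hu k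
  have hyint : y ∈ QSub Zhat := (QSub Zhat).sub_mem hyV (QSub Zhat).one_mem
  have hnorm : ∀ p : Pr, ‖y.re p‖ ≤ ‖(M : ℚ_[p])‖ ∧ ‖y.imI p‖ ≤ ‖(M : ℚ_[p])‖ ∧
      ‖y.imJ p‖ ≤ ‖(M : ℚ_[p])‖ ∧ ‖y.imK p‖ ≤ ‖(M : ℚ_[p])‖ := by
    intro p
    by_cases hp : (p : ℕ) ∈ M.primeFactors
    · have hM' : (M : ℚ_[p]) ≠ 0 := by exact_mod_cast hM
      have h5 : ‖(M : ℚ_[p])‖ = ((p : ℕ) : ℝ) ^ (-(M.factorization p : ℤ)) := by
        rw [Padic.norm_eq_zpow_neg_valuation hM', Padic.valuation_natCast,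
          Nat.factorization_def _ p.2]
      have : NeZero ((p : ℕ) ^ M.factorization p) := ⟨pow_ne_zero _ p.2.ne_zero⟩
      have h6 : G1.map (red p (M.factorization p)) (toZ ⟨u ^ k, hyV⟩) = 1 := by
        have : (⟨u ^ k, hyV⟩ : V1) = (⟨u, hu⟩ : V1) ^ k := rfl
        rw [this, map_pow, map_pow]
        obtain ⟨m, hm⟩ := (Finset.dvd_prod_of_mem c hp).trans hk
        rw [hm, pow_mul]
        have : (G1.map (red p (M.factorization p)) (toZ ⟨u, hu⟩)) ^ (c p) = 1 := pow_card_eq_one'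
        rw [this, one_pow]
      have h7 : qmap (red p (M.factorization p)) ((toZ ⟨u ^ k, hyV⟩).1 - 1) = 0 := by
        rw [map_sub, map_one, sub_eq_zero]
        exact congrArg (fun z : G1 _ => z.1) h6
      rw [h5]
      have key : ∀ a : Zhat, red p (M.factorization p) a = 0 →
          ‖(a : FinAdele) p‖ ≤ ((p : ℕ) : ℝ) ^ (-(M.factorization p : ℤ)) :=
        fun a h => red_eq_zero_iff.1 h
      exact ⟨key _ (congrArg QuaternionAlgebra.re h7), key _ (congrArg QuaternionAlgebra.imI h7),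
        key _ (congrArg QuaternionAlgebra.imJ h7), key _ (congrArg QuaternionAlgebra.imK h7)⟩
    · have h1 : ‖(M : ℚ_[p])‖ = 1 := by
        rw [Padic.norm_natCast_eq_one_iff]
        rw [Nat.mem_primeFactors] at hp
        exact (Nat.Prime.coprime_iff_not_dvd p.2).2 fun h => hp ⟨p.2, h, hM⟩
      rw [h1]
      exact ⟨hyint.1 p, hyint.2.1 p, hyint.2.2.1 p, hyint.2.2.2 p⟩
  refine ⟨algebraMap ℚ FinAdele ((M : ℚ)⁻¹) • y, ?_, ?_⟩
  · have key : ∀ a : FinAdele, (∀ p : Pr, ‖a p‖ ≤ ‖(M : ℚ_[p])‖) →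
        algebraMap ℚ FinAdele ((M : ℚ)⁻¹) * a ∈ Zhat := by
      intro a ha p
      have hM' : (M : ℚ_[p]) ≠ 0 := by exact_mod_cast hM
      rw [RestrictedProduct.mul_apply, algebraMap_finAdele_apply]
      push_cast
      rw [norm_mul, norm_inv, inv_mul_le_iff₀ (norm_pos_iff.2 hM'), mul_one]
      exact ha p
    exact ⟨key _ fun p => (hnorm p).1, key _ fun p => (hnorm p).2.1,
      key _ fun p => (hnorm p).2.2.1, key _ fun p => (hnorm p).2.2.2⟩
  · rw [← Quaternion.coe_natCast, Quaternion.coe_mul_eq_smul, smul_smul,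
      ← map_natCast (algebraMap ℚ FinAdele) M, ← map_mul, mul_inv_cancel₀ hMQ, map_one, one_smul,
      hy]
    abel

end Pool.Agent.Helper73.Tor
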