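import Pool.Agent.Helper73.Tor.Class

open scoped Quaternion RestrictedProduct Topology
open MeasureTheory Topology

noncomputable section

namespace Pool.Agent.Helper73.Tor

/-- unit pure quaternions -/
def PU (v : ℍ[ℝ]) : Prop := v.re = 0 ∧ v.imI ^ 2 + v.imJ ^ 2 + v.imK ^ 2 = 1

/-- inner product of pure quaternions -/
def ip (x y : ℍ[ℝ]) : ℝ := x.imI * y.imI + x.imJ * y.imJ + x.imK * y.imK

theorem ip_comm (x y : ℍ[ℝ]) : ip x y = ip y x := by unfold ip; ring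

/-- the circle subgroup with axis `v` is contained in `K` -/
def InAx (K : Subgroup (G1 ℝ)) (v : ℍ[ℝ]) : Prop :=
  PU v ∧ ∀ (x : G1 ℝ) (s t : ℝ), x.1 = qmk s (t * v.imI) (t * v.imJ) (t * v.imK) → x ∈ K

theorem exists_circ {v : ℍ[ℝ]} (hv : PU v) {s t : ℝ} (h : s ^ 2 + t ^ 2 = 1) :
    ∃ x : G1 ℝ, x.1 = qmk s (t * v.imI) (t * v.imJ) (t * v.imK) := by
  refine ⟨G1.of (qmk s (t * v.imI) (t * v.imJ) (t * v.imK)) ?_, rfl⟩
  rw [Quaternion.normSq_def']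
  simp only [re_qmk, imI_qmk, imJ_qmk, imK_qmk]
  linear_combination h + t ^ 2 * hv.2

theorem InAx.neg {K : Subgroup (G1 ℝ)} {v : ℍ[ℝ]} (h : InAx K v) : InAx K (-v) := by
  refine ⟨⟨by simp [h.1.1], by simpa using h.1.2⟩, fun x s t hx => ?_⟩
  apply h.2 x s (-t)
  rw [hx]
  simp

/-- conjugation -/
theorem InAx.conj {K : Subgroup (G1 ℝ)} {v w : ℍ[ℝ]} (h : InAx K v) {k : G1 ℝ} (hk : k ∈ K)
    (hw : PU w) (hkw : k.1 * v = w * k.1) : InAx K w := by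
  refine ⟨hw, fun x s t hx => ?_⟩
  have h1 : (k⁻¹ * x * k).1 = qmk s (t * v.imI) (t * v.imJ) (t * v.imK) := by
    rw [G1.val_mul, G1.val_mul, G1.val_inv]
    have e1 : x.1 = (s : ℍ[ℝ]) + t • w := by
      rw [hx]
      ext <;> simp [hw.1]
    have e2 : qmk s (t * v.imI) (t * v.imJ) (t * v.imK) = (s : ℍ[ℝ]) + t • v := by
      ext <;> simp [h.1.1]
    have e3 : star k.1 * k.1 = 1 := (Unitary.mem_iff.1 k.2).1
    have h5 : ((s : ℍ[ℝ]) + t • w) * k.1 = k.1 * ((s : ℍ[ℝ]) + t • v) := by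
      rw [add_mul, mul_add, smul_mul_assoc, ← hkw, mul_smul_comm, Quaternion.coe_commutes]
    rw [e1, e2, mul_assoc, h5, ← mul_assoc, e3, one_mul]
  have h2 := h.2 _ s t h1
  have h3 : x = k * (k⁻¹ * x * k) * k⁻¹ := by group
  rw [h3]
  exact K.mul_mem (K.mul_mem hk h2) (K.inv_mem hk)

/-- elements of the circle normalised -/
theorem InAx.exists_of_span {K : Subgroup (G1 ℝ)} {y : ℍ[ℝ]} (h : InAx K y) {a b : ℝ}
    (hab : 0 < a ^ 2 + b ^ 2) :
    ∃ k ∈ K, ∃ r : ℝ, r ≠ 0 ∧ k.1 = r • ((a : ℍ[ℝ]) + b • y) := by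
  set N := a ^ 2 + b ^ 2 with hN
  have hs : Real.sqrt N ^ 2 = N := Real.sq_sqrt hab.le
  have hs0 : Real.sqrt N ≠ 0 := (Real.sqrt_pos.2 hab).ne'
  obtain ⟨k, hk⟩ := exists_circ h.1 (s := a / Real.sqrt N) (t := b / Real.sqrt N) (by
    rw [div_pow, div_pow, ← add_div, hs, ← hN, div_self hab.ne'])
  refine ⟨k, h.2 k _ _ hk, (Real.sqrt N)⁻¹, inv_ne_zero hs0, ?_⟩
  rw [hk]
  ext
  · simp [h.1.1]; ring
  · simp; ring
  · simp; ring
  · simp; ring

/-- `K` contains all circles with axes obtained by rotating about `y` -/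
theorem InAx.rotate {K : Subgroup (G1 ℝ)} {x x' y : ℍ[ℝ]} (hy : InAx K y) (hx : InAx K x)
    (hx' : PU x') (h : ip x y = ip x' y) : InAx K x' := by
  obtain ⟨hx0, hx1⟩ := hx.1
  obtain ⟨hy0, hy1⟩ := hy.1
  obtain ⟨hx'0, hx'1⟩ := hx'
  unfold ip at h
  -- E = y x - x' y
  set e1 := y.imJ * (x.imK + x'.imK) - y.imK * (x.imJ + x'.imJ) with he1
  set e2 := y.imK * (x.imI + x'.imI) - y.imI * (x.imK + x'.imK) with he2
  set e3 := y.imI * (x.imJ + x'.imJ) - y.imJ * (x.imI + x'.imI) with he3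
  have key : ∀ (k : G1 ℝ), k ∈ K → ∀ a b : ℝ, (∃ r : ℝ, r ≠ 0 ∧ k.1 = r • ((a : ℍ[ℝ]) + b • y)) →
      a * (x.imI - x'.imI) + b * e1 = 0 → a * (x.imJ - x'.imJ) + b * e2 = 0 →
      a * (x.imK - x'.imK) + b * e3 = 0 → InAx K x' := by
    rintro k hk a b ⟨r, hr, hkr⟩ h1 h2 h3
    apply hx.conj hk ⟨hx'0, hx'1⟩
    rw [hkr, smul_mul_assoc, mul_smul_comm]
    congr 1
    ext
    · simp [hx0, hy0, hx'0]
      linear_combination (-b) * h
    · simp [hx0, hy0, hx'0]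
      linear_combination h1
    · simp [hx0, hy0, hx'0]
      linear_combination h2
    · simp [hx0, hy0, hx'0]
      linear_combination h3
  by_cases hE : e1 ^ 2 + e2 ^ 2 + e3 ^ 2 = 0
  · have k1 : e1 = 0 := by nlinarith [sq_nonneg e1, sq_nonneg e2, sq_nonneg e3]
    have k2 : e2 = 0 := by nlinarith [sq_nonneg e1, sq_nonneg e2, sq_nonneg e3]
    have k3 : e3 = 0 := by nlinarith [sq_nonneg e1, sq_nonneg e2, sq_nonneg e3]
    obtain ⟨k, hk, hr⟩ := hy.exists_of_span (a := 0) (b := 1) (by norm_num)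
    exact key k hk 0 1 hr (by rw [k1]; ring) (by rw [k2]; ring) (by rw [k3]; ring)
  · have hpos : 0 < e1 ^ 2 + e2 ^ 2 + e3 ^ 2 := lt_of_le_of_ne (by positivity) (Ne.symm hE)
    set d := (x.imI - x'.imI) * e1 + (x.imJ - x'.imJ) * e2 + (x.imK - x'.imK) * e3 with hd
    obtain ⟨k, hk, hr⟩ := hy.exists_of_span (a := e1 ^ 2 + e2 ^ 2 + e3 ^ 2) (b := -d)
      (by positivity)
    -- the vectors D and E are parallel
    have c1 : (x.imJ - x'.imJ) * e3 - (x.imK - x'.imK) * e2 = 0 := by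
      rw [he2, he3]
      linear_combination (y.imI) * (hx1 - hx'1) - (x.imI + x'.imI) * h
    have c2 : (x.imK - x'.imK) * e1 - (x.imI - x'.imI) * e3 = 0 := by
      rw [he1, he3]
      linear_combination (y.imJ) * (hx1 - hx'1) - (x.imJ + x'.imJ) * h
    have c3 : (x.imI - x'.imI) * e2 - (x.imJ - x'.imJ) * e1 = 0 := by
      rw [he1, he2]
      linear_combination (y.imK) * (hx1 - hx'1) - (x.imK + x'.imK) * h
    refine key k hk _ _ hr ?_ ?_ ?_
    · rw [hd]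
      linear_combination e2 * c3 - e3 * c2
    · rw [hd]
      linear_combination e3 * c1 - e1 * c3
    · rw [hd]
      linear_combination e1 * c2 - e2 * c1

theorem InAx.exists_ip {K : Subgroup (G1 ℝ)} {x y : ℍ[ℝ]} (hx : InAx K x) (hy : InAx K y)
    {β : ℝ} (hβ : -1 ≤ β) (hβ' : β ≤ 1) :
    ∃ y', InAx K y' ∧ ip y' y = (ip x y) ^ 2 * (1 - β) + β := by
  obtain ⟨hx0, hx1⟩ := hx.1
  obtain ⟨hy0, hy1⟩ := hy.1
  set c := ip x y with hc
  have hc' : c = x.imI * y.imI + x.imJ * y.imJ + x.imK * y.imK := rfl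
  set g := Real.sqrt (1 - β ^ 2) with hg
  have hg2 : g ^ 2 = 1 - β ^ 2 := Real.sq_sqrt (by nlinarith)
  let y' : ℍ[ℝ] := qmk 0
    (c * (1 - β) * x.imI + β * y.imI + g * (x.imJ * y.imK - x.imK * y.imJ))
    (c * (1 - β) * x.imJ + β * y.imJ + g * (x.imK * y.imI - x.imI * y.imK))
    (c * (1 - β) * x.imK + β * y.imK + g * (x.imI * y.imJ - x.imJ * y.imI))
  have hip : ip y' x = c := by
    simp only [ip, y', imI_qmk, imJ_qmk, imK_qmk]
    linear_combination (c * (1 - β)) * hx1 - β * hc'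
  have hip2 : ip y' y = c ^ 2 * (1 - β) + β := by
    simp only [ip, y', imI_qmk, imJ_qmk, imK_qmk]
    linear_combination β * hy1 - (c * (1 - β)) * hc'
  have hcross : (x.imJ * y.imK - x.imK * y.imJ) ^ 2 + (x.imK * y.imI - x.imI * y.imK) ^ 2 +
      (x.imI * y.imJ - x.imJ * y.imI) ^ 2 = 1 - c ^ 2 := by
    have : (x.imJ * y.imK - x.imK * y.imJ) ^ 2 + (x.imK * y.imI - x.imI * y.imK) ^ 2 +
      (x.imI * y.imJ - x.imJ * y.imI) ^ 2 = (x.imI ^ 2 + x.imJ ^ 2 + x.imK ^ 2) *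
      (y.imI ^ 2 + y.imJ ^ 2 + y.imK ^ 2) - (x.imI * y.imI + x.imJ * y.imJ + x.imK * y.imK) ^ 2 := by
      ring
    rw [this, hx1, hy1, ← hc', one_mul]
  have hPU : PU y' := by
    refine ⟨rfl, ?_⟩
    simp only [y', imI_qmk, imJ_qmk, imK_qmk]
    have h1 : (c * (1 - β) * x.imI + β * y.imI + g * (x.imJ * y.imK - x.imK * y.imJ)) ^ 2 +
        (c * (1 - β) * x.imJ + β * y.imJ + g * (x.imK * y.imI - x.imI * y.imK)) ^ 2 +
        (c * (1 - β) * x.imK + β * y.imK + g * (x.imI * y.imJ - x.imJ * y.imI)) ^ 2 =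
        (c * (1 - β)) ^ 2 * (x.imI ^ 2 + x.imJ ^ 2 + x.imK ^ 2) +
        β ^ 2 * (y.imI ^ 2 + y.imJ ^ 2 + y.imK ^ 2) +
        2 * (c * (1 - β)) * β * (x.imI * y.imI + x.imJ * y.imJ + x.imK * y.imK) +
        g ^ 2 * ((x.imJ * y.imK - x.imK * y.imJ) ^ 2 + (x.imK * y.imI - x.imI * y.imK) ^ 2 +
        (x.imI * y.imJ - x.imJ * y.imI) ^ 2) := by ring
    rw [h1, hcross, hx1, hy1, ← hc', hg2]
    ring
  exact ⟨y', hx.rotate hy hPU (by rw [hip, ip_comm]), hip2⟩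

theorem exists_orthogonal {K : Subgroup (G1 ℝ)} {y : ℍ[ℝ]} (hy : InAx K y) (n : ℕ) :
    ∀ x, InAx K x → 0 ≤ ip x y → ip x y < 1 → 1 ≤ 2 ^ n * (1 - ip x y) →
      ∃ x', InAx K x' ∧ ip x' y = 0 := by
  induction n with
  | zero =>
    intro x hx h0 h1 h2
    rw [pow_zero, one_mul] at h2
    exact ⟨x, hx, by linarith⟩
  | succ n ih =>
    intro x hx h0 h1 h2
    set c := ip x y with hc
    have hc2 : c ^ 2 < 1 := by nlinarith
    by_cases h : 2 * c ^ 2 ≤ 1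
    · obtain ⟨y', hy', h3⟩ := hx.exists_ip hy (β := -(c ^ 2 / (1 - c ^ 2)))
        (by
          rw [neg_le_neg_iff, div_le_one (by linarith)]
          linarith)
        (by
          have : 0 ≤ c ^ 2 / (1 - c ^ 2) := div_nonneg (sq_nonneg _) (by linarith)
          linarith)
      refine ⟨y', hy', ?_⟩
      rw [h3, ← hc]
      have : 1 - c ^ 2 ≠ 0 := by linarith
      field_simp
      ring
    · push Not at h
      obtain ⟨y', hy', h3⟩ := hx.exists_ip hy (β := -1) le_rfl (by norm_num)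
      rw [← hc] at h3
      have h4 : ip y' y = 2 * c ^ 2 - 1 := by rw [h3]; ring
      refine ih y' hy' (by rw [h4]; linarith) (by rw [h4]; linarith) ?_
      rw [h4]
      have h5 : 2 * (1 - c) ≤ 1 - (2 * c ^ 2 - 1) := by nlinarith
      calc (1 : ℝ) ≤ 2 ^ (n + 1) * (1 - c) := h2
        _ = 2 ^ n * (2 * (1 - c)) := by ring
        _ ≤ _ := mul_le_mul_of_nonneg_left h5 (by positivity)

theorem PU.ip_sq_le {x y : ℍ[ℝ]} (hx : PU x) (hy : PU y) : ip x y ^ 2 ≤ 1 := by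
  have h : ip x y ^ 2 ≤ (x.imI ^ 2 + x.imJ ^ 2 + x.imK ^ 2) *
      (y.imI ^ 2 + y.imJ ^ 2 + y.imK ^ 2) := by
    unfold ip
    nlinarith [sq_nonneg (x.imI * y.imJ - x.imJ * y.imI), sq_nonneg (x.imJ * y.imK - x.imK * y.imJ),
      sq_nonneg (x.imK * y.imI - x.imI * y.imK)]
  rwa [hx.2, hy.2, one_mul] at h

theorem inAx_all {K : Subgroup (G1 ℝ)} {x y : ℍ[ℝ]} (hx : InAx K x) (hy : InAx K y)
    (h : ip x y ^ 2 < 1) (w : ℍ[ℝ]) (hw : PU w) : InAx K w := by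
  obtain ⟨x0, hx0, h0⟩ : ∃ x', InAx K x' ∧ ip x' y = 0 := by
    obtain ⟨x1, hx1, h1, h2⟩ : ∃ x1, InAx K x1 ∧ 0 ≤ ip x1 y ∧ ip x1 y < 1 := by
      rcases le_total 0 (ip x y) with h1 | h1
      · exact ⟨x, hx, h1, by nlinarith⟩
      · have h3 : ip (-x) y = -(ip x y) := by simp [ip]; ring
        exact ⟨-x, hx.neg, by rw [h3]; linarith, by rw [h3]; nlinarith⟩
    obtain ⟨n, hn⟩ := pow_unbounded_of_one_lt (1 / (1 - ip x1 y)) (one_lt_two (α := ℝ))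
    refine exists_orthogonal hy n x1 hx1 h1 h2 ?_
    have h4 : 0 < 1 - ip x1 y := by linarith
    rw [div_lt_iff₀ h4] at hn
    exact hn.le
  have h1 := hw.ip_sq_le hy.1
  obtain ⟨y', hy', h2⟩ := hx0.exists_ip hy (β := ip w y) (by nlinarith) (by nlinarith)
  rw [h0] at h2
  exact hy.rotate hy' hw (by rw [h2]; ring)

theorem eq_top_of_two {K : Subgroup (G1 ℝ)} {x y : ℍ[ℝ]} (hx : InAx K x) (hy : InAx K y)
    (h : ip x y ^ 2 < 1) : K = ⊤ := by
  rw [eq_top_iff]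
  intro g _
  have hg := G1.normSq g
  rw [Quaternion.normSq_def'] at hg
  by_cases h0 : g.1.imI ^ 2 + g.1.imJ ^ 2 + g.1.imK ^ 2 = 0
  · have k1 : g.1.imI = 0 := by nlinarith [sq_nonneg g.1.imI, sq_nonneg g.1.imJ, sq_nonneg g.1.imK]
    have k2 : g.1.imJ = 0 := by nlinarith [sq_nonneg g.1.imI, sq_nonneg g.1.imJ, sq_nonneg g.1.imK]
    have k3 : g.1.imK = 0 := by nlinarith [sq_nonneg g.1.imI, sq_nonneg g.1.imJ, sq_nonneg g.1.imK]
    apply hx.2 g g.1.re 0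
    ext
    · simp
    · simp [k1]
    · simp [k2]
    · simp [k3]
  · set N := g.1.imI ^ 2 + g.1.imJ ^ 2 + g.1.imK ^ 2 with hN
    have hpos : 0 < N := lt_of_le_of_ne (by positivity) (Ne.symm h0)
    have hs : Real.sqrt N ^ 2 = N := Real.sq_sqrt hpos.le
    have hs0 : Real.sqrt N ≠ 0 := (Real.sqrt_pos.2 hpos).ne'
    have hw : PU (qmk 0 (g.1.imI / Real.sqrt N) (g.1.imJ / Real.sqrt N) (g.1.imK / Real.sqrt N)) := by
      refine ⟨rfl, ?_⟩
      simp only [imI_qmk, imJ_qmk, imK_qmk]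
      rw [div_pow, div_pow, div_pow, ← add_div, ← add_div, hs, ← hN, div_self hpos.ne']
    apply (inAx_all hx hy h _ hw).2 g g.1.re (Real.sqrt N)
    simp only [imI_qmk, imJ_qmk, imK_qmk]
    ext
    · simp
    · simp; field_simp
    · simp; field_simp
    · simp; field_simp

end Pool.Agent.Helper73.Tor
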