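import Pool.Agent.Helper73.Tor.Class

open scoped Quaternion RestrictedProduct Topology
open MeasureTheory Topology

noncomputable section

namespace Pool.Agent.Helper73.Tor

theorem subring_eq (p : Pr) :
    ((PadicInt.subring p : Subring ℚ_[p]) : Set ℚ_[p]) = Metric.closedBall 0 1 := by
  ext x
  simp only [SetLike.mem_coe, Metric.mem_closedBall, dist_zero_right]
  rfl

theorem isOpen_subring (p : Pr) :
    IsOpen ((PadicInt.subring p : Subring ℚ_[p]) : Set ℚ_[p]) := by
  rw [subring_eq]
  exact IsUltrametricDist.isOpen_closedBall _ one_ne_zero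

instance : Fact (∀ p : Pr, IsOpen ((PadicInt.subring p : Subring ℚ_[p]) : Set ℚ_[p])) :=
  ⟨isOpen_subring⟩

theorem isCompact_subring (p : Pr) :
    IsCompact ((PadicInt.subring p : Subring ℚ_[p]) : Set ℚ_[p]) := by
  rw [subring_eq]
  exact isCompact_closedBall _ _

theorem isOpen_Zhat : IsOpen (Zhat : Set FinAdele) :=
  RestrictedProduct.isOpen_forall_mem isOpen_subring

theorem Zhat_eq_range : (Zhat : Set FinAdele) = Set.range (RestrictedProduct.structureMap
      (fun p : Pr => ℚ_[p]) (fun p => ((PadicInt.subring p : Subring ℚ_[p]) : Set ℚ_[p]))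
      Filter.cofinite) := by
  rw [RestrictedProduct.range_structureMap]
  rfl

theorem isCompact_Zhat : IsCompact (Zhat : Set FinAdele) := by
  have : ∀ p : Pr, CompactSpace ((PadicInt.subring p : Subring ℚ_[p]) : Set ℚ_[p]) :=
    fun p => isCompact_iff_compactSpace.1 (isCompact_subring p)
  rw [Zhat_eq_range]
  exact isCompact_range RestrictedProduct.isEmbedding_structureMap.continuous

theorem isUnit_natCast {m : ℕ} (hm : m ≠ 0) : IsUnit (m : FinAdele) := by
  have h : IsUnit (algebraMap ℚ FinAdele m) := (IsUnit.mk0 (m : ℚ) (by exact_mod_cast hm)).map _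
  rwa [map_natCast] at h

instance : SecondCountableTopology FinAdele := by
  have hp : ∀ p : Pr,
      SecondCountableTopology ((PadicInt.subring p : Subring ℚ_[p]) : Set ℚ_[p]) :=
    fun p => inferInstance
  have hZ : SecondCountableTopology (Zhat : Set FinAdele) := by
    rw [Zhat_eq_range]
    exact (RestrictedProduct.isEmbedding_structureMap (R := fun p : Pr => ℚ_[p])
      (A := fun p => ((PadicInt.subring p : Subring ℚ_[p]) : Set ℚ_[p]))
      (𝓕 := Filter.cofinite)).toHomeomorph.symm.isEmbedding.secondCountableTopology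
  let U : ℕ → Set FinAdele := fun m => {a | ((m + 1 : ℕ) : FinAdele) * a ∈ Zhat}
  have hcont : ∀ m : ℕ, Continuous fun a : FinAdele => ((m + 1 : ℕ) : FinAdele) * a :=
    fun m => continuous_const.mul continuous_id
  have hU : ∀ m, SecondCountableTopology (U m) := by
    intro m
    obtain ⟨u, hu⟩ := isUnit_natCast (Nat.succ_ne_zero m)
    let f : U m → (Zhat : Set FinAdele) := fun a => ⟨((m + 1 : ℕ) : FinAdele) * a.1, a.2⟩
    have hf : IsEmbedding f := by
      have h1 : IsEmbedding (fun a : FinAdele => ((m + 1 : ℕ) : FinAdele) * a) := by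
        rw [Nat.succ_eq_add_one] at hu
        rw [← hu]
        refine IsEmbedding.of_comp (g := fun a : FinAdele => (↑u⁻¹ : FinAdele) * a)
          (continuous_const.mul continuous_id) (continuous_const.mul continuous_id) ?_
        have : ((fun a : FinAdele => (↑u⁻¹ : FinAdele) * a) ∘ fun a : FinAdele => (u : FinAdele) * a)
            = id := by
          funext a
          simp
        rw [this]
        exact IsEmbedding.id
      exact IsEmbedding.of_comp (by fun_prop) continuous_subtype_val
        (h1.comp IsEmbedding.subtypeVal)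
    exact hf.secondCountableTopology
  refine TopologicalSpace.secondCountableTopology_of_countable_cover (U := U) (fun m => ?_) ?_
  · exact isOpen_Zhat.preimage (hcont m)
  · rw [Set.eq_univ_iff_forall]
    intro a
    obtain ⟨m, hm, h⟩ := exists_natCast_mul_mem a
    obtain ⟨k, rfl⟩ := Nat.exists_eq_succ_of_ne_zero hm
    exact Set.mem_iUnion.2 ⟨k, h⟩

end Pool.Agent.Helper73.Tor
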