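import Pool.Agent.Helper73.Tor.Class

open scoped Quaternion RestrictedProduct Topology
open MeasureTheory Topology

noncomputable section

namespace Pool.Agent.Helper73.Tor

section
variable {R S : Type} [CommRing R] [CommRing S] [Algebra ℚ R] [Algebra ℚ S]

theorem comp_algebraMap_rat (f : R →+* S) : f.comp (algebraMap ℚ R) = algebraMap ℚ S :=
  Subsingleton.elim _ _

theorem hom_algebraMap_rat (f : R →+* S) (q : ℚ) : f (algebraMap ℚ R q) = algebraMap ℚ S q :=
  congrFun (congrArg DFunLike.coe (comp_algebraMap_rat f)) q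

theorem hom_aeval {σ : Type} (f : R →+* S) (v : σ → R) (p : MvPolynomial σ ℚ) :
    f (MvPolynomial.aeval v p) = MvPolynomial.aeval (fun i => f (v i)) p := by
  rw [MvPolynomial.aeval_def, MvPolynomial.aeval_def, MvPolynomial.hom_eval₂,
    comp_algebraMap_rat]

omit [Algebra ℚ R] [Algebra ℚ S] in
theorem G1.coord_map (f : R →+* S) (x : G1 R) :
    (G1.map f x).coord = fun i => f (x.coord i) := by
  funext i
  fin_cases i <;> rfl

omit [Algebra ℚ R] [Algebra ℚ S] in
theorem coord_map (f : R →+* S) (g : G R) :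
    coord (G.map f g) = fun i => f (coord g i) := by
  funext ⟨i, j⟩
  simp only [coord, G.map_fst, G.map_snd, G1.coord_map]
  split_ifs <;> rfl

theorem G1.hom_aeval_coord (f : R →+* S) (x : G1 R) (p : MvPolynomial (Fin 4) ℚ) :
    f (MvPolynomial.aeval x.coord p) = MvPolynomial.aeval (G1.map f x).coord p := by
  rw [hom_aeval, G1.coord_map]

theorem hom_aeval_coord (f : R →+* S) (g : G R) (p : MvPolynomial (Fin 2 × Fin 4) ℚ) :
    f (MvPolynomial.aeval (coord g) p) = MvPolynomial.aeval (coord (G.map f g)) p := by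
  rw [hom_aeval, coord_map]

omit [Algebra ℚ R] in
/-- Cayley parametrisation -/
theorem normSq_cayley (z : Fin 3 → R) (u : R) (h : (1 + (z 0 ^ 2 + z 1 ^ 2 + z 2 ^ 2)) * u = 1) :
    Quaternion.normSq (qmk ((1 - (z 0 ^ 2 + z 1 ^ 2 + z 2 ^ 2)) * u) (2 * z 0 * u) (2 * z 1 * u)
      (2 * z 2 * u)) = 1 := by
  rw [Quaternion.normSq_def']
  simp only [re_qmk, imI_qmk, imJ_qmk, imK_qmk]
  have : ((1 + (z 0 ^ 2 + z 1 ^ 2 + z 2 ^ 2)) * u) ^ 2 = 1 := by rw [h, one_pow]
  linear_combination this

/-- Cayley parametrisation -/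
def cayley {R : Type} [CommRing R] (z : Fin 3 → R) (u : R)
    (h : (1 + (z 0 ^ 2 + z 1 ^ 2 + z 2 ^ 2)) * u = 1) : G1 R :=
  G1.of _ (normSq_cayley z u h)

theorem zariski_unit (b : Bool) (p : MvPolynomial (Fin 4) ℚ)
    (hp : ∀ x : G1 ℚ, InC b x.1 → MvPolynomial.aeval x.coord p = 0)
    (x : G1 R) (hx : InC b x.1) (v : R) (hv : (1 + x.1.re) * v = 1) :
    MvPolynomial.aeval x.coord p = 0 := by
  let ζ : Fin 3 → MvPolynomial (Fin 3) ℚ :=
    if b then ![MvPolynomial.X 0, 0, 0] else MvPolynomial.X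
  have hζ0 : ζ 0 = MvPolynomial.X 0 := by cases b <;> rfl
  have hζ : b = true → ζ 1 = 0 ∧ ζ 2 = 0 := by rintro rfl; exact ⟨rfl, rfl⟩
  have hζ' : b = false → ζ 1 = MvPolynomial.X 1 ∧ ζ 2 = MvPolynomial.X 2 := by
    rintro rfl; exact ⟨rfl, rfl⟩
  let D : MvPolynomial (Fin 3) ℚ := 1 + (ζ 0 ^ 2 + ζ 1 ^ 2 + ζ 2 ^ 2)
  let B := Localization.Away D
  let a : MvPolynomial (Fin 3) ℚ →+* B := algebraMap _ _
  let y : G1 B := cayley (fun i => a (ζ i)) (IsLocalization.Away.invSelf D) (by
    have := IsLocalization.Away.mul_invSelf (S := B) D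
    simp only [D, map_add, map_one, map_pow] at this
    exact this)
  have hyC : InC b y.1 := by
    intro hb
    obtain ⟨h1, h2⟩ := hζ hb
    constructor
    · show 2 * a (ζ 1) * _ = 0
      rw [h1, map_zero, mul_zero, zero_mul]
    · show 2 * a (ζ 2) * _ = 0
      rw [h2, map_zero, mul_zero, zero_mul]
  have he : MvPolynomial.aeval y.coord p = 0 := by
    obtain ⟨n, f, hf⟩ := IsLocalization.Away.surj (S := B) D (MvPolynomial.aeval y.coord p)
    have hf0 : f = 0 := by
      apply MvPolynomial.funext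
      intro z
      rw [map_zero]
      have hD : IsUnit (MvPolynomial.eval z D) := by
        rw [isUnit_iff_ne_zero]
        simp only [D, map_add, map_one, map_pow]
        positivity
      have h1 : IsLocalization.Away.lift (S := B) D hD (MvPolynomial.aeval y.coord p) = 0 := by
        rw [G1.hom_aeval_coord]
        exact hp _ (hyC.qmap _)
      have h2 := congrArg (IsLocalization.Away.lift (S := B) D hD) hf
      rw [map_mul, h1, zero_mul, IsLocalization.Away.lift_eq] at h2
      exact h2.symm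
    rw [hf0, map_zero] at hf
    have h3 : IsUnit ((algebraMap (MvPolynomial (Fin 3) ℚ) B D) ^ n) :=
      (IsLocalization.Away.algebraMap_isUnit D).pow n
    exact (h3.mul_left_eq_zero).1 hf
  -- specialise
  have h2 : algebraMap ℚ R (1 / 2) * 2 = 1 := by
    rw [← map_ofNat (algebraMap ℚ R) 2, ← map_mul]
    norm_num
  set c : R := algebraMap ℚ R (1 / 2) with hc
  have hN := G1.normSq x
  rw [Quaternion.normSq_def'] at hN
  let z : Fin 3 → R := ![x.1.imI * v, x.1.imJ * v, x.1.imK * v]
  have hzz : ∀ i, MvPolynomial.aeval z (ζ i) = z i := by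
    intro i
    cases hb : b
    · have : ζ = MvPolynomial.X := by simp [ζ, hb]
      rw [this, MvPolynomial.aeval_X]
    · obtain ⟨e1, e2⟩ := hx hb
      obtain ⟨e3, e4⟩ := hζ hb
      fin_cases i
      · show MvPolynomial.aeval z (ζ 0) = z 0
        rw [hζ0, MvPolynomial.aeval_X]
      · show MvPolynomial.aeval z (ζ 1) = x.1.imJ * v
        rw [e3, e1, map_zero, zero_mul]
      · show MvPolynomial.aeval z (ζ 2) = x.1.imK * v
        rw [e4, e2, map_zero, zero_mul]
  have hDz : MvPolynomial.aeval z D = 2 * v := by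
    simp only [D, map_add, map_one, map_pow, hzz]
    show 1 + ((x.1.imI * v) ^ 2 + (x.1.imJ * v) ^ 2 + (x.1.imK * v) ^ 2) = 2 * v
    have e1 : x.1.imI ^ 2 + x.1.imJ ^ 2 + x.1.imK ^ 2 = 1 - x.1.re ^ 2 := by linear_combination hN
    have e2 : (1 - x.1.re) * ((1 + x.1.re) * v) * v = (1 - x.1.re) * v := by rw [hv, mul_one]
    have e3 : 1 + (1 - x.1.re) * v = 2 * v := by linear_combination -hv
    rw [← e3, ← e2]
    linear_combination v ^ 2 * e1
  have hD : IsUnit ((MvPolynomial.aeval z : MvPolynomial (Fin 3) ℚ →ₐ[ℚ] R).toRingHom D) := by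
    show IsUnit (MvPolynomial.aeval z D)
    rw [hDz]
    exact IsUnit.of_mul_eq_one (c * (1 + x.1.re)) (by
      linear_combination (h2) + (c * 2) * hv)
  let φ : B →+* R := IsLocalization.Away.lift (S := B) D hD
  have hφ : ∀ g, φ (a g) = MvPolynomial.aeval z g := fun g => IsLocalization.Away.lift_eq D hD g
  have hinv : φ (IsLocalization.Away.invSelf D) = c * (1 + x.1.re) := by
    have h3 := congrArg φ (IsLocalization.Away.mul_invSelf (S := B) D)
    rw [map_mul, map_one] at h3
    have h4 : φ (algebraMap _ B D) = 2 * v := (hφ D).trans hDz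
    rw [h4] at h3
    linear_combination (c * (1 + x.1.re)) * h3 - φ (IsLocalization.Away.invSelf D) *
      (h2 + (c * 2) * hv)
  have hyx : G1.map φ y = x := by
    apply G1.ext
    have hz0 : z 0 = x.1.imI * v := rfl
    have hz1 : z 1 = x.1.imJ * v := rfl
    have hz2 : z 2 = x.1.imK * v := rfl
    have hN' : z 0 ^ 2 + z 1 ^ 2 + z 2 ^ 2 = 2 * v - 1 := by
      have := hDz
      simp only [D, map_add, map_one, map_pow, hzz] at this
      linear_combination this
    refine Quaternion.ext _ _ ?_ ?_ ?_ ?_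
    · show φ ((1 - ((a (ζ 0)) ^ 2 + (a (ζ 1)) ^ 2 + (a (ζ 2)) ^ 2)) *
        IsLocalization.Away.invSelf D) = x.1.re
      simp only [map_mul, map_sub, map_one, map_add, map_pow, hφ, hzz, hinv]
      rw [hN']
      linear_combination (1 + x.1.re) * h2 - (h2) - (c * 2) * hv
    · show φ (2 * a (ζ 0) * IsLocalization.Away.invSelf D) = x.1.imI
      simp only [map_mul, map_ofNat, hφ, hzz, hinv]
      rw [hz0]
      linear_combination (x.1.imI) * (h2 + (c * 2) * hv)
    · show φ (2 * a (ζ 1) * IsLocalization.Away.invSelf D) = x.1.imJ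
      simp only [map_mul, map_ofNat, hφ, hzz, hinv]
      rw [hz1]
      linear_combination (x.1.imJ) * (h2 + (c * 2) * hv)
    · show φ (2 * a (ζ 2) * IsLocalization.Away.invSelf D) = x.1.imK
      simp only [map_mul, map_ofNat, hφ, hzz, hinv]
      rw [hz2]
      linear_combination (x.1.imK) * (h2 + (c * 2) * hv)
  rw [← hyx, ← G1.hom_aeval_coord, he, map_zero]

omit [Algebra ℚ R] in
theorem normSq_neg_one_mul (x : G1 R) : Quaternion.normSq (-x.1) = 1 := by
  rw [Quaternion.normSq_neg, G1.normSq]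

omit [Algebra ℚ R] in
/-- the opposite element -/
theorem G1.coord_neg (x : G1 R) :
    (G1.of (-x.1) (normSq_neg_one_mul x)).coord = fun i => -(x.coord i) := by
  funext i
  fin_cases i <;> rfl

theorem zariski (b : Bool) (p : MvPolynomial (Fin 4) ℚ)
    (hp : ∀ x : G1 ℚ, InC b x.1 → MvPolynomial.aeval x.coord p = 0)
    (x : G1 R) (hx : InC b x.1) : MvPolynomial.aeval x.coord p = 0 := by
  -- near points with `1 + re` invertible
  have key : ∀ (p : MvPolynomial (Fin 4) ℚ)
      (_ : ∀ x : G1 ℚ, InC b x.1 → MvPolynomial.aeval x.coord p = 0)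
      (x : G1 R) (_ : InC b x.1), ∃ n : ℕ, (1 + x.1.re) ^ n * MvPolynomial.aeval x.coord p = 0 := by
    intro p hp x hx
    let w : R := 1 + x.1.re
    let Rw := Localization.Away w
    let a : R →+* Rw := algebraMap R Rw
    have h1 : a (MvPolynomial.aeval x.coord p) = 0 := by
      rw [G1.hom_aeval_coord]
      refine zariski_unit b p hp (G1.map a x) (hx.qmap a) (IsLocalization.Away.invSelf w) ?_
      have := IsLocalization.Away.mul_invSelf (S := Rw) w
      simp only [w, map_add, map_one] at this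
      exact this
    obtain ⟨n, hn⟩ := IsLocalization.Away.exists_of_eq (S := Rw) w (h1.trans (map_zero a).symm)
    exact ⟨n, by rw [hn, mul_zero]⟩
  obtain ⟨n, hn⟩ := key p hp x hx
  let p' : MvPolynomial (Fin 4) ℚ := MvPolynomial.aeval (fun i => -(MvPolynomial.X i)) p
  have hp' : ∀ {S : Type} [CommRing S] [Algebra ℚ S] (y : G1 S),
      MvPolynomial.aeval y.coord p' =
        MvPolynomial.aeval (G1.of (-y.1) (normSq_neg_one_mul y)).coord p := by
    intro S _ _ y
    have h1 := hom_aeval (MvPolynomial.aeval y.coord : MvPolynomial (Fin 4) ℚ →ₐ[ℚ] S).toRingHom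
      (fun i : Fin 4 => -(MvPolynomial.X i : MvPolynomial (Fin 4) ℚ)) p
    rw [G1.coord_neg]
    refine h1.trans ?_
    congr 2
    funext i
    show MvPolynomial.aeval y.coord (-(MvPolynomial.X i)) = _
    rw [map_neg, MvPolynomial.aeval_X]
  have hneg : ∀ {S : Type} [CommRing S] (y : G1 S), InC b y.1 → InC b (-y.1) := by
    intro S _ y hy h
    obtain ⟨h1, h2⟩ := hy h
    simp [h1, h2]
  obtain ⟨m, hm⟩ := key p' (fun y hy => by rw [hp']; exact hp _ (hneg y hy))
    (G1.of (-x.1) (normSq_neg_one_mul x)) (hneg x hx)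
  rw [hp'] at hm
  have h3 : G1.of (-(G1.of (-x.1) (normSq_neg_one_mul x)).1)
      (normSq_neg_one_mul _) = x := by
    apply G1.ext
    simp
  rw [h3] at hm
  have h4 : (1 + (G1.of (-x.1) (normSq_neg_one_mul x)).1.re) = 1 - x.1.re := by
    simp [sub_eq_add_neg]
  rw [h4] at hm
  have hc : IsCoprime (1 + x.1.re) (1 - x.1.re) := by
    refine ⟨algebraMap ℚ R (1 / 2), algebraMap ℚ R (1 / 2), ?_⟩
    have h2 : algebraMap ℚ R (1 / 2) * 2 = 1 := by
      rw [← map_ofNat (algebraMap ℚ R) 2, ← map_mul]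
      norm_num
    linear_combination h2
  obtain ⟨s, t, hst⟩ := hc.pow (m := n) (n := m)
  calc MvPolynomial.aeval x.coord p
      = (s * (1 + x.1.re) ^ n + t * (1 - x.1.re) ^ m) * MvPolynomial.aeval x.coord p := by
        rw [hst, one_mul]
    _ = s * ((1 + x.1.re) ^ n * MvPolynomial.aeval x.coord p) +
        t * ((1 - x.1.re) ^ m * MvPolynomial.aeval x.coord p) := by ring
    _ = 0 := by rw [hn, hm]; ring

end

end Pool.Agent.Helper73.Tor
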